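import Pool.Agent.Q281.TS.Defs

namespace Pool.Agent.Q281.TS

open Set MeasureTheory

lemma s3 : Real.sqrt 3 * Real.sqrt 3 = 3 := Real.mul_self_sqrt (by norm_num)
lemma s3pos : 0 < Real.sqrt 3 := Real.sqrt_pos.2 (by norm_num)
lemma s3lt : Real.sqrt 3 < 1.7321 := by
  nlinarith [s3, s3pos]
lemma s3gt : 1.732 < Real.sqrt 3 := by
  nlinarith [s3, s3pos]

lemma w_re : w.re = 1 / 2 := rfl
lemma w_im : w.im = Real.sqrt 3 / 2 := rfl

lemma w_mul : w * w = w - 1 := by
  apply Complex.ext
  · simp [w_re, w_im]; nlinarith [s3]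
  · simp [w_re, w_im]; ring

lemma w_sq : w ^ 2 = w - 1 := by rw [pow_two, w_mul]

lemma normSq_w : Complex.normSq w = 1 := by
  rw [Complex.normSq_apply, w_re, w_im]; nlinarith [s3]

lemma norm_w : ‖w‖ = 1 := by
  have h : ‖w‖ ^ 2 = 1 := by rw [Complex.sq_norm, normSq_w]
  nlinarith [norm_nonneg w]

lemma norm_w1 : ‖w - 1‖ = 1 := by
  rw [← w_sq, norm_pow, norm_w]; norm_num

lemma II : Complex.I * Complex.I = -1 := Complex.I_mul_I

lemma tri_finite (p u : ℂ) : (tri p u).Finite := by
  unfold tri; exact Set.toFinite _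

lemma sq_finite (p u : ℂ) : (sq p u).Finite := by
  unfold sq; exact Set.toFinite _

lemma tile_finite {V : Set ℂ} (h : IsTri V ∨ IsSq V) : V.Finite := by
  rcases h with ⟨p, u, -, rfl⟩ | ⟨p, u, -, rfl⟩
  · exact tri_finite _ _
  · exact sq_finite _ _

/-- the linear functional vanishing on the line through `p` and `p + u` -/
noncomputable def ell (p u z : ℂ) : ℝ := (z - p).im * u.re - (z - p).re * u.im

lemma ell_combo (p u a b : ℂ) (s t : ℝ) (h : s + t = 1) :
    ell p u (s • a + t • b) = s * ell p u a + t * ell p u b := by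
  unfold ell
  have hs : s = 1 - t := by linarith
  subst hs
  simp
  ring

lemma convex_ell_nonneg (p u : ℂ) : Convex ℝ {z | 0 ≤ ell p u z} := by
  intro a ha b hb s t hs ht hst
  simp only [mem_ofPred_eq] at *
  rw [ell_combo _ _ _ _ _ _ hst]
  positivity

lemma normSq_u {u : ℂ} (hu : ‖u‖ = 1) : u.re * u.re + u.im * u.im = 1 := by
  have : Complex.normSq u = 1 := by rw [← Complex.sq_norm, hu]; norm_num
  rwa [Complex.normSq_apply] at this

lemma ell_mul (p x : ℂ) {u : ℂ} (hu : ‖u‖ = 1) : ell p u (p + x * u) = x.im := by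
  have := normSq_u hu
  simp [ell]
  linear_combination x.im * this

lemma ell_w (p u : ℂ) (hu : ‖u‖ = 1) : ell p u (p + w * u) = Real.sqrt 3 / 2 := by
  rw [ell_mul _ _ hu, w_im]

/-- the tile with the side from `p` to `p + u` lies to the left of it -/
def LTile (p u : ℂ) (V : Set ℂ) : Prop := V = tri p u ∨ V = sq p u

lemma mem_tri' {p u z : ℂ} (h : z ∈ tri p u) : ∃ x : ℂ, z = p + x * u ∧ (x = 0 ∨ x = 1 ∨ x = w) := by
  simp only [tri, mem_insert_iff, mem_singleton_iff] at h
  rcases h with h | h | h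
  · exact ⟨0, by rw [h]; ring, Or.inl rfl⟩
  · exact ⟨1, by rw [h]; ring, Or.inr (Or.inl rfl)⟩
  · exact ⟨w, by rw [h], Or.inr (Or.inr rfl)⟩

lemma mem_sq' {p u z : ℂ} (h : z ∈ sq p u) : ∃ x : ℂ, z = p + x * u ∧
    (x = 0 ∨ x = 1 ∨ x = 1 + Complex.I ∨ x = Complex.I) := by
  simp only [sq, mem_insert_iff, mem_singleton_iff] at h
  rcases h with h | h | h | h
  · exact ⟨0, by rw [h]; ring, Or.inl rfl⟩
  · exact ⟨1, by rw [h]; ring, Or.inr (Or.inl rfl)⟩
  · exact ⟨1 + Complex.I, by rw [h]; ring, Or.inr (Or.inr (Or.inl rfl))⟩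
  · exact ⟨Complex.I, by rw [h], Or.inr (Or.inr (Or.inr rfl))⟩

lemma LTile.pos {p u : ℂ} {V : Set ℂ} (h : LTile p u V) (hu : ‖u‖ = 1) {z : ℂ} (hz : z ∈ V) :
    0 ≤ ell p u z ∧ (ell p u z = 0 → z = p ∨ z = p + u) := by
  have hs := s3pos
  rcases h with rfl | rfl
  · obtain ⟨x, rfl, hx⟩ := mem_tri' hz
    rw [ell_mul _ _ hu]
    rcases hx with rfl | rfl | rfl
    · simp
    · simp
    · rw [w_im]
      exact ⟨by positivity, fun h => by linarith⟩
  · obtain ⟨x, rfl, hx⟩ := mem_sq' hz
    rw [ell_mul _ _ hu]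
    rcases hx with rfl | rfl | rfl | rfl
    · simp
    · simp
    · simp
    · simp

lemma LTile.hull {p u : ℂ} {V : Set ℂ} (h : LTile p u V) (hu : ‖u‖ = 1) {z : ℂ}
    (hz : z ∈ convexHull ℝ V) : 0 ≤ ell p u z :=
  convexHull_min (fun _ hy => (h.pos hu hy).1) (convex_ell_nonneg p u) hz

lemma LTile.mem_p {p u : ℂ} {V : Set ℂ} (h : LTile p u V) : p ∈ V := by
  rcases h with rfl | rfl
  · simp [tri]
  · simp [sq]

lemma LTile.mem_q {p u : ℂ} {V : Set ℂ} (h : LTile p u V) : p + u ∈ V := by
  rcases h with rfl | rfl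
  · simp [tri]
  · simp [sq]

lemma LTile.mem_center {p u : ℂ} {V : Set ℂ} (h : LTile p u V) : p + w * u ∈ convexHull ℝ V := by
  rcases h with rfl | rfl
  · exact subset_convexHull ℝ _ (by simp [tri])
  · have hc := convex_convexHull ℝ (sq p u)
    have h1 : p ∈ convexHull ℝ (sq p u) := subset_convexHull ℝ _ (by simp [sq])
    have h2 : p + u ∈ convexHull ℝ (sq p u) := subset_convexHull ℝ _ (by simp [sq])
    have h3 : p + u + Complex.I * u ∈ convexHull ℝ (sq p u) := subset_convexHull ℝ _ (by simp [sq])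
    have h4 : p + Complex.I * u ∈ convexHull ℝ (sq p u) := subset_convexHull ℝ _ (by simp [sq])
    have m1 := hc h1 h2 (a := 1 / 2) (b := 1 / 2) (by norm_num) (by norm_num) (by norm_num)
    have m2 := hc h4 h3 (a := 1 / 2) (b := 1 / 2) (by norm_num) (by norm_num) (by norm_num)
    have hs := s3lt
    have hp := s3pos
    have m3 := hc m1 m2 (a := 1 - Real.sqrt 3 / 2) (b := Real.sqrt 3 / 2) (by linarith)
      (by positivity) (by ring)
    convert m3 using 1
    apply Complex.ext
    · simp [w_re, w_im]; ring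
    · simp [w_re, w_im]; ring

lemma tri_rot (p u : ℂ) : tri (p + u) ((w - 1) * u) = tri p u := by
  have h := w_mul
  have e1 : p + u + (w - 1) * u = p + w * u := by ring
  have e2 : p + u + w * ((w - 1) * u) = p := by linear_combination u * h
  unfold tri
  rw [e1, e2]
  ext z
  simp only [mem_insert_iff, mem_singleton_iff]
  tauto

lemma tri_rot' (p u : ℂ) : tri (p + w * u) (-(w * u)) = tri p u := by
  have h := w_mul
  have e1 : p + w * u + -(w * u) = p := by ring
  have e2 : p + w * u + w * -(w * u) = p + u := by linear_combination (-u) * h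
  unfold tri
  rw [e1, e2]
  ext z
  simp only [mem_insert_iff, mem_singleton_iff]
  tauto

lemma sq_rot (p u : ℂ) : sq (p + u) (Complex.I * u) = sq p u := by
  have h := II
  have e2 : p + u + Complex.I * u + Complex.I * (Complex.I * u) = p + Complex.I * u := by
    linear_combination u * h
  have e3 : p + u + Complex.I * (Complex.I * u) = p := by linear_combination u * h
  unfold sq
  rw [e2, e3]
  ext z
  simp only [mem_insert_iff, mem_singleton_iff]
  tauto

lemma sq_rot2 (p u : ℂ) : sq (p + u + Complex.I * u) (-u) = sq p u := by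
  rw [← sq_rot p u, ← sq_rot (p + u) (Complex.I * u)]
  congr 1
  linear_combination (-u) * II

lemma sq_rot3 (p u : ℂ) : sq (p + Complex.I * u) (-(Complex.I * u)) = sq p u := by
  have h := sq_rot (p + u + Complex.I * u) (-u)
  rw [sq_rot2] at h
  rw [← h]
  congr 1
  · ring
  · ring

lemma norm_I_mul {u : ℂ} (hu : ‖u‖ = 1) : ‖Complex.I * u‖ = 1 := by
  rw [norm_mul, Complex.norm_I, hu, one_mul]

lemma tri_vertex {p u a : ℂ} (hu : ‖u‖ = 1) (ha : a ∈ tri p u) :
    ∃ v : ℂ, ‖v‖ = 1 ∧ tri p u = tri a v := by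
  simp only [tri, mem_insert_iff, mem_singleton_iff] at ha
  rcases ha with rfl | rfl | rfl
  · exact ⟨u, hu, rfl⟩
  · exact ⟨(w - 1) * u, by rw [norm_mul, norm_w1, hu, one_mul], (tri_rot _ _).symm⟩
  · exact ⟨-(w * u), by rw [norm_neg, norm_mul, norm_w, hu, one_mul], (tri_rot' _ _).symm⟩

lemma sq_vertex {p u a : ℂ} (hu : ‖u‖ = 1) (ha : a ∈ sq p u) :
    ∃ v : ℂ, ‖v‖ = 1 ∧ sq p u = sq a v := by
  simp only [sq, mem_insert_iff, mem_singleton_iff] at ha
  rcases ha with rfl | rfl | rfl | rfl
  · exact ⟨u, hu, rfl⟩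
  · exact ⟨Complex.I * u, norm_I_mul hu, (sq_rot _ _).symm⟩
  · exact ⟨-u, by rw [norm_neg, hu], (sq_rot2 _ _).symm⟩
  · exact ⟨-(Complex.I * u), by rw [norm_neg]; exact norm_I_mul hu, (sq_rot3 _ _).symm⟩

lemma class_tri {p u a b : ℂ} (hu : ‖u‖ = 1) (ha : a ∈ tri p u) (hb : b ∈ tri p u) (hab : a ≠ b) :
    LTile a (b - a) (tri p u) ∨ LTile b (a - b) (tri p u) := by
  obtain ⟨v, hv, h⟩ := tri_vertex hu ha
  rw [h] at hb ⊢
  simp only [tri, mem_insert_iff, mem_singleton_iff] at hb
  rcases hb with rfl | rfl | rfl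
  · exact absurd rfl hab
  · left; left
    congr 1; ring
  · right; left
    rw [← tri_rot' a v]
    congr 1
    ring

lemma norm_one_add_I {u : ℂ} (hu : ‖u‖ = 1) : ‖u + Complex.I * u‖ ≠ 1 := by
  intro h
  have h1 : ‖u + Complex.I * u‖ ^ 2 = 1 := by rw [h]; norm_num
  rw [Complex.sq_norm, Complex.normSq_apply] at h1
  have := normSq_u hu
  simp at h1
  nlinarith

lemma class_sq {p u a b : ℂ} (hu : ‖u‖ = 1) (ha : a ∈ sq p u) (hb : b ∈ sq p u)
    (hab : ‖a - b‖ = 1) : LTile a (b - a) (sq p u) ∨ LTile b (a - b) (sq p u) := by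
  obtain ⟨v, hv, h⟩ := sq_vertex hu ha
  rw [h] at hb ⊢
  simp only [sq, mem_insert_iff, mem_singleton_iff] at hb
  rcases hb with rfl | rfl | rfl | rfl
  · simp at hab
  · left; right
    congr 1; ring
  · exfalso
    refine norm_one_add_I hv ?_
    rw [← norm_neg]
    have e : -(v + Complex.I * v) = a - (a + v + Complex.I * v) := by ring
    rw [e]; exact hab
  · right; right
    have e : a - (a + Complex.I * v) = -(Complex.I * v) := by ring
    rw [e, sq_rot3]

lemma class_tile {V : Set ℂ} (hV : IsTri V ∨ IsSq V) {a b : ℂ} (ha : a ∈ V) (hb : b ∈ V)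
    (hab : ‖a - b‖ = 1) : LTile a (b - a) V ∨ LTile b (a - b) V := by
  rcases hV with ⟨p, u, hu, rfl⟩ | ⟨p, u, hu, rfl⟩
  · refine class_tri hu ha hb ?_
    rintro rfl
    simp at hab
  · exact class_sq hu ha hb hab

lemma mem_region {P : Set (Set ℂ)} {V : Set ℂ} (hV : V ∈ P) {z : ℂ} (hz : z ∈ convexHull ℝ V) :
    z ∈ region P := by
  simp only [region, mem_iUnion]
  exact ⟨V, hV, hz⟩

lemma mem_region' {P : Set (Set ℂ)} {V : Set ℂ} (hV : V ∈ P) {z : ℂ} (hz : z ∈ V) :
    z ∈ region P := mem_region hV (subset_convexHull ℝ _ hz)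

/-- what is needed of a convex patch -/
structure Cx (B : Set (Set ℂ)) : Prop where
  tile : ∀ V ∈ B, IsTri V ∨ IsSq V
  edge : ∀ V ∈ B, ∀ W ∈ B, V ≠ W → EdgeToEdge V W
  fin : B.Finite
  tri3 : ∀ V ∈ B, ∀ v ∈ V, trisAt B v ≤ 3
  sq2 : ∀ V ∈ B, ∀ v ∈ V, sqsAt B v ≤ 2
  conv : Convex ℝ (region B)

lemma isClosed_region {F : Set (Set ℂ)} (hF : ∀ V ∈ F, IsTri V ∨ IsSq V) (hfin : F.Finite) :
    IsClosed (region F) := by
  unfold region
  refine hfin.isClosed_biUnion fun V hV => ?_
  exact ((tile_finite (hF V hV)).isCompact_convexHull ℝ).isClosed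

/-- The neighbour of a tile across a side whose midpoint is in the interior of the region. -/
theorem neighbour {P : Set (Set ℂ)} (hT : ∀ V ∈ P, IsTri V ∨ IsSq V)
    (hE : ∀ V ∈ P, ∀ W ∈ P, V ≠ W → EdgeToEdge V W) (hfin : P.Finite) {p u : ℂ} (hu : ‖u‖ = 1)
    {Y : Set ℂ} (hY : Y ∈ P) (hl : LTile p u Y) (hm : p + (1 / 2 : ℝ) • u ∈ interior (region P)) :
    ∃ X ∈ P, LTile (p + u) (-u) X := by
  set m : ℂ := p + (1 / 2 : ℝ) • u with hmdef
  have hm' : m = p + ((1/2 : ℝ) : ℂ) * u := by rw [hmdef, Complex.real_smul]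
  have hellm : ell p u m = 0 := by rw [hm', ell_mul _ _ hu]; simp
  have hu0 : u ≠ 0 := by rintro rfl; simp at hu
  have hmp : m ≠ p := by
    intro h
    have : ((1/2 : ℝ) : ℂ) * u = 0 := by
      have := hm'.symm.trans h
      linear_combination this
    simp [hu0] at this
  have hmq : m ≠ p + u := by
    intro h
    have h2 : ((1/2 : ℝ) : ℂ) * u - u = 0 := by
      have := hm'.symm.trans h
      linear_combination this
    have h3 : (((1/2 : ℝ) : ℂ) - 1) * u = 0 := by rw [← h2]; ring
    rcases mul_eq_zero.1 h3 with h4 | h4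
    · norm_num at h4
    · exact hu0 h4
  -- another tile contains `m`
  obtain ⟨X, hX, hXY, hmX⟩ : ∃ X ∈ P, X ≠ Y ∧ m ∈ convexHull ℝ X := by
    by_contra hcon
    push Not at hcon
    set K : Set ℂ := ⋃ V ∈ P \ {Y}, convexHull ℝ V with hK
    have hKc : IsClosed K := by
      refine (hfin.subset sdiff_subset).isClosed_biUnion fun V hV => ?_
      exact ((tile_finite (hT V hV.1)).isCompact_convexHull ℝ).isClosed
    have hmK : m ∉ K := by
      simp only [hK, mem_iUnion, not_exists]
      intro V hV hmV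
      exact hcon V hV.1 hV.2 hmV
    have hopen : IsOpen (interior (region P) ∩ Kᶜ) := isOpen_interior.inter hKc.isOpen_compl
    obtain ⟨ε, hε, hball⟩ := Metric.isOpen_iff.1 hopen m ⟨hm, hmK⟩
    set z : ℂ := p + (⟨1 / 2, -(ε / 2)⟩ : ℂ) * u with hz
    have hzb : z ∈ Metric.ball m ε := by
      rw [Metric.mem_ball, Complex.dist_eq]
      have : z - m = (⟨0, -(ε / 2)⟩ : ℂ) * u := by
        rw [hz, hm']
        have e1 : (⟨1 / 2, -(ε / 2)⟩ : ℂ) = ((1/2 : ℝ) : ℂ) + ⟨0, -(ε / 2)⟩ := by
          apply Complex.ext <;> simp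
        rw [e1]; ring
      rw [this, norm_mul, hu, mul_one]
      have e2 : (⟨0, -(ε / 2)⟩ : ℂ) = ((-(ε / 2) : ℝ) : ℂ) * Complex.I := by
        apply Complex.ext <;> simp
      rw [e2, norm_mul, Complex.norm_I, mul_one, Complex.norm_real, Real.norm_eq_abs, abs_neg,
        abs_of_pos (by positivity)]
      linarith
    obtain ⟨h1, h2⟩ := hball hzb
    have h3 : z ∈ region P := interior_subset h1
    simp only [region, mem_iUnion] at h3
    obtain ⟨V, hV, hzV⟩ := h3
    by_cases hVY : V = Y
    · subst hVY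
      have := hl.hull hu hzV
      rw [hz, ell_mul _ _ hu] at this
      simp at this
      linarith
    · apply h2
      simp only [hK, mem_iUnion]
      exact ⟨V, ⟨hV, hVY⟩, hzV⟩
  have hmY : m ∈ convexHull ℝ Y := by
    have h1 : p ∈ convexHull ℝ Y := subset_convexHull ℝ _ hl.mem_p
    have h2 : p + u ∈ convexHull ℝ Y := subset_convexHull ℝ _ hl.mem_q
    have := (convex_convexHull ℝ Y) h1 h2 (a := 1/2) (b := 1/2)
      (by norm_num) (by norm_num) (by norm_num)
    convert this using 1
    rw [hm']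
    apply Complex.ext
    · simp; ring
    · simp; ring
  have hmXY : m ∈ convexHull ℝ X ∩ convexHull ℝ Y := ⟨hmX, hmY⟩
  have hmYv : m ∉ Y := by
    intro h
    rcases (hl.pos hu h).2 hellm with h | h
    · exact hmp h
    · exact hmq h
  rcases hE X hX Y hY hXY with h0 | ⟨a, ha, h0⟩ | ⟨a, ha, b, hb, hab, h0⟩
  · rw [h0] at hmXY; exact absurd hmXY (notMem_empty _)
  · rw [h0, mem_singleton_iff] at hmXY
    exact absurd (hmXY ▸ ha.2) hmYv
  · rw [h0] at hmXY
    obtain ⟨s, t, hs, ht, hst, hstm⟩ := hmXY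
    have hfa := hl.pos hu ha.2
    have hfb := hl.pos hu hb.2
    have hsum := ell_combo p u a b s t hst
    rw [hstm, hellm] at hsum
    have hs0 : s ≠ 0 := by
      rintro rfl
      have : t = 1 := by linarith
      subst this
      simp at hstm
      exact hmYv (hstm ▸ hb.2)
    have ht0 : t ≠ 0 := by
      rintro rfl
      have : s = 1 := by linarith
      subst this
      simp at hstm
      exact hmYv (hstm ▸ ha.2)
    have hs1 : 0 < s := lt_of_le_of_ne hs (Ne.symm hs0)
    have ht1 : 0 < t := lt_of_le_of_ne ht (Ne.symm ht0)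
    have ha0 : ell p u a = 0 := by
      have := mul_nonneg hs hfa.1
      have := mul_nonneg ht hfb.1
      have h5 : s * ell p u a = 0 := by linarith
      exact (mul_eq_zero.1 h5).resolve_left hs0
    have hb0 : ell p u b = 0 := by
      have := mul_nonneg hs hfa.1
      have := mul_nonneg ht hfb.1
      have h5 : t * ell p u b = 0 := by linarith
      exact (mul_eq_zero.1 h5).resolve_left ht0
    have hab' : a ≠ b := by rintro rfl; simp at hab
    -- `p` and `p + u` are vertices of `X`
    have hpX : p ∈ X ∧ p + u ∈ X := by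
      rcases hfa.2 ha0 with h | h <;> rcases hfb.2 hb0 with h' | h'
      · exact absurd (h.trans h'.symm) hab'
      · exact ⟨h ▸ ha.1, h' ▸ hb.1⟩
      · exact ⟨h' ▸ hb.1, h ▸ ha.1⟩
      · exact absurd (h.trans h'.symm) hab'
    have hc := class_tile (hT X hX) hpX.1 hpX.2 (by
      have : p - (p + u) = -u := by ring
      rw [this, norm_neg, hu])
    rcases hc with hc | hc
    · exfalso
      have e : p + u - p = u := by ring
      rw [e] at hc
      have h1 : p + w * u ∈ convexHull ℝ X ∩ convexHull ℝ Y := ⟨hc.mem_center, hl.mem_center⟩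
      rw [h0] at h1
      obtain ⟨s', t', hs', ht', hst', hstm'⟩ := h1
      have hsum' := ell_combo p u a b s' t' hst'
      rw [hstm', ell_w _ _ hu, ha0, hb0] at hsum'
      have := s3pos
      linarith
    · refine ⟨X, hX, ?_⟩
      have e : p - (p + u) = -u := by ring
      rwa [e] at hc

lemma continuous_ell (p u : ℂ) : Continuous (ell p u) := by
  unfold ell
  fun_prop

/-- the midpoint of a side of a triangle, on the other side of which there is a further point -/
lemma mid_interior {S : Set ℂ} (hS : Convex ℝ S) {a b c z : ℂ} (ha : a ∈ S) (hb : b ∈ S)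
    (hc : c ∈ S) (hz : z ∈ S) (hpos : 0 < ell a (b - a) c) (hneg : ell a (b - a) z < 0)
    {m : ℂ} (hm : m = (1 / 2 : ℝ) • a + (1 / 2 : ℝ) • b) : m ∈ interior S := by
  set D := ell a (b - a) c with hD
  set U : Set ℂ := {y | 0 < ell a (b - a) y} ∩ {y | 0 < ell b (c - b) y} ∩ {y | 0 < ell c (a - c) y}
    with hU
  have hUo : IsOpen U := by
    refine IsOpen.inter (IsOpen.inter ?_ ?_) ?_
    · exact isOpen_lt continuous_const (continuous_ell _ _)
    · exact isOpen_lt continuous_const (continuous_ell _ _)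
    · exact isOpen_lt continuous_const (continuous_ell _ _)
  have hUS : U ⊆ S := by
    rintro y ⟨⟨h1, h2⟩, h3⟩
    simp only [mem_ofPred_eq] at h1 h2 h3
    have e : y = (ell b (c - b) y / D) • a + (ell c (a - c) y / D) • b + (ell a (b - a) y / D) • c := by
      have hD0 : D ≠ 0 := hpos.ne'
      have : D • y = (ell b (c - b) y) • a + (ell c (a - c) y) • b + (ell a (b - a) y) • c := by
        rw [hD]
        apply Complex.ext
        · simp [ell]; ring
        · simp [ell]; ring
      calc y = D⁻¹ • (D • y) := by rw [smul_smul, inv_mul_cancel₀ hD0, one_smul]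
        _ = D⁻¹ • ((ell b (c - b) y) • a + (ell c (a - c) y) • b + (ell a (b - a) y) • c) := by
          rw [this]
        _ = _ := by
          simp only [smul_add, smul_smul, div_eq_inv_mul]
    have hsum : ell b (c - b) y / D + ell c (a - c) y / D + ell a (b - a) y / D = 1 := by
      rw [← add_div, ← add_div]
      rw [div_eq_one_iff_eq hpos.ne', hD]
      simp [ell]; ring
    rw [e]
    have := hS.sum_mem (t := (Finset.univ : Finset (Fin 3)))
      (w := ![ell b (c - b) y / D, ell c (a - c) y / D, ell a (b - a) y / D]) (z := ![a, b, c])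
      (by intro i _; fin_cases i
          · exact (div_pos h2 hpos).le
          · exact (div_pos h3 hpos).le
          · exact (div_pos h1 hpos).le)
      (by simp [Fin.sum_univ_three]; exact hsum)
      (by intro i _; fin_cases i
          · exact ha
          · exact hb
          · exact hc)
    simpa [Fin.sum_univ_three] using this
  set E2 := ell b (c - b) z
  set E3 := ell c (a - c) z
  set ε : ℝ := D / (2 * (|E2| + |E3| + 1)) with hε
  have hεpos : 0 < ε := by positivity
  have hεE2 : ε * |E2| < D / 2 := by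
    rw [hε]
    rw [div_mul_eq_mul_div, div_lt_div_iff₀ (by positivity) (by norm_num)]
    have := abs_nonneg E3
    nlinarith [abs_nonneg E2]
  have hεE3 : ε * |E3| < D / 2 := by
    rw [hε]
    rw [div_mul_eq_mul_div, div_lt_div_iff₀ (by positivity) (by norm_num)]
    have := abs_nonneg E3
    nlinarith [abs_nonneg E2]
  set x : ℂ := (1 + ε) • m + (-ε) • z with hx
  have hab : ell a (b - a) m = 0 := by
    rw [hm, ell_combo _ _ _ _ _ _ (by norm_num)]; simp [ell]; ring
  have hbc : ell b (c - b) m = D / 2 := by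
    rw [hm, ell_combo _ _ _ _ _ _ (by norm_num), hD]; simp [ell]; ring
  have hca : ell c (a - c) m = D / 2 := by
    rw [hm, ell_combo _ _ _ _ _ _ (by norm_num), hD]; simp [ell]; ring
  have hxU : x ∈ U := by
    refine ⟨⟨?_, ?_⟩, ?_⟩
    · simp only [mem_ofPred_eq]
      rw [hx, ell_combo _ _ _ _ _ _ (by ring), hab]
      nlinarith
    · simp only [mem_ofPred_eq]
      rw [hx, ell_combo _ _ _ _ _ _ (by ring), hbc]
      have : ε * E2 ≤ ε * |E2| := mul_le_mul_of_nonneg_left (le_abs_self _) hεpos.le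
      nlinarith
    · simp only [mem_ofPred_eq]
      rw [hx, ell_combo _ _ _ _ _ _ (by ring), hca]
      have : ε * E3 ≤ ε * |E3| := mul_le_mul_of_nonneg_left (le_abs_self _) hεpos.le
      nlinarith
  have hxS : x ∈ interior S := interior_maximal hUS hUo hxU
  refine hS.openSegment_interior_self_subset_interior hxS hz ?_
  refine ⟨1 / (1 + ε), ε / (1 + ε), by positivity, by positivity, by field_simp, ?_⟩
  rw [hx, smul_add, smul_smul, smul_smul, add_assoc, ← add_smul]
  have e1 : 1 / (1 + ε) * (1 + ε) = 1 := by field_simp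
  have e2 : 1 / (1 + ε) * -ε + ε / (1 + ε) = 0 := by field_simp; ring
  rw [e1, e2, one_smul, zero_smul, add_zero]

/-- a tile of a convex patch has a neighbour across every side beyond which there is a point of
the patch -/
theorem cross {B : Set (Set ℂ)} (hB : Cx B) {p u : ℂ} (hu : ‖u‖ = 1) {Y : Set ℂ} (hY : Y ∈ B)
    (hl : LTile p u Y) {z : ℂ} (hz : z ∈ region B) (hneg : ell p u z < 0) :
    ∃ X ∈ B, LTile (p + u) (-u) X := by
  refine neighbour hB.tile hB.edge hB.fin hu hY hl ?_
  have e : p + u - p = u := by ring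
  refine mid_interior hB.conv (a := p) (b := p + u) (c := p + w * u) (z := z)
    (mem_region' hY hl.mem_p) (mem_region' hY hl.mem_q) (mem_region hY hl.mem_center) hz ?_ ?_ ?_
  · rw [e, ell_w _ _ hu]
    have := s3pos
    positivity
  · rw [e]; exact hneg
  · apply Complex.ext
    · simp; ring
    · simp; ring

/-- a vertex of a tile that lies in another tile is a vertex of it -/
lemma vert {V W : Set ℂ} (hV : IsTri V ∨ IsSq V) (hE : V ≠ W → EdgeToEdge V W) {v : ℂ}
    (hv : v ∈ V) (hw : v ∈ convexHull ℝ W) : v ∈ W := by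
  by_cases h : V = W
  · exact h ▸ hv
  have hvV : v ∈ convexHull ℝ V := subset_convexHull ℝ _ hv
  rcases hE h with h0 | ⟨q, hq, h0⟩ | ⟨p, hp, q, hq, hpq, h0⟩
  · have : v ∈ convexHull ℝ V ∩ convexHull ℝ W := ⟨hvV, hw⟩
    rw [h0] at this
    exact absurd this (notMem_empty _)
  · have : v ∈ convexHull ℝ V ∩ convexHull ℝ W := ⟨hvV, hw⟩
    rw [h0] at this
    rw [mem_singleton_iff] at this
    exact this ▸ hq.2
  · have hvs : v ∈ convexHull ℝ V ∩ convexHull ℝ W := ⟨hvV, hw⟩
    rw [h0] at hvs
    obtain ⟨c, ρ, hc⟩ : ∃ c : ℂ, ∃ ρ : ℝ, ∀ x ∈ V, dist x c = ρ := by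
      rcases hV with ⟨p, u, hu, rfl⟩ | ⟨p, u, hu, rfl⟩
      · refine ⟨p + ((1 + w) / 3) * u, ‖(1 + w) / 3‖, fun x hx => ?_⟩
        obtain ⟨y, rfl, hy⟩ := mem_tri' hx
        rw [Complex.dist_eq]
        have e : p + y * u - (p + (1 + w) / 3 * u) = (y - (1 + w) / 3) * u := by ring
        rw [e, norm_mul, hu, mul_one]
        have key : ∀ a b : ℂ, Complex.normSq a = Complex.normSq b → ‖a‖ = ‖b‖ := by
          intro a b hab
          rw [← Complex.sq_norm, ← Complex.sq_norm] at hab
          nlinarith [norm_nonneg a, norm_nonneg b]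
        have h3 := s3
        rcases hy with rfl | rfl | rfl
        · rw [zero_sub, norm_neg]
        · apply key
          rw [Complex.normSq_apply, Complex.normSq_apply]
          simp [w_re, w_im]
          nlinarith
        · apply key
          rw [Complex.normSq_apply, Complex.normSq_apply]
          simp [w_re, w_im]
          nlinarith
      · refine ⟨p + ((1 + Complex.I) / 2) * u, ‖(1 + Complex.I) / 2‖, fun x hx => ?_⟩
        obtain ⟨y, rfl, hy⟩ := mem_sq' hx
        rw [Complex.dist_eq]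
        have e : p + y * u - (p + (1 + Complex.I) / 2 * u) = (y - (1 + Complex.I) / 2) * u := by ring
        rw [e, norm_mul, hu, mul_one]
        have key : ∀ a b : ℂ, Complex.normSq a = Complex.normSq b → ‖a‖ = ‖b‖ := by
          intro a b hab
          rw [← Complex.sq_norm, ← Complex.sq_norm] at hab
          nlinarith [norm_nonneg a, norm_nonneg b]
        rcases hy with rfl | rfl | rfl | rfl
        · rw [zero_sub, norm_neg]
        · apply key
          rw [Complex.normSq_apply, Complex.normSq_apply]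
          simp
          ring
        · apply key
          rw [Complex.normSq_apply, Complex.normSq_apply]
          simp
          ring
        · apply key
          rw [Complex.normSq_apply, Complex.normSq_apply]
          simp
          ring
    have hpne : p ≠ q := by rintro rfl; simp at hpq
    rw [← insert_endpoints_openSegment] at hvs
    rcases hvs with h1 | h1 | h1
    · exact h1 ▸ hp.2
    · exact h1 ▸ hq.2
    · exfalso
      have h2 := openSegment_subset_ball_of_ne (z := c) (r := ρ)
        (Metric.mem_closedBall.2 (hc p hp.1).le) (Metric.mem_closedBall.2 (hc q hq.1).le) hpne h1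
      rw [Metric.mem_ball, hc v hv] at h2
      exact lt_irrefl _ h2

/-- the face of a convex hull -/
lemma face (V : Set ℂ) (f : ℂ →ₗ[ℝ] ℝ) (c : ℝ) (h : ∀ v ∈ V, c ≤ f v) {z : ℂ}
    (hz : z ∈ convexHull ℝ V) (hf : f z = c) : z ∈ convexHull ℝ {v ∈ V | f v = c} := by
  set C : Set ℂ := {z | c < f z} ∪ convexHull ℝ {v ∈ V | f v = c} with hC
  have hCc : Convex ℝ C := by
    have hsub : ∀ x ∈ convexHull ℝ {v ∈ V | f v = c}, f x = c := by
      intro x hx
      have h1 : Convex ℝ {x | f x = c} := by
        intro x hx y hy s t hs ht hst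
        simp only [mem_ofPred_eq] at *
        rw [map_add, map_smul, map_smul, hx, hy, ← add_smul, hst, one_smul]
      exact convexHull_min (fun v hv => hv.2) h1 hx
    intro x hx y hy s t hs ht hst
    rcases hx with hx | hx <;> rcases hy with hy | hy
    · left
      simp only [mem_ofPred_eq] at *
      rw [map_add, map_smul, map_smul, smul_eq_mul, smul_eq_mul]
      rcases eq_or_lt_of_le hs with h0 | h0
      · have : t = 1 := by linarith
        rw [← h0, this]; linarith
      · have h1 : 0 < s * (f x - c) := mul_pos h0 (by linarith)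
        have h2 : 0 ≤ t * (f y - c) := mul_nonneg ht (by linarith)
        have h3 : s * c + t * c = c := by rw [← add_mul, hst, one_mul]
        nlinarith
    · rcases eq_or_lt_of_le hs with h0 | h0
      · have : t = 1 := by linarith
        right
        rw [← h0, this, zero_smul, one_smul, zero_add]; exact hy
      · left
        simp only [mem_ofPred_eq] at *
        rw [map_add, map_smul, map_smul, smul_eq_mul, smul_eq_mul, hsub y hy]
        have h1 : 0 < s * (f x - c) := mul_pos h0 (by linarith)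
        have h3 : s * c + t * c = c := by rw [← add_mul, hst, one_mul]
        nlinarith
    · rcases eq_or_lt_of_le ht with h0 | h0
      · have : s = 1 := by linarith
        right
        rw [← h0, this, zero_smul, one_smul, add_zero]; exact hx
      · left
        simp only [mem_ofPred_eq] at *
        rw [map_add, map_smul, map_smul, smul_eq_mul, smul_eq_mul, hsub x hx]
        have h1 : 0 < t * (f y - c) := mul_pos h0 (by linarith)
        have h3 : s * c + t * c = c := by rw [← add_mul, hst, one_mul]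
        nlinarith
    · right
      exact (convex_convexHull ℝ _) hx hy hs ht hst
  have hVC : V ⊆ C := by
    intro v hv
    rcases eq_or_lt_of_le (h v hv) with h0 | h0
    · right; exact subset_convexHull ℝ _ ⟨hv, h0.symm⟩
    · left; exact h0
  rcases convexHull_min hVC hCc hz with h1 | h1
  · simp only [mem_ofPred_eq] at h1
    linarith
  · exact h1

end Pool.Agent.Q281.TS
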