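import Pool.Agent.Q281.TS.Count

/-!
A large block of the snub square tiling is a patch.
-/

namespace Pool.Agent.Q281.TS

open Set MeasureTheory

/-! ### Tiles have interior points -/

lemma tile_interior {V : Set ℂ} (hV : IsTri V ∨ IsSq V) : (interior (convexHull ℝ V)).Nonempty := by
  have hs := s3pos
  rcases hV with ⟨p, u, hu, rfl⟩ | ⟨p, u, hu, rfl⟩
  · have h1 : p ∈ convexHull ℝ (tri p u) := subset_convexHull ℝ _ (by simp [tri])
    have h2 : p + u ∈ convexHull ℝ (tri p u) := subset_convexHull ℝ _ (by simp [tri])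
    have h3 : p + w * u ∈ convexHull ℝ (tri p u) := subset_convexHull ℝ _ (by simp [tri])
    have hc := convex_convexHull ℝ (tri p u)
    have m1 := hc h2 h3 (a := 1 / 2) (b := 1 / 2) (by norm_num) (by norm_num) (by norm_num)
    have hn := normSq_u hu
    refine ⟨_, mid_interior hc h1 m1 h3 h2 ?_ ?_ rfl⟩
    · have : ell p ((1 / 2 : ℝ) • (p + u) + (1 / 2 : ℝ) • (p + w * u) - p) (p + w * u) =
          Real.sqrt 3 / 4 := by
        simp [ell, w_re, w_im]
        linear_combination (Real.sqrt 3 / 4) * hn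
      rw [this]; positivity
    · have : ell p ((1 / 2 : ℝ) • (p + u) + (1 / 2 : ℝ) • (p + w * u) - p) (p + u) =
          -(Real.sqrt 3 / 4) := by
        simp [ell, w_re, w_im]
        linear_combination (-(Real.sqrt 3 / 4)) * hn
      rw [this]; simp [hs]
  · have h1 : p ∈ convexHull ℝ (sq p u) := subset_convexHull ℝ _ (by simp [sq])
    have h2 : p + u ∈ convexHull ℝ (sq p u) := subset_convexHull ℝ _ (by simp [sq])
    have h3 : p + u + Complex.I * u ∈ convexHull ℝ (sq p u) := subset_convexHull ℝ _ (by simp [sq])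
    have h4 : p + Complex.I * u ∈ convexHull ℝ (sq p u) := subset_convexHull ℝ _ (by simp [sq])
    have hc := convex_convexHull ℝ (sq p u)
    have hn := normSq_u hu
    refine ⟨_, mid_interior hc h1 h3 h4 h2 ?_ ?_ rfl⟩
    · have : ell p (p + u + Complex.I * u - p) (p + Complex.I * u) = 1 := by
        simp [ell]
        linear_combination hn
      rw [this]; norm_num
    · have : ell p (p + u + Complex.I * u - p) (p + u) = -1 := by
        simp [ell]
        linear_combination -hn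
      rw [this]; norm_num

/-- a tile whose interior meets the interior of the region of a finite subfamily belongs to the
subfamily -/
lemma mem_of_open {G A : Set (Set ℂ)} (hG : IsFamily G) (hA : A ⊆ G) (hfin : A.Finite) {W : Set ℂ}
    (hW : W ∈ G) {U : Set ℂ} (hU : IsOpen U) (hne : U.Nonempty) (h1 : U ⊆ convexHull ℝ W)
    (h2 : U ⊆ region A) : W ∈ A := by
  by_contra hcon
  have h3 : U ⊆ ⋃ V ∈ A, (convexHull ℝ W ∩ convexHull ℝ V) := by
    intro z hz
    have h4 := h2 hz
    simp only [region, mem_iUnion] at h4 ⊢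
    obtain ⟨V, hV, h4⟩ := h4
    exact ⟨V, hV, h1 hz, h4⟩
  have h4 : volume (⋃ V ∈ A, (convexHull ℝ W ∩ convexHull ℝ V)) = 0 := by
    rw [measure_biUnion_null_iff hfin.countable]
    intro V hV
    exact hG.area W hW V (hA hV) (by rintro rfl; exact hcon hV)
  have h5 : volume U = 0 := measure_mono_null h3 h4
  exact (hU.measure_pos volume hne).ne' h5

/-- a tile with a vertex in the interior of the region of a finite subfamily belongs to it -/
lemma mem_of_vertex {G A : Set (Set ℂ)} (hG : IsFamily G) (hA : A ⊆ G) (hfin : A.Finite) {W : Set ℂ}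
    (hW : W ∈ G) {v : ℂ} (hv : v ∈ convexHull ℝ W) (hvA : v ∈ interior (region A)) : W ∈ A := by
  have hc := convex_convexHull ℝ W
  have hint := tile_interior (hG.tile W hW)
  have h1 : v ∈ closure (interior (convexHull ℝ W)) := by
    rw [hc.closure_interior_eq_closure_of_nonempty_interior hint]
    exact subset_closure hv
  obtain ⟨z, hz1, hz2⟩ := mem_closure_iff.1 h1 _ isOpen_interior hvA
  exact mem_of_open hG hA hfin hW (isOpen_interior.inter isOpen_interior) ⟨z, hz1, hz2⟩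
    (inter_subset_right.trans interior_subset) (inter_subset_left.trans interior_subset)

lemma IsFamily.mono {P Q : Set (Set ℂ)} (hQ : IsFamily Q) (h : P ⊆ Q) : IsFamily P where
  tile := fun V hV => hQ.tile V (h hV)
  area := fun V hV W hW => hQ.area V (h hV) W (h hW)
  edge := fun V hV W hW => hQ.edge V (h hV) W (h hW)

/-- finite subfamilies of a tiling whose union is a disk are patches -/
lemma patch_of_sub {F A : Set (Set ℂ)} (hF : IsTiling F) (hA : A ⊆ F) (hfin : A.Finite)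
    (hd : Nonempty (region A ≃ₜ Metric.closedBall (0 : ℂ) 1)) : IsPatch A where
  toIsFamily := hF.toIsFamily.mono hA
  finite := hfin
  disk := hd
  inner := by
    intro V hV v hv hvi
    have h := hF.species V (hA hV) v hv
    have e : ∀ Q : Set ℂ → Prop, {W ∈ A | Q W ∧ v ∈ W} = {W ∈ F | Q W ∧ v ∈ W} := by
      intro Q
      ext W
      constructor
      · rintro ⟨h1, h2⟩; exact ⟨hA h1, h2⟩
      · rintro ⟨h1, h2⟩
        exact ⟨mem_of_vertex hF.toIsFamily hA hfin h1 (subset_convexHull ℝ _ h2.2) hvi, h2⟩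
    unfold trisAt sqsAt at *
    rw [e, e]
    exact h
  outer := by
    intro V hV v hv
    have h := hF.species V (hA hV) v hv
    unfold trisAt sqsAt at *
    constructor
    · rw [← h.1]
      exact ncard_le_ncard (fun W hW => ⟨hA hW.1, hW.2⟩) (finite_of_ncard_ne_zero (by rw [h.1]; norm_num))
    · rw [← h.2]
      exact ncard_le_ncard (fun W hW => ⟨hA hW.1, hW.2⟩) (finite_of_ncard_ne_zero (by rw [h.2]; norm_num))

/-! ### The block -/

/-- eight times eight cells of the snub square tiling -/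
def block : Set (Set ℂ) :=
  {V | ∃ t : ℕ, t < 6 ∧ ∃ i j : ℤ, (-4 ≤ i ∧ i < 4) ∧ (-4 ≤ j ∧ j < 4) ∧ V = tile t i j}

lemma block_sub : block ⊆ snub := by
  rintro V ⟨t, ht, i, j, -, -, rfl⟩
  exact ⟨t, ht, i, j, rfl⟩

lemma block_finite : block.Finite := by
  have h : block ⊆ (fun x : ℕ × ℤ × ℤ => tile x.1 x.2.1 x.2.2) ''
      ((Set.Iio 6) ×ˢ ((Set.Ico (-4) 4) ×ˢ (Set.Ico (-4) 4))) := by
    rintro V ⟨t, ht, i, j, hi, hj, rfl⟩
    exact ⟨(t, i, j), ⟨ht, hi, hj⟩, rfl⟩
  refine Set.Finite.subset (Set.Finite.image _ ?_) h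
  exact (Set.finite_Iio 6).prod ((Set.finite_Ico _ _).prod (Set.finite_Ico _ _))

/-- the coordinates -/
noncomputable def G (z : ℂ) : ℂ := ⟨g1 z.re z.im, g2 z.re z.im⟩

/-- the square -/
def box : Set ℂ := {z | |z.re| ≤ 4 ∧ |z.im| ≤ 4}

lemma floor_cell {u : ℝ} (h : |u| ≤ 4) : ∃ i : ℤ, -4 ≤ i ∧ i < 4 ∧ (i : ℝ) ≤ u ∧ u ≤ i + 1 := by
  rw [abs_le] at h
  rcases eq_or_lt_of_le h.2 with h1 | h1
  · exact ⟨3, by norm_num, by norm_num, by rw [h1]; norm_num, by rw [h1]; norm_num⟩
  · refine ⟨⌊u⌋, ?_, ?_, Int.floor_le _, (Int.lt_floor_add_one _).le⟩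
    · exact Int.le_floor.2 (by push_cast; linarith)
    · exact Int.floor_lt.2 (by push_cast; linarith)

lemma region_block (z : ℂ) : z ∈ region block ↔ G (z / sc) ∈ box := by
  have hz : (z / sc).re = z.re / sc ∧ (z / sc).im = z.im / sc := by
    constructor
    · rw [Complex.div_ofReal_re]
    · rw [Complex.div_ofReal_im]
  rw [← pt_coords z]
  have hz' : (pt (z.re / sc) (z.im / sc) / sc) = z / sc := by rw [pt_coords]
  rw [hz']
  set x := z.re / sc with hx
  set y := z.im / sc with hy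
  simp only [box, G, mem_ofPred_eq, hz.1, hz.2]
  constructor
  · intro h
    simp only [region, mem_iUnion] at h
    obtain ⟨V, ⟨t, ht, i, j, hi, hj, rfl⟩, h⟩ := h
    obtain ⟨⟨h1, h2⟩, h3, h4⟩ := cell_mem ht h
    have i1 : (-4 : ℝ) ≤ i := by exact_mod_cast hi.1
    have i2 : (i : ℝ) + 1 ≤ 4 := by
      have : i + 1 ≤ 4 := by omega
      exact_mod_cast this
    have j1 : (-4 : ℝ) ≤ j := by exact_mod_cast hj.1
    have j2 : (j : ℝ) + 1 ≤ 4 := by
      have : j + 1 ≤ 4 := by omega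
      exact_mod_cast this
    constructor
    · rw [abs_le]; constructor <;> linarith
    · rw [abs_le]; constructor <;> linarith
  · rintro ⟨h1, h2⟩
    obtain ⟨i, i1, i2, i3, i4⟩ := floor_cell h1
    obtain ⟨j, j1, j2, j3, j4⟩ := floor_cell h2
    obtain ⟨t, ht, h⟩ := cell_cover i3 i4 j3 j4
    exact mem_region (V := tile t i j) (show _ ∈ block from ⟨t, ht, i, j, ⟨i1, i2⟩, ⟨j1, j2⟩, rfl⟩) h

lemma G_approx : ApproximatesLinearOn G ((ContinuousLinearEquiv.refl ℝ ℂ : ℂ ≃L[ℝ] ℂ) : ℂ →L[ℝ] ℂ)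
    univ (Real.toNNReal tau) := by
  intro x _ y _
  have htp := tau_pos
  rw [Real.coe_toNNReal _ htp.le]
  have e : G x - G y - ((ContinuousLinearEquiv.refl ℝ ℂ : ℂ ≃L[ℝ] ℂ) : ℂ →L[ℝ] ℂ) (x - y) =
      ⟨tau * (nd x.im - nd y.im), -(tau * (nd x.re - nd y.re))⟩ := by
    apply Complex.ext
    · simp [G, g1]; ring
    · simp [G, g2]; ring
  rw [e]
  refine abs_le_of_sq_le_sq' ?_ (by positivity) |>.2
  rw [mul_pow, Complex.sq_norm, Complex.sq_norm, Complex.normSq_apply, Complex.normSq_apply]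
  simp only [Complex.sub_re, Complex.sub_im]
  have h1 := nd_lip' x.im y.im
  have h2 := nd_lip' x.re y.re
  have h3 : (nd x.im - nd y.im) * (nd x.im - nd y.im) ≤ (x.im - y.im) * (x.im - y.im) := by
    rw [← abs_mul_abs_self (nd x.im - nd y.im), ← abs_mul_abs_self (x.im - y.im)]
    exact mul_self_le_mul_self (abs_nonneg _) h1
  have h4 : (nd x.re - nd y.re) * (nd x.re - nd y.re) ≤ (x.re - y.re) * (x.re - y.re) := by
    rw [← abs_mul_abs_self (nd x.re - nd y.re), ← abs_mul_abs_self (x.re - y.re)]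
    exact mul_self_le_mul_self (abs_nonneg _) h2
  have h5 : 0 ≤ tau * tau := by positivity
  nlinarith [mul_le_mul_of_nonneg_left h3 h5, mul_le_mul_of_nonneg_left h4 h5]

lemma G_homeo : ∃ H : ℂ ≃ₜ ℂ, ∀ z, H z = G z := by
  have hc : Subsingleton ℂ ∨ Real.toNNReal tau <
      ‖((ContinuousLinearEquiv.refl ℝ ℂ : ℂ ≃L[ℝ] ℂ).symm : ℂ →L[ℝ] ℂ)‖₊⁻¹ := by
    right
    have h1 : ‖((ContinuousLinearEquiv.refl ℝ ℂ : ℂ ≃L[ℝ] ℂ).symm : ℂ →L[ℝ] ℂ)‖₊ = 1 := by
      have : ((ContinuousLinearEquiv.refl ℝ ℂ : ℂ ≃L[ℝ] ℂ).symm : ℂ →L[ℝ] ℂ) =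
          ContinuousLinearMap.id ℝ ℂ := rfl
      rw [this]
      exact ContinuousLinearMap.nnnorm_id
    rw [h1, inv_one, ← Real.toNNReal_one, Real.toNNReal_lt_toNNReal_iff one_pos]
    linarith [tau_lt]
  exact ⟨G_approx.toHomeomorph G hc, fun z => rfl⟩

end Pool.Agent.Q281.TS
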