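import Pool.Agent.Q281.TS.Move

/-!
A verified test for two tiles with vertices in the module generated by the twelfth roots of unity
to meet edge-to-edge.
-/

namespace Pool.Agent.Q281.TS

open Set MeasureTheory

/-- `2 - √3` -/
noncomputable def tau : ℝ := 2 - Real.sqrt 3

lemma tau_sq : tau * tau = 4 * tau - 1 := by unfold tau; nlinarith [s3]
lemma tau_pos : 0 < tau := by unfold tau; linarith [s3lt]
lemma tau_lt : tau < 0.268 := by unfold tau; linarith [s3gt]
lemma tau_gt : 0.2679 < tau := by unfold tau; linarith [s3lt]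

/-- the scale -/
noncomputable def sc : ℝ := Real.sqrt (2 + Real.sqrt 3)

lemma sc_pos : 0 < sc := Real.sqrt_pos.2 (by linarith [s3pos])
lemma sc_sq : sc * sc = 4 - tau := by
  unfold sc tau
  rw [Real.mul_self_sqrt (by linarith [s3pos])]; ring
lemma tau_sc : tau * (sc * sc) = 1 := by rw [sc_sq]; linarith [tau_sq]

/-- the point with given coordinates -/
noncomputable def pt (x y : ℝ) : ℂ := ⟨sc * x, sc * y⟩

abbrev V4 := ℤ × ℤ × ℤ × ℤ

/-- evaluation of a point -/
noncomputable def ev (q : V4) : ℂ :=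
  pt ((q.1 + q.2.1 * tau) / 2) ((q.2.2.1 + q.2.2.2 * tau) / 2)

/-- evaluation of a number -/
noncomputable def rv (p : ℤ × ℤ) : ℝ := p.1 + p.2 * tau

/-- positivity test -/
def pp (p : ℤ × ℤ) : Bool :=
  if p.2 ≤ 0 then
    decide (0 < p.1 + 2 * p.2) ||
      decide ((p.1 + 2 * p.2) * (p.1 + 2 * p.2) < 3 * (p.2 * p.2))
  else
    decide (0 < p.1 + 2 * p.2) &&
      decide (3 * (p.2 * p.2) < (p.1 + 2 * p.2) * (p.1 + 2 * p.2))

lemma pp_sound {p : ℤ × ℤ} (h : pp p = true) : 0 < rv p := by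
  obtain ⟨m, n⟩ := p
  have hs := s3
  have hp := s3pos
  have e : rv (m, n) = ((m + 2 * n : ℤ) : ℝ) - n * Real.sqrt 3 := by
    unfold rv tau; push_cast; ring
  rw [e]
  simp only [pp] at h
  set a : ℤ := m + 2 * n
  split_ifs at h with hn
  · have hn' : (n : ℝ) ≤ 0 := by exact_mod_cast hn
    rw [Bool.or_eq_true, decide_eq_true_eq, decide_eq_true_eq] at h
    rcases h with h | h
    · have h' : (0 : ℝ) < a := by exact_mod_cast h
      nlinarith
    · have h' : (a : ℝ) * a < 3 * (n * n) := by exact_mod_cast h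
      by_contra hcon
      push Not at hcon
      have h1 : -(n * Real.sqrt 3) ≤ -(a : ℝ) := by linarith
      have h2 : 0 ≤ -(n * Real.sqrt 3) := by nlinarith
      have h3 := mul_self_le_mul_self h2 h1
      nlinarith
  · have hn' : (0 : ℝ) < n := by
      have : 0 < n := by omega
      exact_mod_cast this
    rw [Bool.and_eq_true, decide_eq_true_eq, decide_eq_true_eq] at h
    obtain ⟨h1, h2⟩ := h
    have h1' : (0 : ℝ) < a := by exact_mod_cast h1
    have h2' : 3 * ((n : ℝ) * n) < a * a := by exact_mod_cast h2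
    by_contra hcon
    push Not at hcon
    have h4 : (a : ℝ) ≤ n * Real.sqrt 3 := by linarith
    have h3 := mul_self_le_mul_self h1'.le h4
    nlinarith

/-- comparison -/
def lt' (p q : ℤ × ℤ) : Bool := pp (q.1 - p.1, q.2 - p.2)

lemma lt'_sound {p q : ℤ × ℤ} (h : lt' p q = true) : rv p < rv q := by
  have := pp_sound h
  unfold rv at *
  push_cast at this
  linarith

/-- the values of the six functionals -/
def val : ℕ → V4 → ℤ × ℤ
  | 0, (a, b, c, d) => (c + b, d - a - 4 * b)
  | 1, (a, b, c, d) => (c - b, d + a + 4 * b)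
  | 2, (a, b, c, d) => (a + d, b - c - 4 * d)
  | 3, (a, b, c, d) => (a - d, b + c + 4 * d)
  | 4, (a, b, c, d) => (c - a, d - b)
  | _, (a, b, c, d) => (c + a, d + b)

/-- the coefficients of the six functionals -/
noncomputable def coef : ℕ → ℝ × ℝ
  | 0 => (-tau, 1)
  | 1 => (tau, 1)
  | 2 => (1, -tau)
  | 3 => (1, tau)
  | 4 => (-1, 1)
  | _ => (1, 1)

/-- the six functionals -/
noncomputable def fk (k : ℕ) : ℂ →ₗ[ℝ] ℝ :=
  (2 / sc * (coef k).1) • Complex.reLm + (2 / sc * (coef k).2) • Complex.imLm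

lemma fk_pt (k : ℕ) (x y : ℝ) : fk k (pt x y) = 2 * ((coef k).1 * x + (coef k).2 * y) := by
  have h := sc_pos.ne'
  simp only [fk, pt, LinearMap.add_apply, LinearMap.smul_apply, Complex.reLm_coe, Complex.imLm_coe,
    smul_eq_mul]
  field_simp

lemma fk_ev (k : ℕ) (q : V4) : fk k (ev q) = rv (val k q) := by
  obtain ⟨a, b, c, d⟩ := q
  have ht := tau_sq
  unfold ev
  rw [fk_pt]
  match k with
  | 0 => simp only [coef, val, rv]; push_cast; linear_combination (-(b : ℝ)) * ht
  | 1 => simp only [coef, val, rv]; push_cast; linear_combination (b : ℝ) * ht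
  | 2 => simp only [coef, val, rv]; push_cast; linear_combination (-(d : ℝ)) * ht
  | 3 => simp only [coef, val, rv]; push_cast; linear_combination (d : ℝ) * ht
  | 4 => simp only [coef, val, rv]; push_cast; ring
  | (n + 5) => simp only [coef, val, rv]; push_cast; ring

/-- product in `ℤ[tau]` -/
def mul' (p q : ℤ × ℤ) : ℤ × ℤ := (p.1 * q.1 - p.2 * q.2, p.1 * q.2 + p.2 * q.1 + 4 * (p.2 * q.2))

lemma mul'_rv (p q : ℤ × ℤ) : rv (mul' p q) = rv p * rv q := by
  unfold rv mul'
  push_cast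
  linear_combination (-((p.2 : ℝ) * q.2)) * tau_sq

/-- test for unit distance -/
def unit' (p q : V4) : Bool :=
  decide (((mul' (p.1 - q.1, p.2.1 - q.2.1) (p.1 - q.1, p.2.1 - q.2.1)).1 +
    (mul' (p.2.2.1 - q.2.2.1, p.2.2.2 - q.2.2.2) (p.2.2.1 - q.2.2.1, p.2.2.2 - q.2.2.2)).1 = 0)) &&
  decide (((mul' (p.1 - q.1, p.2.1 - q.2.1) (p.1 - q.1, p.2.1 - q.2.1)).2 +
    (mul' (p.2.2.1 - q.2.2.1, p.2.2.2 - q.2.2.2) (p.2.2.1 - q.2.2.1, p.2.2.2 - q.2.2.2)).2 = 4))

lemma unit'_sound {p q : V4} (h : unit' p q = true) : ‖ev p - ev q‖ = 1 := by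
  unfold unit' at h
  rw [Bool.and_eq_true, decide_eq_true_eq, decide_eq_true_eq] at h
  obtain ⟨h1, h2⟩ := h
  set A := mul' (p.1 - q.1, p.2.1 - q.2.1) (p.1 - q.1, p.2.1 - q.2.1) with hA
  set C := mul' (p.2.2.1 - q.2.2.1, p.2.2.2 - q.2.2.2) (p.2.2.1 - q.2.2.1, p.2.2.2 - q.2.2.2) with hC
  have h3 : rv A + rv C = 4 * tau := by
    unfold rv
    have h1' : (A.1 : ℝ) + C.1 = 0 := by exact_mod_cast h1
    have h2' : (A.2 : ℝ) + C.2 = 4 := by exact_mod_cast h2
    linear_combination h1' + tau * h2'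
  rw [hA, hC, mul'_rv, mul'_rv] at h3
  have h4 : ‖ev p - ev q‖ ^ 2 = 1 := by
    rw [Complex.sq_norm, Complex.normSq_apply]
    simp only [ev, pt, Complex.sub_re, Complex.sub_im]
    unfold rv at h3
    push_cast at h3
    linear_combination (sc * sc / 4) * h3 + tau_sc
  nlinarith [norm_nonneg (ev p - ev q)]

/-- test for the contact set -/
def contact : List V4 → List V4 → Bool
  | [], _ => true
  | _, [] => true
  | [_], [_] => true
  | [p, q], [r, s] => ((decide (p = r) && decide (q = s)) || (decide (p = s) && decide (q = r))) &&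
      unit' p q
  | _, _ => false

/-- separation test -/
def sepOK (V W : List V4) (k : ℕ) (c : ℤ × ℤ) : Bool :=
  (V.all fun q => decide (val k q = c) || lt' (val k q) c) &&
  (W.all fun q => decide (val k q = c) || lt' c (val k q)) &&
  contact (V.filter fun q => decide (val k q = c)) (W.filter fun q => decide (val k q = c))

/-- the set of points -/
def evs (V : List V4) : Set ℂ := {z | ∃ q ∈ V, z = ev q}

lemma evs_nil : evs [] = ∅ := by ext z; simp [evs]
lemma evs_one (p : V4) : evs [p] = {ev p} := by ext z; simp [evs]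
lemma evs_two (p q : V4) : evs [p, q] = {ev p, ev q} := by ext z; simp [evs]

lemma EdgeToEdge.symm {V W : Set ℂ} (h : EdgeToEdge V W) : EdgeToEdge W V := by
  unfold EdgeToEdge at *
  rwa [inter_comm W V, inter_comm (convexHull ℝ W) (convexHull ℝ V)]

lemma contact_sound {V W V' W' : List V4} (hV : V' ⊆ V) (hW : W' ⊆ W)
    (h : contact V' W' = true)
    (hsub : ∀ z, z ∈ convexHull ℝ (evs V) → z ∈ convexHull ℝ (evs W) →
      z ∈ convexHull ℝ (evs V') ∧ z ∈ convexHull ℝ (evs W')) :
    EdgeToEdge (evs V) (evs W) := by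
  match V', W', h with
  | [], _, _ =>
    left
    rw [eq_empty_iff_forall_notMem]
    rintro z ⟨h1, h2⟩
    have := (hsub z h1 h2).1
    rw [evs_nil, convexHull_empty] at this
    exact this
  | _ :: _, [], _ =>
    left
    rw [eq_empty_iff_forall_notMem]
    rintro z ⟨h1, h2⟩
    have := (hsub z h1 h2).2
    rw [evs_nil, convexHull_empty] at this
    exact this
  | [p], [q], _ =>
    rw [evs_one, evs_one, convexHull_singleton, convexHull_singleton] at hsub
    by_cases hpq : ev p = ev q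
    · right; left
      have m1 : ev p ∈ evs V := ⟨p, hV (by simp), rfl⟩
      have m2 : ev p ∈ evs W := ⟨q, hW (by simp), hpq⟩
      refine ⟨ev p, ⟨m1, m2⟩, ?_⟩
      ext z
      constructor
      · rintro ⟨h1, h2⟩; exact (hsub z h1 h2).1
      · intro h3
        rw [mem_singleton_iff] at h3
        rw [h3]
        exact ⟨subset_convexHull ℝ _ m1, subset_convexHull ℝ _ m2⟩
    · left
      rw [eq_empty_iff_forall_notMem]
      rintro z ⟨h1, h2⟩
      obtain ⟨h3, h4⟩ := hsub z h1 h2
      rw [mem_singleton_iff] at h3 h4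
      exact hpq (h3.symm.trans h4)
  | [p, q], [r, s], h =>
    simp only [contact, Bool.and_eq_true, Bool.or_eq_true, decide_eq_true_eq] at h
    obtain ⟨h1, h2⟩ := h
    have hd := unit'_sound h2
    have mp : ev p ∈ evs V := ⟨p, hV (by simp), rfl⟩
    have mq : ev q ∈ evs V := ⟨q, hV (by simp), rfl⟩
    have mpq' : ev p ∈ evs W ∧ ev q ∈ evs W := by
      rcases h1 with ⟨rfl, rfl⟩ | ⟨rfl, rfl⟩
      · exact ⟨⟨p, hW (by simp), rfl⟩, ⟨q, hW (by simp), rfl⟩⟩
      · exact ⟨⟨p, hW (by simp), rfl⟩, ⟨q, hW (by simp), rfl⟩⟩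
    right; right
    refine ⟨ev p, ⟨mp, mpq'.1⟩, ev q, ⟨mq, mpq'.2⟩, hd, ?_⟩
    ext z
    constructor
    · rintro ⟨h3, h4⟩
      have h5 := (hsub z h3 h4).1
      rw [evs_two, convexHull_pair] at h5
      exact h5
    · intro h3
      exact ⟨(convex_convexHull ℝ _).segment_subset (subset_convexHull ℝ _ mp)
        (subset_convexHull ℝ _ mq) h3, (convex_convexHull ℝ _).segment_subset
        (subset_convexHull ℝ _ mpq'.1) (subset_convexHull ℝ _ mpq'.2) h3⟩

lemma sep_sound {V W : List V4} {k : ℕ} {c : ℤ × ℤ} (h : sepOK V W k c = true) :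
    EdgeToEdge (evs V) (evs W) := by
  unfold sepOK at h
  rw [Bool.and_eq_true, Bool.and_eq_true, List.all_eq_true, List.all_eq_true] at h
  obtain ⟨⟨h1, h2⟩, h3⟩ := h
  have hV : ∀ q ∈ V, fk k (ev q) = rv c ∧ val k q = c ∨ fk k (ev q) < rv c := by
    intro q hq
    have := h1 q hq
    rw [Bool.or_eq_true, decide_eq_true_eq] at this
    rcases this with h | h
    · left; exact ⟨by rw [fk_ev, h], h⟩
    · right; rw [fk_ev]; exact lt'_sound h
  have hW : ∀ q ∈ W, fk k (ev q) = rv c ∧ val k q = c ∨ rv c < fk k (ev q) := by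
    intro q hq
    have := h2 q hq
    rw [Bool.or_eq_true, decide_eq_true_eq] at this
    rcases this with h | h
    · left; exact ⟨by rw [fk_ev, h], h⟩
    · right; rw [fk_ev]; exact lt'_sound h
  refine contact_sound (V' := V.filter fun q => decide (val k q = c))
    (W' := W.filter fun q => decide (val k q = c)) (List.filter_subset' V)
    (List.filter_subset' W) h3 ?_
  intro z hz1 hz2
  have hle : fk k z ≤ rv c := by
    have hsub : convexHull ℝ (evs V) ⊆ {z | fk k z ≤ rv c} := by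
      refine convexHull_min ?_ (convex_halfSpace_le (fk k).isLinear _)
      rintro _ ⟨q, hq, rfl⟩
      rcases hV q hq with h | h
      · exact h.1.le
      · exact h.le
    exact hsub hz1
  have hge : rv c ≤ fk k z := by
    have hsub : convexHull ℝ (evs W) ⊆ {z | rv c ≤ fk k z} := by
      refine convexHull_min ?_ (convex_halfSpace_ge (fk k).isLinear _)
      rintro _ ⟨q, hq, rfl⟩
      rcases hW q hq with h | h
      · exact h.1.ge
      · exact h.le
    exact hsub hz2
  have heq : fk k z = rv c := le_antisymm hle hge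
  constructor
  · have h4 := face (evs V) (-(fk k)) (-(rv c)) (by
      rintro _ ⟨q, hq, rfl⟩
      rw [LinearMap.neg_apply]
      rcases hV q hq with h | h
      · rw [h.1]
      · linarith) hz1 (by rw [LinearMap.neg_apply, heq])
    refine convexHull_mono ?_ h4
    rintro _ ⟨⟨q, hq, rfl⟩, hq2⟩
    rw [LinearMap.neg_apply, neg_inj] at hq2
    refine ⟨q, ?_, rfl⟩
    rw [List.mem_filter, decide_eq_true_eq]
    refine ⟨hq, ?_⟩
    rcases hV q hq with h | h
    · exact h.2
    · exact absurd hq2 h.ne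
  · have h4 := face (evs W) (fk k) (rv c) (by
      rintro _ ⟨q, hq, rfl⟩
      rcases hW q hq with h | h
      · rw [h.1]
      · exact h.le) hz2 heq
    refine convexHull_mono ?_ h4
    rintro _ ⟨⟨q, hq, rfl⟩, hq2⟩
    refine ⟨q, ?_, rfl⟩
    rw [List.mem_filter, decide_eq_true_eq]
    refine ⟨hq, ?_⟩
    rcases hW q hq with h | h
    · exact h.2
    · exact absurd hq2 h.ne'

/-- the full test -/
def chk (V W : List V4) : Bool :=
  [0, 1, 2, 3, 4, 5].any fun k =>
    (V.any fun q => sepOK V W k (val k q)) || (W.any fun q => sepOK W V k (val k q))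

lemma chk_sound {V W : List V4} (h : chk V W = true) : EdgeToEdge (evs V) (evs W) := by
  unfold chk at h
  rw [List.any_eq_true] at h
  obtain ⟨k, -, h⟩ := h
  rw [Bool.or_eq_true, List.any_eq_true, List.any_eq_true] at h
  rcases h with ⟨q, -, h⟩ | ⟨q, -, h⟩
  · exact sep_sound h
  · exact (sep_sound h).symm

/-- the four classes of vertices -/
def vtx : ℕ → ℤ → ℤ → V4
  | 0, i, j => (2 * i, 0, 2 * j, 0)
  | 1, i, j => (1 + 2 * i, 0, 2 * j, 1)
  | 2, i, j => (2 * i, -1, 1 + 2 * j, 0)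
  | _, i, j => (1 + 2 * i, -1, 1 + 2 * j, 1)

/-- the six tiles of a cell -/
def tileL : ℕ → ℤ → ℤ → List V4
  | 0, i, j => [vtx 0 i j, vtx 1 i j, vtx 3 i j, vtx 2 i j]
  | 1, i, j => [vtx 3 i j, vtx 2 (i + 1) j, vtx 0 (i + 1) (j + 1), vtx 1 i (j + 1)]
  | 2, i, j => [vtx 0 (i + 1) j, vtx 2 (i + 1) j, vtx 1 i j]
  | 3, i, j => [vtx 1 i j, vtx 2 (i + 1) j, vtx 3 i j]
  | 4, i, j => [vtx 0 i (j + 1), vtx 2 i j, vtx 3 i j]
  | _, i, j => [vtx 0 i (j + 1), vtx 3 i j, vtx 1 i (j + 1)]

def allPairs : Bool :=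
  [0, 1, 2, 3, 4, 5].all fun t => [0, 1, 2, 3, 4, 5].all fun t' =>
    [-1, 0, 1].all fun i => [-1, 0, 1].all fun j =>
      (decide (t = t') && decide (i = 0) && decide (j = 0)) || chk (tileL t 0 0) (tileL t' i j)

set_option maxRecDepth 100000 in
lemma allPairs_true : allPairs = true := by decide +kernel

end Pool.Agent.Q281.TS
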