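import Pool.Agent.Q281.TS.Side

namespace Pool.Agent.Q281.TS

open Set MeasureTheory

variable {B : Set (Set ℂ)}

lemma dist_le_six {z : ℂ} {r : ℝ} (h1 : |z.re| ≤ 2) (h2 : r - 4.9 ≤ z.im) (h3 : z.im ≤ r) :
    dist z (r * Complex.I) ≤ 6 := by
  rw [Complex.dist_eq]
  refine abs_le_of_sq_le_sq' ?_ (by norm_num) |>.2
  rw [Complex.sq_norm, Complex.normSq_apply]
  simp only [Complex.sub_re, Complex.sub_im, Complex.mul_re, Complex.mul_im, Complex.ofReal_re,
    Complex.ofReal_im, Complex.I_re, Complex.I_im, mul_zero, mul_one, zero_mul, sub_zero,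
    zero_add, add_zero]
  have h4 := abs_le.1 h1
  nlinarith

/-- In the normal position: close to the centre there are two adjacent squares. -/
theorem core (hB : Cx B) (hup : ∀ z ∈ region B, 0 ≤ z.im) {r : ℝ} (hr : 6 ≤ r)
    (hball : Metric.closedBall (r * Complex.I) r ⊆ region B) :
    ∃ v : ℂ, sq v 1 ∈ B ∧ sq (v + 1) 1 ∈ B ∧ (∀ z ∈ sq v 1, dist z (r * Complex.I) ≤ 6) ∧
      ∀ z ∈ sq (v + 1) 1, dist z (r * Complex.I) ≤ 6 := by
  have hs := s3
  have hlt := s3lt
  have hgt := s3gt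
  obtain ⟨a, n, ha0, ha1, ha2, tiles⟩ := side hB hup (by linarith) hball
  have hp : (r : ℂ) * Complex.I ∈ region B := hball (Metric.mem_closedBall_self (by linarith))
  have hpim : ((r : ℂ) * Complex.I).im = r := by simp
  have hn : 2 * (2 - Real.sqrt 3) * r ≤ n := by linarith
  have hn3 : 3 ≤ n := by
    have : (3 : ℝ) < n := by nlinarith
    exact_mod_cast this.le
  obtain ⟨δ, hδ, hrow⟩ := bottom' hB hup ha0 hn3 tiles hp (by rw [hpim]; linarith)
  have hδ' : (δ : ℝ) ≤ 1 := by exact_mod_cast hδ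
  have hδ0 : (0 : ℝ) ≤ δ := Nat.cast_nonneg δ
  set c : ℝ := 1 + Real.sqrt 3 / 2 with hc
  set m : ℕ := ⌊(r - 3 - δ * (Real.sqrt 3 / 2)) / c⌋₊ with hm
  have hcpos : 0 < c := by positivity
  have hq : 0 ≤ (r - 3 - δ * (Real.sqrt 3 / 2)) / c := by
    refine div_nonneg ?_ hcpos.le
    nlinarith
  have hm1 : (m : ℝ) * c ≤ r - 3 - δ * (Real.sqrt 3 / 2) := by
    have := Nat.floor_le hq
    rwa [← hm, le_div_iff₀ hcpos] at this
  have hm2 : r - 3 - δ * (Real.sqrt 3 / 2) < (m + 1) * c := by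
    have := Nat.lt_floor_add_one ((r - 3 - δ * (Real.sqrt 3 / 2)) / c)
    rwa [← hm, div_lt_iff₀ hcpos] at this
  have hcτ : 2 * (2 - Real.sqrt 3) * c = 1 := by rw [hc]; nlinarith
  -- the number of tiles in the rows
  have hnum : ∀ k : ℕ, (k : ℝ) * c ≤ r - 3 - δ * (Real.sqrt 3 / 2) →
      2 * (2 - Real.sqrt 3) * (r - 1 - δ * (Real.sqrt 3 / 2) - k * c) ≤ n - δ - k := by
    intro k hk
    have e : 2 * (2 - Real.sqrt 3) * (r - δ - δ * (Real.sqrt 3 / 2) - k * c) =
        2 * (2 - Real.sqrt 3) * r - (δ + k) * (2 * (2 - Real.sqrt 3) * c) := by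
      rw [hc]; ring
    rw [hcτ] at e
    have h1 : 0 ≤ 2 * (2 - Real.sqrt 3) * (1 - δ) := mul_nonneg (by linarith) (by linarith)
    nlinarith
  have rows : ∀ k : ℕ, k ≤ m → SRow B (a + δ * w + k * (Complex.I + w)) (n - δ - k) := by
    intro k
    induction k with
    | zero => intro _; simpa using hrow
    | succ k ih =>
      intro hk
      have h1 := ih (by omega)
      have hk' : ((k : ℝ) + 1) * c ≤ r - 3 - δ * (Real.sqrt 3 / 2) := by
        have : ((k : ℝ) + 1) ≤ m := by exact_mod_cast hk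
        nlinarith
      have h2 := hnum k (by nlinarith)
      have h3 : 2 * (2 - Real.sqrt 3) * (2 + c) ≤
          2 * (2 - Real.sqrt 3) * (r - 1 - δ * (Real.sqrt 3 / 2) - k * c) := by
        refine mul_le_mul_of_nonneg_left ?_ (by linarith)
        linarith
      have h4 : (2 : ℝ) < n - δ - k := by
        have : 2 * (2 - Real.sqrt 3) * (2 + c) = 4 * (2 - Real.sqrt 3) + 1 := by
          linear_combination hcτ
        linarith
      have h5 : 3 ≤ n - δ - k := by
        have h6 : ((2 + δ + k : ℕ) : ℝ) < n := by push_cast; linarith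
        have : 2 + δ + k < n := by exact_mod_cast h6
        omega
      have h6 := SRow_step hB h1 h5 hp (by
        rw [hpim]
        simp [ha0, w_im]
        rw [hc] at hk'
        nlinarith)
      have e1 : a + δ * w + k * (Complex.I + w) + Complex.I + w =
          a + δ * w + ((k + 1 : ℕ) : ℂ) * (Complex.I + w) := by push_cast; ring
      have e2 : n - δ - k - 1 = n - δ - (k + 1) := by omega
      rw [e1, e2] at h6
      exact h6
  have hrowm := rows m le_rfl
  have hnm := hnum m hm1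
  set v : ℂ := a + δ * w + m * (Complex.I + w) with hv
  set N : ℕ := n - δ - m with hN
  have hre : v.re = a.re + (δ + m) / 2 := by rw [hv]; simp [w_re]; ring
  have him : v.im = δ * (Real.sqrt 3 / 2) + m * c := by rw [hv, hc]; simp [w_im, ha0]
  have hτm : ((δ : ℝ) + m) / 2 = (2 - Real.sqrt 3) * (δ + δ * (Real.sqrt 3 / 2) + m * c) := by
    have e : (2 - Real.sqrt 3) * (δ + δ * (Real.sqrt 3 / 2) + m * c) =
        (δ + m) * (2 * (2 - Real.sqrt 3) * c) / 2 := by rw [hc]; ring
    rw [e, hcτ, mul_one]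
  have hNr : (N : ℝ) = n - δ - m := by
    have h4 : (0 : ℝ) < n - δ - m := by
      have : 0 < 2 * (2 - Real.sqrt 3) * (r - 1 - δ * (Real.sqrt 3 / 2) - m * c) := by
        refine mul_pos (by linarith) (by linarith)
      linarith
    have h6 : ((δ + m : ℕ) : ℝ) < n := by push_cast; linarith
    have h7 : δ + m < n := by exact_mod_cast h6
    have h8 : N = n - (δ + m) := by omega
    rw [h8, Nat.cast_sub h7.le]
    push_cast; ring
  have hX0 : v.re ≤ -(2 * (2 - Real.sqrt 3)) := by
    rw [hre, hτm]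
    have h1 : (2 - Real.sqrt 3) * (δ + δ * (Real.sqrt 3 / 2) + m * c) ≤ (2 - Real.sqrt 3) * (r - 2) :=
      mul_le_mul_of_nonneg_left (by linarith) (by linarith)
    nlinarith
  have hX1 : 2 * (2 - Real.sqrt 3) ≤ v.re + N := by
    rw [hre, hNr]
    have e : a.re + (δ + m) / 2 + ((n : ℝ) - δ - m) = a.re + n - (δ + m) / 2 := by ring
    rw [e, hτm]
    have h1 : (2 - Real.sqrt 3) * (δ + δ * (Real.sqrt 3 / 2) + m * c) ≤ (2 - Real.sqrt 3) * (r - 2) :=
      mul_le_mul_of_nonneg_left (by linarith) (by linarith)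
    nlinarith
  -- the vertex of the row above which the centre lies
  obtain ⟨j, hj1, hj2, hj3⟩ : ∃ j : ℕ, 1 ≤ j ∧ j < N ∧ |v.re + j| ≤ 1 := by
    have hN2 : 2 ≤ N := by
      have : (1 : ℝ) < N := by linarith
      exact_mod_cast this
    by_cases h1 : -v.re ≤ 1
    · exact ⟨1, le_rfl, hN2, by rw [abs_le]; constructor <;> push_cast <;> linarith⟩
    · push Not at h1
      have f1 := Nat.floor_le (a := -v.re) (by linarith)
      have f2 := Nat.lt_floor_add_one (-v.re)
      refine ⟨⌊-v.re⌋₊, ?_, ?_, ?_⟩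
      · exact Nat.le_floor (by simpa using h1.le)
      · by_contra hcon
        push Not at hcon
        have : (N : ℝ) ≤ ⌊-v.re⌋₊ := by exact_mod_cast hcon
        linarith
      · rw [abs_le]; constructor <;> linarith
  obtain ⟨i, rfl⟩ : ∃ i, j = i + 1 := ⟨j - 1, by omega⟩
  have b1 := hrowm i (by omega)
  have b2 := hrowm (i + 1) hj2
  have e3 : v + ((i + 1 : ℕ) : ℂ) = v + i + 1 := by push_cast; ring
  rw [e3] at b2
  rw [abs_le] at hj3
  push_cast at hj3
  refine ⟨v + i, b1, b2, fun z hz => ?_, fun z hz => ?_⟩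
  · have h := sq_bounds hz
    simp at h
    refine dist_le_six (abs_le.2 ⟨?_, ?_⟩) ?_ ?_
    · linarith
    · linarith
    · rw [him] at h; rw [hc] at hm2 h; nlinarith
    · rw [him] at h; linarith
  · have h := sq_bounds hz
    simp at h
    refine dist_le_six (abs_le.2 ⟨?_, ?_⟩) ?_ ?_
    · linarith
    · linarith
    · rw [him] at h; rw [hc] at hm2 h; nlinarith
    · rw [him] at h; linarith

end Pool.Agent.Q281.TS
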