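import Pool.Agent.Q281.TS.Tiling

/-!
The species of the vertices of the snub square tiling.
-/

namespace Pool.Agent.Q281.TS

open Set MeasureTheory

lemma tile_ne {t t' : ℕ} (h2 : 2 ≤ t) (h6 : t < 6) (h2' : 2 ≤ t') (h6' : t' < 6) (h : t ≠ t')
    (i j i' j' : ℤ) : tile t i j ≠ tile t' i' j' := by
  intro he
  have h1 := sub_of_eq he
  interval_cases t <;> interval_cases t' <;>
    first
    | exact absurd rfl h
    | (simp only [tileL, vtx, List.mem_cons, List.not_mem_nil, or_false, forall_eq_or_imp,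
        forall_eq, Prod.mk.injEq] at h1
       omega)

lemma sq_ne (i j i' j' : ℤ) : tile 0 i j ≠ tile 1 i' j' := by
  intro he
  have h1 := sub_of_eq he
  simp only [tileL, vtx, List.mem_cons, List.not_mem_nil, or_false, forall_eq_or_imp,
        forall_eq, Prod.mk.injEq] at h1
  omega

lemma tris_of {q : V4} {t1 t2 t3 : ℕ} {i1 j1 i2 j2 i3 j3 : ℤ}
    (h1 : 2 ≤ t1 ∧ t1 < 6) (h2 : 2 ≤ t2 ∧ t2 < 6) (h3 : 2 ≤ t3 ∧ t3 < 6)
    (h12 : t1 ≠ t2) (h13 : t1 ≠ t3) (h23 : t2 ≠ t3)
    (m1 : q ∈ tileL t1 i1 j1) (m2 : q ∈ tileL t2 i2 j2) (m3 : q ∈ tileL t3 i3 j3)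
    (hall : ∀ t : ℕ, 2 ≤ t → t < 6 → ∀ i j : ℤ, q ∈ tileL t i j →
      (t = t1 ∧ i = i1 ∧ j = j1) ∨ (t = t2 ∧ i = i2 ∧ j = j2) ∨ (t = t3 ∧ i = i3 ∧ j = j3)) :
    trisAt snub (ev q) = 3 := by
  unfold trisAt
  have : {V ∈ snub | IsTri V ∧ ev q ∈ V} = {tile t1 i1 j1, tile t2 i2 j2, tile t3 i3 j3} := by
    ext W
    simp only [mem_ofPred_eq, mem_insert_iff, mem_singleton_iff]
    constructor
    · rintro ⟨⟨t, ht, i, j, rfl⟩, hT, hv⟩
      have ht2 : 2 ≤ t := by
        by_contra hcon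
        exact not_tri_sq hT (isSq_tile (by omega) i j)
      rcases hall t ht2 ht i j (mem_tile.1 hv) with ⟨rfl, rfl, rfl⟩ | ⟨rfl, rfl, rfl⟩ | ⟨rfl, rfl, rfl⟩
      · exact Or.inl rfl
      · exact Or.inr (Or.inl rfl)
      · exact Or.inr (Or.inr rfl)
    · rintro (rfl | rfl | rfl)
      · exact ⟨⟨t1, h1.2, _, _, rfl⟩, isTri_tile h1.1 h1.2 _ _, mem_tile.2 m1⟩
      · exact ⟨⟨t2, h2.2, _, _, rfl⟩, isTri_tile h2.1 h2.2 _ _, mem_tile.2 m2⟩
      · exact ⟨⟨t3, h3.2, _, _, rfl⟩, isTri_tile h3.1 h3.2 _ _, mem_tile.2 m3⟩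
  rw [this, ncard_insert_of_notMem, ncard_pair]
  · exact tile_ne h2.1 h2.2 h3.1 h3.2 h23 _ _ _ _
  · simp only [mem_insert_iff, mem_singleton_iff, not_or]
    exact ⟨tile_ne h1.1 h1.2 h2.1 h2.2 h12 _ _ _ _, tile_ne h1.1 h1.2 h3.1 h3.2 h13 _ _ _ _⟩

lemma sqs_of {q : V4} {i1 j1 i2 j2 : ℤ} (m1 : q ∈ tileL 0 i1 j1) (m2 : q ∈ tileL 1 i2 j2)
    (hall : ∀ t : ℕ, t < 2 → ∀ i j : ℤ, q ∈ tileL t i j →
      (t = 0 ∧ i = i1 ∧ j = j1) ∨ (t = 1 ∧ i = i2 ∧ j = j2)) :
    sqsAt snub (ev q) = 2 := by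
  unfold sqsAt
  have : {V ∈ snub | IsSq V ∧ ev q ∈ V} = {tile 0 i1 j1, tile 1 i2 j2} := by
    ext W
    simp only [mem_ofPred_eq, mem_insert_iff, mem_singleton_iff]
    constructor
    · rintro ⟨⟨t, ht, i, j, rfl⟩, hT, hv⟩
      have ht2 : t < 2 := by
        by_contra hcon
        exact not_tri_sq (isTri_tile (by omega) ht i j) hT
      rcases hall t ht2 i j (mem_tile.1 hv) with ⟨rfl, rfl, rfl⟩ | ⟨rfl, rfl, rfl⟩
      · exact Or.inl rfl
      · exact Or.inr rfl
    · rintro (rfl | rfl)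
      · exact ⟨⟨0, by norm_num, _, _, rfl⟩, isSq_tile (by norm_num) _ _, mem_tile.2 m1⟩
      · exact ⟨⟨1, by norm_num, _, _, rfl⟩, isSq_tile (by norm_num) _ _, mem_tile.2 m2⟩
  rw [this, ncard_pair]
  exact sq_ne _ _ _ _

lemma count_vtx (c : ℕ) (hc : c < 4) (i j : ℤ) :
    trisAt snub (ev (vtx c i j)) = 3 ∧ sqsAt snub (ev (vtx c i j)) = 2 := by
  interval_cases c
  · constructor
    · refine tris_of (t1 := 2) (t2 := 4) (t3 := 5) (i1 := i - 1) (j1 := j) (i2 := i) (j2 := j - 1)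
        (i3 := i) (j3 := j - 1) (by norm_num) (by norm_num) (by norm_num) (by norm_num)
        (by norm_num) (by norm_num) (by simp [tileL]) (by simp [tileL]) (by simp [tileL]) ?_
      intro t h2 h6 i' j' h
      interval_cases t <;>
      (simp only [tileL, vtx, List.mem_cons, List.not_mem_nil, or_false, Prod.mk.injEq] at h
       omega)
    · refine sqs_of (i1 := i) (j1 := j) (i2 := i - 1) (j2 := j - 1) (by simp [tileL])
        (by simp [tileL]) ?_
      intro t h2 i' j' h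
      interval_cases t <;>
      (simp only [tileL, vtx, List.mem_cons, List.not_mem_nil, or_false, Prod.mk.injEq] at h
       omega)
  · constructor
    · refine tris_of (t1 := 2) (t2 := 3) (t3 := 5) (i1 := i) (j1 := j) (i2 := i) (j2 := j)
        (i3 := i) (j3 := j - 1) (by norm_num) (by norm_num) (by norm_num) (by norm_num)
        (by norm_num) (by norm_num) (by simp [tileL]) (by simp [tileL]) (by simp [tileL]) ?_
      intro t h2 h6 i' j' h
      interval_cases t <;>
      (simp only [tileL, vtx, List.mem_cons, List.not_mem_nil, or_false, Prod.mk.injEq] at h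
       omega)
    · refine sqs_of (i1 := i) (j1 := j) (i2 := i) (j2 := j - 1) (by simp [tileL])
        (by simp [tileL]) ?_
      intro t h2 i' j' h
      interval_cases t <;>
      (simp only [tileL, vtx, List.mem_cons, List.not_mem_nil, or_false, Prod.mk.injEq] at h
       omega)
  · constructor
    · refine tris_of (t1 := 2) (t2 := 3) (t3 := 4) (i1 := i - 1) (j1 := j) (i2 := i - 1) (j2 := j)
        (i3 := i) (j3 := j) (by norm_num) (by norm_num) (by norm_num) (by norm_num)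
        (by norm_num) (by norm_num) (by simp [tileL]) (by simp [tileL]) (by simp [tileL]) ?_
      intro t h2 h6 i' j' h
      interval_cases t <;>
      (simp only [tileL, vtx, List.mem_cons, List.not_mem_nil, or_false, Prod.mk.injEq] at h
       omega)
    · refine sqs_of (i1 := i) (j1 := j) (i2 := i - 1) (j2 := j) (by simp [tileL])
        (by simp [tileL]) ?_
      intro t h2 i' j' h
      interval_cases t <;>
      (simp only [tileL, vtx, List.mem_cons, List.not_mem_nil, or_false, Prod.mk.injEq] at h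
       omega)
  · constructor
    · refine tris_of (t1 := 3) (t2 := 4) (t3 := 5) (i1 := i) (j1 := j) (i2 := i) (j2 := j)
        (i3 := i) (j3 := j) (by norm_num) (by norm_num) (by norm_num) (by norm_num)
        (by norm_num) (by norm_num) (by simp [tileL]) (by simp [tileL]) (by simp [tileL]) ?_
      intro t h2 h6 i' j' h
      interval_cases t <;>
      (simp only [tileL, vtx, List.mem_cons, List.not_mem_nil, or_false, Prod.mk.injEq] at h
       omega)
    · refine sqs_of (i1 := i) (j1 := j) (i2 := i) (j2 := j) (by simp [tileL])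
        (by simp [tileL]) ?_
      intro t h2 i' j' h
      interval_cases t <;>
      (simp only [tileL, vtx, List.mem_cons, List.not_mem_nil, or_false, Prod.mk.injEq] at h
       omega)

lemma tile_vertex {t : ℕ} (ht : t < 6) {i j : ℤ} {v : ℂ} (hv : v ∈ tile t i j) :
    ∃ c : ℕ, c < 4 ∧ ∃ i' j' : ℤ, v = ev (vtx c i' j') := by
  obtain ⟨q, hq, rfl⟩ := hv
  interval_cases t <;>
  (simp only [tileL, List.mem_cons, List.not_mem_nil, or_false] at hq
   rcases hq with rfl | rfl | rfl | rfl) <;>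
  exact ⟨_, by norm_num, _, _, rfl⟩

theorem snub_isTiling : IsTiling snub where
  toIsFamily := snub_isFamily
  cover := snub_cover
  species := by
    rintro V ⟨t, ht, i, j, rfl⟩ v hv
    obtain ⟨c, hc, i', j', rfl⟩ := tile_vertex ht hv
    exact count_vtx c hc i' j'

/-- two squares of the snub square tiling have at most one common vertex -/
lemma snub_squares {V W : Set ℂ} (hV : V ∈ snub) (hW : W ∈ snub) (qV : IsSq V) (qW : IsSq W)
    {x y : ℂ} (hx : x ∈ V ∩ W) (hy : y ∈ V ∩ W) (hxy : x ≠ y) : V = W := by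
  obtain ⟨t, ht, i, j, rfl⟩ := hV
  obtain ⟨t', ht', i', j', rfl⟩ := hW
  have ht2 : t < 2 := by
    by_contra hcon
    exact not_tri_sq (isTri_tile (by omega) ht i j) qV
  have ht2' : t' < 2 := by
    by_contra hcon
    exact not_tri_sq (isTri_tile (by omega) ht' i' j') qW
  obtain ⟨⟨p, hp, rfl⟩, hpW⟩ := hx
  obtain ⟨⟨q, hq, rfl⟩, hqW⟩ := hy
  have hpq : p ≠ q := by rintro rfl; exact hxy rfl
  rw [mem_tile] at hpW hqW
  obtain ⟨p1, p2, p3, p4⟩ := p
  obtain ⟨q1, q2, q3, q4⟩ := q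
  simp only [ne_eq, Prod.mk.injEq] at hpq
  interval_cases t <;> interval_cases t' <;>
    simp only [tileL, vtx, List.mem_cons, List.not_mem_nil, or_false, Prod.mk.injEq]
      at hp hq hpW hqW
  · have : i = i' ∧ j = j' := by omega
    obtain ⟨rfl, rfl⟩ := this
    rfl
  · exfalso; omega
  · exfalso; omega
  · have : i = i' ∧ j = j' := by omega
    obtain ⟨rfl, rfl⟩ := this
    rfl

end Pool.Agent.Q281.TS
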