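import Mathlib

/-!
# Patches of unit triangles and unit squares

Tiles are equilateral triangles and squares with sides of length one, given by their vertex sets;
the tile itself is the convex hull of its vertex set.
-/

namespace Pool.Agent.Q281.TS

open Set MeasureTheory

/-- The sixth root of unity `1/2 + (√3/2) i`. -/
noncomputable def w : ℂ := ⟨1 / 2, Real.sqrt 3 / 2⟩

/-- The vertex set of the equilateral triangle with the vertices `p`, `p + u`, which lies to the
left of the directed segment from `p` to `p + u`. -/
noncomputable def tri (p u : ℂ) : Set ℂ := {p, p + u, p + w * u}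

/-- The vertex set of the square with the vertices `p`, `p + u`, which lies to the left of the
directed segment from `p` to `p + u`. -/
noncomputable def sq (p u : ℂ) : Set ℂ := {p, p + u, p + u + Complex.I * u, p + Complex.I * u}

/-- `V` is the vertex set of an equilateral triangle with sides of length one. -/
def IsTri (V : Set ℂ) : Prop := ∃ p u : ℂ, ‖u‖ = 1 ∧ V = tri p u

/-- `V` is the vertex set of a square with sides of length one. -/
def IsSq (V : Set ℂ) : Prop := ∃ p u : ℂ, ‖u‖ = 1 ∧ V = sq p u

/-- The tiles with the vertex sets `V` and `W` have no common point, exactly one common point,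
which is a vertex of both, or their intersection is a side of both (two vertices of a tile are the
ends of a side if and only if their distance is one). -/
def EdgeToEdge (V W : Set ℂ) : Prop :=
  convexHull ℝ V ∩ convexHull ℝ W = ∅ ∨
  (∃ p ∈ V ∩ W, convexHull ℝ V ∩ convexHull ℝ W = {p}) ∨
  (∃ p ∈ V ∩ W, ∃ q ∈ V ∩ W, ‖p - q‖ = 1 ∧ convexHull ℝ V ∩ convexHull ℝ W = segment ℝ p q)

/-- The union of the tiles with vertex sets in `F`. -/
def region (F : Set (Set ℂ)) : Set ℂ := ⋃ V ∈ F, convexHull ℝ V

/-- The number of triangles of `F` at the point `v`. -/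
noncomputable def trisAt (F : Set (Set ℂ)) (v : ℂ) : ℕ := {V ∈ F | IsTri V ∧ v ∈ V}.ncard

/-- The number of squares of `F` at the point `v`. -/
noncomputable def sqsAt (F : Set (Set ℂ)) (v : ℂ) : ℕ := {V ∈ F | IsSq V ∧ v ∈ V}.ncard

/-- A family of unit triangles and unit squares, placed edge-to-edge, two different ones of which
meet in a set of area zero. -/
structure IsFamily (F : Set (Set ℂ)) : Prop where
  tile : ∀ V ∈ F, IsTri V ∨ IsSq V
  area : ∀ V ∈ F, ∀ W ∈ F, V ≠ W → volume (convexHull ℝ V ∩ convexHull ℝ W) = 0
  edge : ∀ V ∈ F, ∀ W ∈ F, V ≠ W → EdgeToEdge V W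

/-- A patch: a finite family whose union is a closed topological disk, with exactly three triangles
and two squares at every vertex in the interior of the union, and at most three triangles and at
most two squares at every vertex. -/
structure IsPatch (P : Set (Set ℂ)) : Prop extends IsFamily P where
  finite : P.Finite
  disk : Nonempty (region P ≃ₜ Metric.closedBall (0 : ℂ) 1)
  inner : ∀ V ∈ P, ∀ v ∈ V, v ∈ interior (region P) → trisAt P v = 3 ∧ sqsAt P v = 2
  outer : ∀ V ∈ P, ∀ v ∈ V, trisAt P v ≤ 3 ∧ sqsAt P v ≤ 2

/-- A tiling of the plane with exactly three triangles and two squares at every vertex. -/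
structure IsTiling (F : Set (Set ℂ)) : Prop extends IsFamily F where
  cover : region F = univ
  species : ∀ V ∈ F, ∀ v ∈ V, trisAt F v = 3 ∧ sqsAt F v = 2

end Pool.Agent.Q281.TS
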