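import Pool.Agent.Q281.TS.Block
import Pool.Agent.H140.TH.Disk

/-!
The union of the tiles of the block is a disk, and it contains a large round disk.
-/

namespace Pool.Agent.Q281.TS

open Set MeasureTheory

lemma box_disk : Nonempty (box ≃ₜ Metric.closedBall (0 : ℂ) 1) := by
  refine Pool.Agent.H140.TH.disk_of_gauge (g := fun z => max |z.re| |z.im| / 4) ?_ ?_
    (r := 1 / 8) (by norm_num) ?_ 0 ?_
  · fun_prop
  · intro t z ht
    simp only [Complex.real_smul, Complex.re_ofReal_mul, Complex.im_ofReal_mul, abs_mul,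
      abs_of_nonneg ht]
    rw [← mul_max_of_nonneg _ _ ht]; ring
  · intro z
    have h1 := Complex.norm_le_abs_re_add_abs_im z
    have h2 := le_max_left |z.re| |z.im|
    have h3 := le_max_right |z.re| |z.im|
    show 1 / 8 * ‖z‖ ≤ max |z.re| |z.im| / 4
    linarith
  · intro z
    rw [sub_zero]
    show z ∈ box ↔ max |z.re| |z.im| / 4 ≤ 1
    rw [div_le_one (by norm_num : (0 : ℝ) < 4), max_le_iff]
    rfl

lemma block_disk : Nonempty (region block ≃ₜ Metric.closedBall (0 : ℂ) 1) := by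
  obtain ⟨H, hH⟩ := G_homeo
  obtain ⟨e⟩ := box_disk
  have hsc : ((sc : ℝ) : ℂ)⁻¹ ≠ 0 := inv_ne_zero (by exact_mod_cast sc_pos.ne')
  let T : ℂ ≃ₜ ℂ := (Homeomorph.mulLeft₀ _ hsc).trans H
  refine ⟨(T.subtype (p := fun z => z ∈ region block) (q := fun z => z ∈ box) fun z => ?_).trans e⟩
  rw [region_block]
  have : T z = G (z / sc) := by
    show H ((sc : ℂ)⁻¹ * z) = G (z / sc)
    rw [hH, div_eq_inv_mul]
  rw [this]

lemma ball_block : Metric.closedBall (0 : ℂ) 6 ⊆ region block := by
  intro z hz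
  rw [Metric.mem_closedBall, dist_zero_right] at hz
  rw [region_block]
  have hsc := sc_pos
  have hsc2 := sc_sq
  have htl := tau_lt
  have htp := tau_pos
  have hsc3 : 1.9 < sc := by nlinarith
  have h1 : |z.re| ≤ 6 := (Complex.abs_re_le_norm z).trans hz
  have h2 : |z.im| ≤ 6 := (Complex.abs_im_le_norm z).trans hz
  have key : ∀ u : ℝ, |u| ≤ 6 → |u / sc| ≤ 3.2 := by
    intro u hu
    rw [abs_div, abs_of_pos hsc, div_le_iff₀ hsc]
    linarith
  have h3 := key _ h1
  have h4 := key _ h2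
  rw [abs_le] at h3 h4
  have n1 := nd_le_half (z.re / sc)
  have n2 := nd_le_half (z.im / sc)
  have n3 := nd_nonneg (z.re / sc)
  have n4 := nd_nonneg (z.im / sc)
  simp only [box, G, mem_ofPred_eq, Complex.div_ofReal_re, Complex.div_ofReal_im, g1, g2]
  have m1 := mul_nonneg htp.le n3
  have m2 := mul_nonneg htp.le n4
  have m3 : tau * nd (z.re / sc) ≤ 0.2 := by nlinarith
  have m4 : tau * nd (z.im / sc) ≤ 0.2 := by nlinarith
  constructor
  · rw [abs_le]; constructor <;> linarith
  · rw [abs_le]; constructor <;> linarith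

end Pool.Agent.Q281.TS
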