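import Pool.Agent.Q281.TS.Core

namespace Pool.Agent.Q281.TS

open Set MeasureTheory

variable {B : Set (Set ℂ)}

/-- a motion of the plane -/
noncomputable def mo (c d : ℂ) : ℂ →ᵃ[ℝ] ℂ :=
  (LinearMap.mulLeft ℝ c).toAffineMap + AffineMap.const ℝ ℂ d

lemma mo_apply (c d z : ℂ) : mo c d z = c * z + d := by
  simp [mo]

lemma mo_inv {c d : ℂ} (hc : ‖c‖ = 1) (z : ℂ) : mo c⁻¹ (-(c⁻¹ * d)) (mo c d z) = z := by
  have h0 : c ≠ 0 := by rintro rfl; simp at hc
  rw [mo_apply, mo_apply]
  field_simp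
  ring

lemma mo_inj {c d : ℂ} (hc : ‖c‖ = 1) : Function.Injective (mo c d) :=
  Function.LeftInverse.injective (g := mo c⁻¹ (-(c⁻¹ * d))) (mo_inv hc)

lemma mo_image_inv {c d : ℂ} (hc : ‖c‖ = 1) (V : Set ℂ) :
    mo c⁻¹ (-(c⁻¹ * d)) '' (mo c d '' V) = V := by
  rw [image_image]
  have : (fun x => mo c⁻¹ (-(c⁻¹ * d)) (mo c d x)) = id := funext (mo_inv hc)
  rw [this, image_id]

lemma mo_dist {c d : ℂ} (hc : ‖c‖ = 1) (x y : ℂ) : dist (mo c d x) (mo c d y) = dist x y := by
  rw [mo_apply, mo_apply, Complex.dist_eq, Complex.dist_eq]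
  have : c * x + d - (c * y + d) = c * (x - y) := by ring
  rw [this, norm_mul, hc, one_mul]

lemma isTri_mo {c d : ℂ} (hc : ‖c‖ = 1) {V : Set ℂ} (h : IsTri V) : IsTri (mo c d '' V) := by
  obtain ⟨p, u, hu, rfl⟩ := h
  refine ⟨c * p + d, c * u, by rw [norm_mul, hc, hu, one_mul], ?_⟩
  unfold tri
  rw [image_insert_eq, image_pair, mo_apply, mo_apply, mo_apply]
  congr 2
  · ring
  · congr 1; ring

lemma isSq_mo {c d : ℂ} (hc : ‖c‖ = 1) {V : Set ℂ} (h : IsSq V) : IsSq (mo c d '' V) := by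
  obtain ⟨p, u, hu, rfl⟩ := h
  refine ⟨c * p + d, c * u, by rw [norm_mul, hc, hu, one_mul], ?_⟩
  unfold sq
  rw [image_insert_eq, image_insert_eq, image_pair, mo_apply, mo_apply, mo_apply, mo_apply]
  have e1 : c * (p + u) + d = c * p + d + c * u := by ring
  have e2 : c * (p + u + Complex.I * u) + d = c * p + d + c * u + Complex.I * (c * u) := by ring
  have e3 : c * (p + Complex.I * u) + d = c * p + d + Complex.I * (c * u) := by ring
  rw [e1, e2, e3]

lemma norm_inv_one {c : ℂ} (hc : ‖c‖ = 1) : ‖c⁻¹‖ = 1 := by rw [norm_inv, hc, inv_one]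

lemma edge_mo {c d : ℂ} (hc : ‖c‖ = 1) {V W : Set ℂ} (h : EdgeToEdge V W) :
    EdgeToEdge (mo c d '' V) (mo c d '' W) := by
  have e : convexHull ℝ (mo c d '' V) ∩ convexHull ℝ (mo c d '' W) =
      mo c d '' (convexHull ℝ V ∩ convexHull ℝ W) := by
    rw [← AffineMap.image_convexHull, ← AffineMap.image_convexHull, image_inter (mo_inj hc)]
  unfold EdgeToEdge
  rw [e, ← image_inter (mo_inj hc)]
  rcases h with h | ⟨p, hp, h⟩ | ⟨p, hp, q, hq, hpq, h⟩
  · left; rw [h, image_empty]
  · right; left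
    exact ⟨mo c d p, mem_image_of_mem _ hp, by rw [h, image_singleton]⟩
  · right; right
    refine ⟨mo c d p, mem_image_of_mem _ hp, mo c d q, mem_image_of_mem _ hq, ?_, ?_⟩
    · rw [← Complex.dist_eq, mo_dist hc, Complex.dist_eq, hpq]
    · rw [h, image_segment]

lemma region_mo (c d : ℂ) : region ((fun V => mo c d '' V) '' B) = mo c d '' region B := by
  unfold region
  rw [biUnion_image, image_iUnion₂]
  refine iUnion₂_congr fun V _ => ?_
  rw [AffineMap.image_convexHull]

lemma cx_mo (hB : Cx B) {c d : ℂ} (hc : ‖c‖ = 1) : Cx ((fun V => mo c d '' V) '' B) where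
  tile := by
    rintro _ ⟨V, hV, rfl⟩
    rcases hB.tile V hV with h | h
    · exact Or.inl (isTri_mo hc h)
    · exact Or.inr (isSq_mo hc h)
  edge := by
    rintro _ ⟨V, hV, rfl⟩ _ ⟨W, hW, rfl⟩ hne
    exact edge_mo hc (hB.edge V hV W hW fun h => hne (by rw [h]))
  fin := hB.fin.image _
  tri3 := by
    rintro _ ⟨V, hV, rfl⟩ _ ⟨v, hv, rfl⟩
    refine le_trans ?_ (hB.tri3 V hV v hv)
    unfold trisAt
    have hfin : {W ∈ B | IsTri W ∧ v ∈ W}.Finite := hB.fin.subset fun W hW => hW.1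
    refine le_trans (ncard_le_ncard (t := (fun V => mo c d '' V) '' {W ∈ B | IsTri W ∧ v ∈ W}) ?_
      (hfin.image _)) (ncard_image_le hfin)
    rintro _ ⟨⟨W, hW, rfl⟩, h1, h2⟩
    refine ⟨W, ⟨hW, ?_, ?_⟩, rfl⟩
    · have := isTri_mo (c := c⁻¹) (d := -(c⁻¹ * d)) (norm_inv_one hc) h1
      dsimp only at this
      rwa [mo_image_inv hc] at this
    · obtain ⟨x, hx, h3⟩ := h2
      rwa [mo_inj hc h3] at hx
  sq2 := by
    rintro _ ⟨V, hV, rfl⟩ _ ⟨v, hv, rfl⟩
    refine le_trans ?_ (hB.sq2 V hV v hv)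
    unfold sqsAt
    have hfin : {W ∈ B | IsSq W ∧ v ∈ W}.Finite := hB.fin.subset fun W hW => hW.1
    refine le_trans (ncard_le_ncard (t := (fun V => mo c d '' V) '' {W ∈ B | IsSq W ∧ v ∈ W}) ?_
      (hfin.image _)) (ncard_image_le hfin)
    rintro _ ⟨⟨W, hW, rfl⟩, h1, h2⟩
    refine ⟨W, ⟨hW, ?_, ?_⟩, rfl⟩
    · have := isSq_mo (c := c⁻¹) (d := -(c⁻¹ * d)) (norm_inv_one hc) h1
      dsimp only at this
      rwa [mo_image_inv hc] at this
    · obtain ⟨x, hx, h3⟩ := h2
      rwa [mo_inj hc h3] at hx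
  conv := by
    rw [region_mo]
    exact hB.conv.affine_image _

lemma isCompact_region (hB : Cx B) : IsCompact (region B) := by
  unfold region
  exact hB.fin.isCompact_biUnion fun V hV => (tile_finite (hB.tile V hV)).isCompact_convexHull ℝ

/-- **Theorem.** A convex patch that contains a disk of radius six has two adjacent squares in this
disk. -/
theorem two_squares (hB : Cx B) {p : ℂ} (hball : Metric.closedBall p 6 ⊆ region B) :
    ∃ V ∈ B, ∃ W ∈ B, V ≠ W ∧ IsSq V ∧ IsSq W ∧ (∃ x ∈ V ∩ W, ∃ y ∈ V ∩ W, x ≠ y) ∧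
      (∀ z ∈ V, dist z p ≤ 6) ∧ ∀ z ∈ W, dist z p ≤ 6 := by
  set K := region B with hK
  have hKc : IsCompact K := isCompact_region hB
  set S : Set ℂ := (interior K)ᶜ with hS
  have hSc : IsClosed S := isOpen_interior.isClosed_compl
  have hSne : S.Nonempty := by
    rw [hS, nonempty_compl]
    intro h
    have h1 : K = univ := eq_univ_of_univ_subset (h ▸ interior_subset)
    have := hKc.isBounded
    rw [h1] at this
    exact NormedSpace.unbounded_univ ℝ ℂ this
  obtain ⟨z₀, hz₀, hz₀d⟩ := hSc.exists_infDist_eq_dist hSne p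
  set r : ℝ := dist p z₀ with hr
  have hbi : Metric.ball p r ⊆ interior K := by
    intro x hx
    by_contra hcon
    have h1 : Metric.infDist p S ≤ dist p x := Metric.infDist_le_dist_of_mem hcon
    rw [Metric.mem_ball, dist_comm] at hx
    linarith
  have hr6 : 6 ≤ r := by
    by_contra hcon
    push Not at hcon
    apply hz₀
    have h1 : Metric.ball p 6 ⊆ interior K :=
      interior_maximal (Metric.ball_subset_closedBall.trans hball) Metric.isOpen_ball
    apply h1
    rw [Metric.mem_ball, dist_comm]; exact hcon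
  have hr0 : r ≠ 0 := by linarith
  have hcb : Metric.closedBall p r ⊆ K := by
    rw [← closure_ball p hr0]
    exact closure_minimal (hbi.trans interior_subset) hKc.isClosed
  set q : ℂ := p - z₀ with hq
  have hqn : ‖q‖ = r := by rw [hr, Complex.dist_eq]
  have hq0 : q ≠ 0 := by intro h; rw [h, norm_zero] at hqn; exact hr0 hqn.symm
  have hqq : q.re * q.re + q.im * q.im = r * r := by
    have := Complex.sq_norm q
    rw [hqn, Complex.normSq_apply] at this
    linarith
  -- the supporting line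
  have hsupp : ∀ z ∈ K, 0 ≤ (z - z₀).re * q.re + (z - z₀).im * q.im := by
    intro z hz
    by_contra hcon
    push Not at hcon
    set g := (z - z₀).re * q.re + (z - z₀).im * q.im with hg
    set D := (z - z₀).re * (z - z₀).re + (z - z₀).im * (z - z₀).im with hD
    have hDpos : 0 < D := by
      rcases eq_or_ne z z₀ with h | h
      · exfalso
        rw [hg, h] at hcon
        simp at hcon
      · have : 0 < Complex.normSq (z - z₀) := Complex.normSq_pos.2 (sub_ne_zero.2 h)
        rwa [Complex.normSq_apply] at this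
    set ε := -g / D with hε
    have hεpos : 0 < ε := div_pos (by linarith) hDpos
    have hεD : ε * D = -g := by rw [hε]; field_simp
    set y : ℂ := z₀ - ε • (z - z₀) with hy
    have hyb : y ∈ Metric.ball p r := by
      rw [Metric.mem_ball, Complex.dist_eq]
      refine abs_lt_of_sq_lt_sq' ?_ (by linarith) |>.2
      rw [Complex.sq_norm, Complex.normSq_apply]
      have e1 : (y - p).re = -q.re - ε * (z - z₀).re := by rw [hy, hq]; simp; ring
      have e2 : (y - p).im = -q.im - ε * (z - z₀).im := by rw [hy, hq]; simp; ring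
      rw [e1, e2]
      have e3 : (-q.re - ε * (z - z₀).re) * (-q.re - ε * (z - z₀).re) +
          (-q.im - ε * (z - z₀).im) * (-q.im - ε * (z - z₀).im) =
          (q.re * q.re + q.im * q.im) + 2 * ε * g + ε * (ε * D) := by
        rw [hg, hD]; ring
      rw [e3, hεD, hqq]
      nlinarith
    apply hz₀
    refine hB.conv.openSegment_interior_self_subset_interior (hbi hyb) hz ?_
    refine ⟨1 / (1 + ε), ε / (1 + ε), by positivity, by positivity, by field_simp, ?_⟩
    have h1 : (1 + ε) ≠ 0 := by positivity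
    have e4 : (1 / (1 + ε)) • y + (ε / (1 + ε)) • z = (1 / (1 + ε)) • (y + ε • z) := by
      rw [smul_add, smul_smul]; congr 2; ring
    rw [e4]
    have e5 : y + ε • z = (1 + ε) • z₀ := by
      rw [hy, smul_sub, add_smul, one_smul]; abel
    rw [e5, smul_smul]
    have e6 : 1 / (1 + ε) * (1 + ε) = 1 := by field_simp
    rw [e6, one_smul]
  -- the motion
  set c : ℂ := r * Complex.I / q with hc
  have hcn : ‖c‖ = 1 := by
    rw [hc, norm_div, norm_mul, Complex.norm_I, mul_one, Complex.norm_real, Real.norm_eq_abs, hqn,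
      abs_of_pos (by linarith)]
    exact div_self hr0
  set T := mo c (-(c * z₀)) with hT
  have hTz : ∀ z, T z = c * (z - z₀) := by intro z; rw [hT, mo_apply]; ring
  have hTp : T p = r * Complex.I := by
    rw [hTz, hc, ← hq]; field_simp
  have hB' := cx_mo hB (c := c) (d := -(c * z₀)) hcn
  set B' := (fun V => mo c (-(c * z₀)) '' V) '' B with hB'd
  have hreg : region B' = T '' K := region_mo c _
  obtain ⟨v, h1, h2, h3, h4⟩ := core hB' (r := r) (by
    intro z hz
    rw [hreg] at hz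
    obtain ⟨x, hx, rfl⟩ := hz
    rw [hTz]
    have e : c * (x - z₀) * q = r * (Complex.I * (x - z₀)) := by rw [hc]; field_simp
    have e1 : (c * (x - z₀) * q * (starRingEnd ℂ) q).im =
        (r * (Complex.I * (x - z₀)) * (starRingEnd ℂ) q).im := by rw [e]
    rw [mul_assoc (c * (x - z₀)), Complex.mul_conj, Complex.normSq_apply, hqq] at e1
    have e2 : (c * (x - z₀) * ((r * r : ℝ) : ℂ)).im = (c * (x - z₀)).im * (r * r) := by
      rw [Complex.im_mul_ofReal]
    rw [e2] at e1
    have e3 : ((r : ℂ) * (Complex.I * (x - z₀)) * (starRingEnd ℂ) q).im =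
        r * ((x - z₀).re * q.re + (x - z₀).im * q.im) := by
      simp
      ring
    rw [e3] at e1
    have h5 := hsupp x hx
    have h6 : (c * (x - z₀)).im * r = (x - z₀).re * q.re + (x - z₀).im * q.im := by
      have h7 : r * ((c * (x - z₀)).im * r) = r * ((x - z₀).re * q.re + (x - z₀).im * q.im) := by
        rw [← e1]; ring
      exact mul_left_cancel₀ hr0 h7
    by_contra hcon
    push Not at hcon
    nlinarith) hr6 (by
    intro z hz
    rw [hreg]
    refine ⟨c⁻¹ * z + z₀, hcb ?_, ?_⟩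
    · rw [Metric.mem_closedBall]
      have e : dist (T (c⁻¹ * z + z₀)) (T p) = dist (c⁻¹ * z + z₀) p := mo_dist hcn _ _
      rw [← e, hTz, hTp]
      have hc0 : c ≠ 0 := by intro h; rw [h] at hcn; simp at hcn
      have : c * (c⁻¹ * z + z₀ - z₀) = z := by field_simp; ring
      rw [this]
      exact Metric.mem_closedBall.1 hz
    · have hc0 : c ≠ 0 := by intro h; rw [h] at hcn; simp at hcn
      rw [hTz]; field_simp; ring)
  obtain ⟨V, hV, hVe⟩ := h1
  obtain ⟨W, hW, hWe⟩ := h2
  dsimp only at hVe hWe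
  have qV : IsSq V := by
    have := isSq_mo (c := c⁻¹) (d := -(c⁻¹ * (-(c * z₀)))) (norm_inv_one hcn) (isSq1 v)
    rwa [← hVe, mo_image_inv hcn] at this
  have qW : IsSq W := by
    have := isSq_mo (c := c⁻¹) (d := -(c⁻¹ * (-(c * z₀)))) (norm_inv_one hcn) (isSq1 (v + 1))
    rwa [← hWe, mo_image_inv hcn] at this
  refine ⟨V, hV, W, hW, ?_, qV, qW, ?_, ?_, ?_⟩
  · rintro rfl
    rw [hVe] at hWe
    have h5 : v ∈ sq (v + 1) 1 := by rw [← hWe]; simp [sq]
    have := (sq_bounds h5).1
    simp at this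
    linarith
  · have a1 : v + 1 ∈ sq v 1 := by simp [sq]
    have a2 : v + 1 + Complex.I ∈ sq v 1 := by simp [sq]
    have a3 : v + 1 ∈ sq (v + 1) 1 := by simp [sq]
    have a4 : v + 1 + Complex.I ∈ sq (v + 1) 1 := by simp [sq]
    rw [← hVe] at a1 a2
    rw [← hWe] at a3 a4
    obtain ⟨x1, hx1, e1⟩ := a1
    obtain ⟨x2, hx2, e2⟩ := a2
    obtain ⟨x3, hx3, e3⟩ := a3
    obtain ⟨x4, hx4, e4⟩ := a4
    have h13 : x1 = x3 := mo_inj hcn (e1.trans e3.symm)
    have h24 : x2 = x4 := mo_inj hcn (e2.trans e4.symm)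
    refine ⟨x1, ⟨hx1, h13 ▸ hx3⟩, x2, ⟨hx2, h24 ▸ hx4⟩, ?_⟩
    rintro rfl
    rw [e1] at e2
    have := congrArg Complex.im e2
    simp at this
  · intro z hz
    have h5 := h3 (T z) (by rw [← hVe]; exact mem_image_of_mem _ hz)
    rw [← hTp] at h5
    rwa [hT, mo_dist hcn] at h5
  · intro z hz
    have h5 := h4 (T z) (by rw [← hWe]; exact mem_image_of_mem _ hz)
    rw [← hTp] at h5
    rwa [hT, mo_dist hcn] at h5

end Pool.Agent.Q281.TS
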