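import Pool.Agent.Q281.TS.Basic

namespace Pool.Agent.Q281.TS

open Set MeasureTheory

/-- the twelfth root of unity -/
noncomputable def rho : ℂ := Complex.I * (1 - w)

lemma rho_re : rho.re = Real.sqrt 3 / 2 := by simp [rho, w_im]
lemma rho_im : rho.im = 1 / 2 := by simp [rho, w_re]; norm_num

lemma w_rho : w * rho = Complex.I := by
  unfold rho
  linear_combination (-Complex.I) * w_mul

lemma I_rho : Complex.I * rho = w - 1 := by
  unfold rho
  linear_combination (1 - w) * II

lemma norm_rho : ‖rho‖ = 1 := by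
  unfold rho
  rw [norm_mul, Complex.norm_I, one_mul, ← norm_neg]
  have : -(1 - w) = w - 1 := by ring
  rw [this, norm_w1]

lemma ell_eq (v d z : ℂ) : ell v d z = (z - v).im * d.re - (z - v).re * d.im := rfl

variable {B : Set (Set ℂ)}

lemma no30 (hB : Cx B) (hup : ∀ z ∈ region B, 0 ≤ z.im) {v z : ℂ} (hv : v.im = 0)
    {X : Set ℂ} (hX : X ∈ B) (hl : LTile v rho X) (hz : z ∈ region B)
    (hz1 : Real.sqrt 3 * (z - v).im < (z - v).re) : False := by
  have hs := s3pos
  have hg := s3gt
  obtain ⟨Y, hY, hYl⟩ := cross hB norm_rho hX hl hz (by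
    rw [ell_eq, rho_re, rho_im]; nlinarith)
  rcases hYl with rfl | rfl
  · have h1 : v + rho + w * -rho ∈ tri (v + rho) (-rho) := by simp [tri]
    have h2 := hup _ (mem_region' hY h1)
    have e : v + rho + w * -rho = v + rho - Complex.I := by linear_combination (-1 : ℂ) * w_rho
    rw [e] at h2
    simp [rho_im, hv] at h2
    norm_num at h2
  · have h1 : v + rho + Complex.I * -rho ∈ sq (v + rho) (-rho) := by simp [sq]
    have h2 := hup _ (mem_region' hY h1)
    simp [rho_im, rho_re, hv] at h2
    linarith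

lemma fan_sq (hB : Cx B) (hup : ∀ z ∈ region B, 0 ≤ z.im) {v z : ℂ} (hv : v.im = 0)
    (hV : sq (v - 1) 1 ∈ B) (hz : z ∈ region B)
    (hz1 : Real.sqrt 3 * (z - v).im < (z - v).re) : sq v 1 ∈ B := by
  have hs := s3pos
  have hz0 := hup z hz
  have hy : 0 ≤ (z - v).im := by simp [hv, hz0]
  have e1 : sq (v - 1) 1 = sq v Complex.I := by
    rw [← sq_rot (v - 1) 1]; congr 1 <;> ring
  obtain ⟨X, hX, hXl⟩ := cross hB (p := v) (u := Complex.I) (by simp) hV (Or.inr e1) hz (by
    rw [ell_eq]; simp only [Complex.I_re, Complex.I_im]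
    nlinarith [mul_nonneg hs.le hy])
  rcases hXl with hXl | hXl
  · exfalso
    have e2 : tri (v + Complex.I) (-Complex.I) = tri v rho := by
      rw [← tri_rot' v rho, w_rho]
    rw [e2] at hXl
    exact no30 hB hup hv hX (Or.inl hXl) hz hz1
  · have e2 : sq (v + Complex.I) (-Complex.I) = sq v 1 := by
      rw [← sq_rot3 v 1]; congr 1 <;> ring
    rw [e2] at hXl
    rwa [hXl] at hX

lemma fan_tri (hB : Cx B) (hup : ∀ z ∈ region B, 0 ≤ z.im) {v z : ℂ} (hv : v.im = 0)
    (hV : tri (v - 1) 1 ∈ B) (hz : z ∈ region B)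
    (hz1 : Real.sqrt 3 * (z - v).im < (z - v).re) : tri v 1 ∈ B ∧ tri v w ∈ B := by
  have hs := s3pos
  have h3 := s3
  have hz0 := hup z hz
  have hy : 0 ≤ (z - v).im := by simp [hv, hz0]
  have hsy := mul_nonneg hs.le hy
  have hg := s3gt
  have e1 : tri (v - 1) 1 = tri v (w - 1) := by
    rw [← tri_rot (v - 1) 1]; congr 1 <;> ring
  obtain ⟨X, hX, hXl⟩ := cross hB (p := v) (u := w - 1) norm_w1 hV (Or.inl e1) hz (by
    rw [ell_eq]; simp only [Complex.sub_re, Complex.sub_im, w_re, w_im, Complex.one_re,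
      Complex.one_im] at *
    nlinarith)
  rcases hXl with hXl | hXl
  · have e2 : tri (v + (w - 1)) (-(w - 1)) = tri v w := by
      rw [← tri_rot' v w, w_mul]
    rw [e2] at hXl
    rw [hXl] at hX
    refine ⟨?_, hX⟩
    obtain ⟨Y, hY, hYl⟩ := cross hB (p := v) (u := w) norm_w hX (Or.inl rfl) hz (by
      rw [ell_eq, w_re, w_im]
      have h5 : 0 < (z - v).re := by linarith
      have h6 : Real.sqrt 3 * (Real.sqrt 3 * (z - v).im) < Real.sqrt 3 * (z - v).re :=
        mul_lt_mul_of_pos_left hz1 hs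
      have h7 : Real.sqrt 3 * (Real.sqrt 3 * (z - v).im) = 3 * (z - v).im := by
        rw [← mul_assoc, h3]
      nlinarith)
    rcases hYl with hYl | hYl
    · have e3 : tri (v + w) (-w) = tri v 1 := by
        rw [← tri_rot' v 1]; congr 1 <;> ring
      rw [e3] at hYl
      rwa [hYl] at hY
    · exfalso
      rw [hYl] at hY
      have h1 : v + w + -w + Complex.I * -w ∈ sq (v + w) (-w) := by simp [sq]
      have h2 := hup _ (mem_region' hY h1)
      simp [w_re, hv] at h2
      norm_num at h2
  · exfalso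
    have e2 : sq (v + (w - 1)) (-(w - 1)) = sq v rho := by
      rw [← sq_rot3 v rho, I_rho]
    rw [e2] at hXl
    exact no30 hB hup hv hX (Or.inr hXl) hz hz1

lemma no150 (hB : Cx B) (hup : ∀ z ∈ region B, 0 ≤ z.im) {v z : ℂ} (hv : v.im = 0)
    {X : Set ℂ} (hX : X ∈ B) (hl : LTile (v + Complex.I * w) (-(Complex.I * w)) X)
    (hz : z ∈ region B) (hz1 : Real.sqrt 3 * (z - v).im < -(z - v).re) : False := by
  have hs := s3pos
  have hg := s3gt
  have h3 := s3
  obtain ⟨Y, hY, hYl⟩ := cross hB (by rw [norm_neg]; exact norm_I_mul norm_w) hX hl hz (by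
    rw [ell_eq]
    simp [w_re, w_im, hv] at hz1 ⊢
    nlinarith)
  have e1 : v + Complex.I * w + -(Complex.I * w) = v := by ring
  have e2 : - -(Complex.I * w) = Complex.I * w := by ring
  rw [e1, e2] at hYl
  rcases hYl with rfl | rfl
  · have h1 : v + w * (Complex.I * w) ∈ tri v (Complex.I * w) := by simp [tri]
    have h2 := hup _ (mem_region' hY h1)
    have e : v + w * (Complex.I * w) = v + Complex.I * (w - 1) := by
      linear_combination Complex.I * w_mul
    rw [e] at h2
    simp [w_re, hv] at h2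
    norm_num at h2
  · have h1 : v + Complex.I * (Complex.I * w) ∈ sq v (Complex.I * w) := by simp [sq]
    have h2 := hup _ (mem_region' hY h1)
    have e : v + Complex.I * (Complex.I * w) = v - w := by
      linear_combination w * II
    rw [e] at h2
    simp [w_im, hv] at h2
    linarith

lemma fan_left (hB : Cx B) (hup : ∀ z ∈ region B, 0 ≤ z.im) {v z : ℂ} (hv : v.im = 0)
    {V : Set ℂ} (hV : V ∈ B) (hl : LTile v 1 V) (hz : z ∈ region B)
    (hz1 : Real.sqrt 3 * (z - v).im < -(z - v).re) : v - 1 ∈ region B := by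
  have hs := s3pos
  have h3 := s3
  have hz0 := hup z hz
  have hy : 0 ≤ (z - v).im := by simp [hv, hz0]
  have hsy := mul_nonneg hs.le hy
  have hg := s3gt
  have hsx : Real.sqrt 3 * (z - v).re < 0 := mul_neg_of_pos_of_neg hs (by linarith)
  have hss : 3 * (z - v).im < - (Real.sqrt 3 * (z - v).re) := by
    have h6 := mul_lt_mul_of_pos_left hz1 hs
    have h7 : Real.sqrt 3 * (Real.sqrt 3 * (z - v).im) = 3 * (z - v).im := by
      rw [← mul_assoc, h3]
    nlinarith
  rcases hl with rfl | rfl
  · have e1 : tri v 1 = tri (v + w) (-w) := by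
      rw [← tri_rot' v 1]; congr 1 <;> ring
    obtain ⟨X, hX, hXl⟩ := cross hB (p := v + w) (u := -w) (by rw [norm_neg, norm_w]) hV
      (Or.inl e1) hz (by
        rw [ell_eq]
        simp only [Complex.sub_re, Complex.sub_im, Complex.add_re, Complex.add_im, Complex.neg_re,
          Complex.neg_im, w_re, w_im] at *
        nlinarith)
    have e2 : v + w + -w = v := by ring
    have e3 : - -w = w := by ring
    rw [e2, e3] at hXl
    rcases hXl with hXl | hXl
    · rw [hXl] at hX
      have e4 : tri v w = tri (v + (w - 1)) (-(w - 1)) := by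
        rw [← tri_rot' v w, w_mul]
      obtain ⟨Y, hY, hYl⟩ := cross hB (p := v + (w - 1)) (u := -(w - 1))
        (by rw [norm_neg]; exact norm_w1) hX (Or.inl e4) hz (by
          rw [ell_eq]
          simp only [Complex.sub_re, Complex.sub_im, Complex.add_re, Complex.add_im, Complex.neg_re,
            Complex.neg_im, w_re, w_im, Complex.one_re, Complex.one_im] at *
          nlinarith)
      have e5 : v + (w - 1) + -(w - 1) = v := by ring
      have e6 : - -(w - 1) = w - 1 := by ring
      rw [e5, e6] at hYl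
      rcases hYl with rfl | rfl
      · have h1 : v + w * (w - 1) ∈ tri v (w - 1) := by simp [tri]
        have h2 := mem_region' hY h1
        have e7 : v + w * (w - 1) = v - 1 := by linear_combination w_mul
        rwa [e7] at h2
      · exfalso
        have h1 : v + Complex.I * (w - 1) ∈ sq v (w - 1) := by simp [sq]
        have h2 := hup _ (mem_region' hY h1)
        simp [w_re, hv] at h2
        norm_num at h2
    · exfalso
      have e4 : sq v w = sq (v + Complex.I * w) (-(Complex.I * w)) := (sq_rot3 v w).symm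
      rw [e4] at hXl
      exact no150 hB hup hv hX (Or.inr hXl) hz hz1
  · have e1 : sq v 1 = sq (v + Complex.I) (-Complex.I) := by
      rw [← sq_rot3 v 1]; congr 1 <;> ring
    obtain ⟨X, hX, hXl⟩ := cross hB (p := v + Complex.I) (u := -Complex.I)
      (by rw [norm_neg, Complex.norm_I]) hV (Or.inr e1) hz (by
        rw [ell_eq]
        simp only [Complex.sub_re, Complex.sub_im, Complex.add_re, Complex.add_im, Complex.neg_re,
          Complex.neg_im, Complex.I_re, Complex.I_im] at *
        nlinarith)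
    have e2 : v + Complex.I + -Complex.I = v := by ring
    have e3 : - -Complex.I = Complex.I := by ring
    rw [e2, e3] at hXl
    rcases hXl with hXl | hXl
    · exfalso
      have e4 : tri v Complex.I = tri (v + Complex.I * w) (-(Complex.I * w)) := by
        rw [← tri_rot' v Complex.I, mul_comm]
      rw [e4] at hXl
      exact no150 hB hup hv hX (Or.inl hXl) hz hz1
    · rw [hXl] at hX
      have h1 : v + Complex.I * Complex.I ∈ sq v Complex.I := by simp [sq]
      have h2 := mem_region' hX h1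
      have e7 : v + Complex.I * Complex.I = v - 1 := by linear_combination II
      rwa [e7] at h2

/-! ### Counting -/

lemma ne_of_mem {V W : Set ℂ} {z : ℂ} (h1 : z ∈ V) (h2 : z ∉ W) : V ≠ W := by
  rintro rfl; exact h2 h1

lemma sq_bounds {p z : ℂ} (h : z ∈ sq p 1) : p.re ≤ z.re ∧ z.re ≤ p.re + 1 ∧ p.im ≤ z.im ∧
    z.im ≤ p.im + 1 := by
  simp only [sq, mem_insert_iff, mem_singleton_iff] at h
  rcases h with rfl | rfl | rfl | rfl <;> simp

lemma tri_bounds {p z : ℂ} (h : z ∈ tri p 1) : p.re ≤ z.re ∧ z.re ≤ p.re + 1 ∧ p.im ≤ z.im ∧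
    (z.im = p.im ∨ z = p + w) := by
  have := s3pos
  simp only [tri, mem_insert_iff, mem_singleton_iff] at h
  rcases h with rfl | rfl | rfl
  · simp
  · simp
  · refine ⟨?_, ?_, ?_, Or.inr (by ring)⟩
    · simp [w_re]
    · simp [w_re]; norm_num
    · simp [w_im]; positivity

lemma trin_bounds {p z : ℂ} (h : z ∈ tri p (-1)) : z.re ≤ p.re ∧ p.re - 1 ≤ z.re ∧ z.im ≤ p.im ∧
    (z.im = p.im ∨ z = p - w) := by
  have := s3pos
  simp only [tri, mem_insert_iff, mem_singleton_iff] at h
  rcases h with rfl | rfl | rfl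
  · simp
  · simp
  · refine ⟨?_, ?_, ?_, Or.inr (by ring)⟩
    · simp [w_re]
    · simp [w_re]; linarith
    · simp [w_im]; positivity

lemma not_three (hB : Cx B) {v : ℂ} {X Y Z : Set ℂ} (hX : X ∈ B) (hY : Y ∈ B) (hZ : Z ∈ B)
    (qX : IsSq X) (qY : IsSq Y) (qZ : IsSq Z) (vX : v ∈ X) (vY : v ∈ Y) (vZ : v ∈ Z)
    (hXY : X ≠ Y) (hXZ : X ≠ Z) (hYZ : Y ≠ Z) : False := by
  have h := hB.sq2 X hX v vX
  have hsub : ({X, Y, Z} : Set (Set ℂ)) ⊆ {V ∈ B | IsSq V ∧ v ∈ V} := by
    rintro V (rfl | rfl | rfl)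
    · exact ⟨hX, qX, vX⟩
    · exact ⟨hY, qY, vY⟩
    · exact ⟨hZ, qZ, vZ⟩
  have h1 := ncard_le_ncard hsub (hB.fin.subset fun V hV => hV.1)
  have h2 : ({X, Y, Z} : Set (Set ℂ)).ncard = 3 := by
    rw [ncard_insert_of_notMem, ncard_pair hYZ]
    simp only [mem_insert_iff, mem_singleton_iff, not_or]
    exact ⟨hXY, hXZ⟩
  unfold sqsAt at h
  omega

lemma not_four (hB : Cx B) {v : ℂ} {X Y Z U : Set ℂ} (hX : X ∈ B) (hY : Y ∈ B) (hZ : Z ∈ B)
    (hU : U ∈ B) (qX : IsTri X) (qY : IsTri Y) (qZ : IsTri Z) (qU : IsTri U)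
    (vX : v ∈ X) (vY : v ∈ Y) (vZ : v ∈ Z) (vU : v ∈ U)
    (hXY : X ≠ Y) (hXZ : X ≠ Z) (hXU : X ≠ U) (hYZ : Y ≠ Z) (hYU : Y ≠ U) (hZU : Z ≠ U) :
    False := by
  have h := hB.tri3 X hX v vX
  have hsub : ({X, Y, Z, U} : Set (Set ℂ)) ⊆ {V ∈ B | IsTri V ∧ v ∈ V} := by
    rintro V (rfl | rfl | rfl | rfl)
    · exact ⟨hX, qX, vX⟩
    · exact ⟨hY, qY, vY⟩
    · exact ⟨hZ, qZ, vZ⟩
    · exact ⟨hU, qU, vU⟩
  have h1 := ncard_le_ncard hsub (hB.fin.subset fun V hV => hV.1)
  have h2 : ({X, Y, Z, U} : Set (Set ℂ)).ncard = 4 := by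
    rw [ncard_insert_of_notMem, ncard_insert_of_notMem, ncard_pair hZU]
    · simp only [mem_insert_iff, mem_singleton_iff, not_or]
      exact ⟨hYZ, hYU⟩
    · simp only [mem_insert_iff, mem_singleton_iff, not_or]
      exact ⟨hXY, hXZ, hXU⟩
  unfold trisAt at h
  omega

lemma isSq1 (p : ℂ) : IsSq (sq p 1) := ⟨p, 1, by simp, rfl⟩
lemma isTri1 (p : ℂ) : IsTri (tri p 1) := ⟨p, 1, by simp, rfl⟩
lemma isTrin (p : ℂ) : IsTri (tri p (-1)) := ⟨p, -1, by simp, rfl⟩

/-! ### Rows -/

/-- a row of squares -/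
def SRow (B : Set (Set ℂ)) (v : ℂ) (n : ℕ) : Prop := ∀ i : ℕ, i < n → sq (v + i) 1 ∈ B

/-- the line above a row of triangles -/
def TB (B : Set (Set ℂ)) (v : ℂ) (m : ℕ) : Prop :=
  (∀ i : ℕ, i < m → tri (v + i + 1) (-1) ∈ B) ∧ (∀ i : ℕ, i ≤ m → tri (v + i - w) 1 ∈ B)

lemma SRow_up (hB : Cx B) {v : ℂ} {n : ℕ} (h : SRow B v n) (hn : 2 ≤ n) {z : ℂ}
    (hz : z ∈ region B) (hzv : v.im + 1 < z.im) : TB B (v + Complex.I + w) (n - 1) := by
  have hs := s3pos
  have hsqn : ∀ i : ℕ, sq (v + i) 1 = sq (v + i + 1 + Complex.I) (-1) := by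
    intro i
    rw [← sq_rot2 (v + i) 1]; congr 1; ring
  -- triangles above
  have hT : ∀ i : ℕ, i < n → tri (v + i + Complex.I) 1 ∈ B := by
    intro i hi
    obtain ⟨X, hX, hXl⟩ := cross hB (p := v + i + 1 + Complex.I) (u := -1) (by simp) (h i hi)
      (Or.inr (hsqn i)) hz (by rw [ell_eq]; simp; linarith)
    have e1 : v + i + 1 + Complex.I + -1 = v + i + Complex.I := by ring
    have e2 : - -(1 : ℂ) = 1 := by ring
    rw [e1, e2] at hXl
    rcases hXl with hXl | hXl
    · rwa [hXl] at hX
    · exfalso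
      rw [hXl] at hX
      rcases Nat.eq_zero_or_pos i with h0 | h0
      · subst h0
        have a1 := h 0 (by omega)
        have a2 := h 1 (by omega)
        refine not_three hB (v := v + 1 + Complex.I) a1 a2 hX (isSq1 _) (isSq1 _) (isSq1 _) ?_ ?_ ?_
          ?_ ?_ ?_
        · simp [sq]
        · simp [sq]
        · simp only [sq, mem_insert_iff, mem_singleton_iff]; right; left
          push_cast; ring
        · refine ne_of_mem (z := v + ((0 : ℕ) : ℂ)) (by simp [sq]) fun hc => ?_
          have := (sq_bounds hc).1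
          simp at this
          linarith
        · refine ne_of_mem (z := v + ((0 : ℕ) : ℂ)) (by simp [sq]) fun hc => ?_
          have := (sq_bounds hc).2.2.1
          simp at this
          linarith
        · refine ne_of_mem (z := v + ((1 : ℕ) : ℂ)) (by simp [sq]) fun hc => ?_
          have := (sq_bounds hc).2.2.1
          simp at this
          linarith
      · obtain ⟨j, rfl⟩ : ∃ j, i = j + 1 := ⟨i - 1, by omega⟩
        have a1 := h j (by omega)
        have a2 := h (j + 1) (by omega)
        refine not_three hB (v := v + j + 1 + Complex.I) a1 a2 hX (isSq1 _) (isSq1 _) (isSq1 _)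
          ?_ ?_ ?_ ?_ ?_ ?_
        · simp [sq]
        · simp only [sq, mem_insert_iff, mem_singleton_iff]; right; right; right
          push_cast; ring
        · simp only [sq, mem_insert_iff, mem_singleton_iff]; left
          push_cast; ring
        · refine ne_of_mem (z := v + j) (by simp [sq]) fun hc => ?_
          have := (sq_bounds hc).1
          simp at this
          linarith
        · refine ne_of_mem (z := v + j) (by simp [sq]) fun hc => ?_
          have := (sq_bounds hc).2.2.1
          simp at this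
          linarith
        · refine ne_of_mem (z := v + ((j + 1 : ℕ) : ℂ)) (by simp [sq]) fun hc => ?_
          have := (sq_bounds hc).2.2.1
          simp at this
          linarith
  -- inverted triangles
  have hI : ∀ i : ℕ, i + 1 < n → tri (v + (i + 1) + Complex.I) w ∈ B := by
    intro i hi
    have h1 := hT i (by omega)
    have h2 := hT (i + 1) hi
    have e1 : tri (v + i + Complex.I) 1 = tri (v + (i + 1) + Complex.I) (w - 1) := by
      rw [← tri_rot (v + i + Complex.I) 1]; congr 1 <;> ring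
    have h3 : v + (i + 1) + Complex.I + 1 ∈ tri (v + ((i + 1 : ℕ) : ℂ) + Complex.I) 1 := by
      simp [tri]
    obtain ⟨X, hX, hXl⟩ := cross hB (p := v + (i + 1) + Complex.I) (u := w - 1) norm_w1 h1
      (Or.inl e1) (mem_region' h2 h3) (by
        rw [ell_eq]
        simp [w_re, w_im])
    rcases hXl with hXl | hXl
    · have e2 : tri (v + (i + 1) + Complex.I + (w - 1)) (-(w - 1)) = tri (v + (i + 1) + Complex.I) w := by
        rw [← tri_rot' (v + (i + 1) + Complex.I) w, w_mul]
      rw [e2] at hXl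
      rwa [hXl] at hX
    · exfalso
      rw [hXl] at hX
      have a1 := h i (by omega)
      have a2 := h (i + 1) hi
      refine not_three hB (v := v + (i + 1) + Complex.I) a1 a2 hX (isSq1 _) (isSq1 _)
        ⟨_, _, by rw [norm_neg]; exact norm_w1, rfl⟩ ?_ ?_ ?_ ?_ ?_ ?_
      · simp only [sq, mem_insert_iff, mem_singleton_iff]; right; right; left
        ring
      · simp only [sq, mem_insert_iff, mem_singleton_iff]; right; right; right
        push_cast; ring
      · simp only [sq, mem_insert_iff, mem_singleton_iff]; right; left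
        ring
      · refine ne_of_mem (z := v + i) (by simp [sq]) fun hc => ?_
        have := (sq_bounds hc).1
        simp at this
        linarith
      · refine (ne_of_mem (z := v + (i + 1) + Complex.I + (w - 1)) (by simp [sq]) fun hc => ?_).symm
        have := (sq_bounds hc).2.2.2
        simp [w_im] at this
        linarith
      · refine (ne_of_mem (z := v + (i + 1) + Complex.I + (w - 1)) (by simp [sq]) fun hc => ?_).symm
        have := (sq_bounds hc).2.2.2
        simp [w_im] at this
        linarith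
  constructor
  · intro i hi
    have h1 := hI i (by omega)
    have e : tri (v + Complex.I + w + i + 1) (-1) = tri (v + (i + 1) + Complex.I) w := by
      rw [← tri_rot (v + (i + 1) + Complex.I) w]
      congr 1
      · ring
      · linear_combination (-1 : ℂ) * w_mul
    rw [e]; exact h1
  · intro i hi
    have h1 := hT i (by omega)
    have e : v + Complex.I + w + i - w = v + i + Complex.I := by ring
    rw [e]; exact h1

lemma TB_up (hB : Cx B) {v : ℂ} {m : ℕ} (h : TB B v m) (hm : 2 ≤ m) {z : ℂ}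
    (hz : z ∈ region B) (hzv : v.im < z.im) : SRow B v m := by
  have hs := s3pos
  intro i hi
  obtain ⟨X, hX, hXl⟩ := cross hB (p := v + i + 1) (u := -1) (by simp) (h.1 i hi)
    (Or.inl rfl) hz (by rw [ell_eq]; simp; linarith)
  have e1 : v + i + 1 + -1 = v + i := by ring
  have e2 : - -(1 : ℂ) = 1 := by ring
  rw [e1, e2] at hXl
  rcases hXl with hXl | hXl
  · exfalso
    rw [hXl] at hX
    -- the four triangles at a vertex
    have key : ∀ j : ℕ, j + 1 < m → (i = j ∨ i = j + 1) → False := by
      intro j hj hij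
      have a1 := h.1 j (by omega)
      have a2 := h.1 (j + 1) hj
      have a3 := h.2 (j + 1) (by omega)
      have d12 : tri (v + j + 1) (-1) ≠ tri (v + ((j + 1 : ℕ) : ℂ) + 1) (-1) := by
        refine ne_of_mem (z := v + j) (by simp [tri]) fun hc => ?_
        have := (trin_bounds hc).2.1
        simp at this
        linarith
      have d13 : tri (v + j + 1) (-1) ≠ tri (v + ((j + 1 : ℕ) : ℂ) - w) 1 := by
        refine ne_of_mem (z := v + j) (by simp [tri]) fun hc => ?_
        have := (tri_bounds hc).1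
        simp [w_re] at this
        linarith
      have d23 : tri (v + ((j + 1 : ℕ) : ℂ) + 1) (-1) ≠ tri (v + ((j + 1 : ℕ) : ℂ) - w) 1 := by
        refine ne_of_mem (z := v + ((j + 1 : ℕ) : ℂ) + 1) (by simp [tri]) fun hc => ?_
        have := (tri_bounds hc).2.1
        simp [w_re] at this
        linarith
      have hw1 : v + i + w ∈ tri (v + i) 1 := by simp [tri]
      have d1 : tri (v + i) 1 ≠ tri (v + j + 1) (-1) := by
        refine ne_of_mem hw1 fun hc => ?_
        have := (trin_bounds hc).2.2.1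
        simp [w_im] at this
        linarith
      have d2 : tri (v + i) 1 ≠ tri (v + ((j + 1 : ℕ) : ℂ) + 1) (-1) := by
        refine ne_of_mem hw1 fun hc => ?_
        have := (trin_bounds hc).2.2.1
        simp [w_im] at this
        linarith
      have d3 : tri (v + i) 1 ≠ tri (v + ((j + 1 : ℕ) : ℂ) - w) 1 := by
        refine ne_of_mem hw1 fun hc => ?_
        rcases (tri_bounds hc).2.2.2 with h5 | h5
        · simp [w_im] at h5
          linarith
        · have := congrArg Complex.im h5
          simp [w_im] at this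
      refine not_four hB (v := v + j + 1) a1 a2 a3 hX (isTrin _) (isTrin _) (isTri1 _) (isTri1 _)
        ?_ ?_ ?_ ?_ d12 d13 d1.symm d23 d2.symm d3.symm
      · simp [tri]
      · simp only [tri, mem_insert_iff, mem_singleton_iff]; right; left
        push_cast; ring
      · simp only [tri, mem_insert_iff, mem_singleton_iff]; right; right
        push_cast; ring
      · rcases hij with rfl | rfl
        · simp [tri]
        · simp only [tri, mem_insert_iff, mem_singleton_iff]; left
          push_cast; ring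
    rcases Nat.eq_zero_or_pos i with h0 | h0
    · exact key 0 (by omega) (Or.inl h0)
    · exact key (i - 1) (by omega) (Or.inr (by omega))
  · rwa [hXl] at hX

/-- two rows up -/
lemma SRow_step (hB : Cx B) {v : ℂ} {n : ℕ} (h : SRow B v n) (hn : 3 ≤ n) {z : ℂ}
    (hz : z ∈ region B) (hzv : v.im + 2 < z.im) : SRow B (v + Complex.I + w) (n - 1) := by
  have hs := s3lt
  have h1 := SRow_up hB h (by omega) hz (by linarith)
  refine TB_up hB h1 (by omega) hz ?_
  simp [w_im]
  linarith

/-- the row at the bottom -/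
lemma bottom (hB : Cx B) (hup : ∀ z ∈ region B, 0 ≤ z.im) {a : ℂ} (ha : a.im = 0) {n : ℕ}
    (h : ∀ i : ℕ, i < n → ∃ V ∈ B, LTile (a + i) 1 V) :
    SRow B a n ∨ ∀ i : ℕ, i < n → tri (a + i) 1 ∈ B ∧ (0 < i → tri (a + i) w ∈ B) := by
  rcases Nat.eq_zero_or_pos n with h0 | h0
  · left; intro i hi; omega
  obtain ⟨V, hV, hl⟩ := h 0 h0
  rcases hl with hl | hl
  · right
    intro i
    induction i with
    | zero => intro _; exact ⟨hl ▸ hV, fun h => absurd h (by omega)⟩
    | succ i ih =>
      intro hi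
      obtain ⟨W, hW, hWl⟩ := h (i + 1) hi
      have e : a + ((i + 1 : ℕ) : ℂ) - 1 = a + i := by push_cast; ring
      have h1 := fan_tri hB hup (v := a + ((i + 1 : ℕ) : ℂ)) (z := a + ((i + 1 : ℕ) : ℂ) + 1)
        (by simp [ha]) (by rw [e]; exact (ih (by omega)).1) (mem_region' hW hWl.mem_q)
        (by simp)
      exact ⟨h1.1, fun _ => h1.2⟩
  · left
    intro i
    induction i with
    | zero => intro _; exact hl ▸ hV
    | succ i ih =>
      intro hi
      obtain ⟨W, hW, hWl⟩ := h (i + 1) hi
      have e : a + ((i + 1 : ℕ) : ℂ) - 1 = a + i := by push_cast; ring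
      exact fan_sq hB hup (v := a + ((i + 1 : ℕ) : ℂ)) (z := a + ((i + 1 : ℕ) : ℂ) + 1)
        (by simp [ha]) (by rw [e]; exact ih (by omega)) (mem_region' hW hWl.mem_q)
        (by simp)

/-- the first row of squares -/
lemma bottom' (hB : Cx B) (hup : ∀ z ∈ region B, 0 ≤ z.im) {a : ℂ} (ha : a.im = 0) {n : ℕ}
    (hn : 3 ≤ n) (h : ∀ i : ℕ, i < n → ∃ V ∈ B, LTile (a + i) 1 V) {z : ℂ}
    (hz : z ∈ region B) (hzv : 1 < z.im) :
    ∃ δ : ℕ, δ ≤ 1 ∧ SRow B (a + δ * w) (n - δ) := by
  rcases bottom hB hup ha h with h1 | h1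
  · exact ⟨0, by omega, by simpa using h1⟩
  · refine ⟨1, le_rfl, ?_⟩
    have hs := s3lt
    have e0 : a + ((1 : ℕ) : ℂ) * w = a + w := by push_cast; ring
    rw [e0]
    refine TB_up hB ⟨?_, ?_⟩ (by omega) hz (by simp [ha, w_im]; linarith)
    · intro i hi
      have h2 := (h1 (i + 1) (by omega)).2 (by omega)
      have e : tri (a + w + i + 1) (-1) = tri (a + ((i + 1 : ℕ) : ℂ)) w := by
        rw [← tri_rot (a + ((i + 1 : ℕ) : ℂ)) w]
        congr 1
        · push_cast; ring
        · linear_combination (-1 : ℂ) * w_mul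
      rw [e]; exact h2
    · intro i hi
      have h2 := (h1 i (by omega)).1
      have e : a + w + i - w = a + i := by ring
      rw [e]; exact h2

end Pool.Agent.Q281.TS
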