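import Pool.Agent.Q281.TS.Row

namespace Pool.Agent.Q281.TS

open Set MeasureTheory

variable {B : Set (Set ℂ)}

lemma verts_finite (hB : Cx B) : (⋃₀ B).Finite :=
  hB.fin.sUnion fun V hV => tile_finite (hB.tile V hV)

lemma region_sub (S : Set ℂ) (hS : Convex ℝ S) (h : ∀ V ∈ B, ∀ v ∈ V, v ∈ S) : region B ⊆ S := by
  intro z hz
  simp only [region, mem_iUnion] at hz
  obtain ⟨V, hV, hz⟩ := hz
  exact convexHull_min (h V hV) hS hz

/-- a vertex on the axis, to the right (`s = 1`) or to the left (`s = -1`) of the origin -/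
lemma tangent (hB : Cx B) (hup : ∀ z ∈ region B, 0 ≤ z.im) {r : ℝ} (hr : 0 < r)
    (hball : Metric.closedBall (r * Complex.I) r ⊆ region B) (s : ℝ) (hs : s = 1 ∨ s = -1) :
    ∃ V ∈ B, ∃ v ∈ V, v.im = 0 ∧ 0 < s * v.re := by
  by_contra hcon
  push Not at hcon
  obtain ⟨C, hC⟩ : ∃ C : ℝ, ∀ v ∈ ⋃₀ B, s * v.re / v.im ≤ C := by
    obtain ⟨C, hC⟩ := ((verts_finite hB).image fun v => s * v.re / v.im).bddAbove
    exact ⟨C, fun v hv => hC ⟨v, hv, rfl⟩⟩
  set D : ℝ := max C 1 with hD
  have hD1 : 1 ≤ D := le_max_right _ _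
  have hsub : region B ⊆ {z | s * z.re ≤ D * z.im} := by
    refine region_sub _ ?_ ?_
    · intro x hx y hy a b ha hb hab
      simp only [mem_ofPred_eq] at *
      simp only [Complex.add_re, Complex.add_im, Complex.real_smul, Complex.mul_re, Complex.mul_im,
        Complex.ofReal_re, Complex.ofReal_im, zero_mul, sub_zero, add_zero]
      nlinarith [mul_le_mul_of_nonneg_left hx ha, mul_le_mul_of_nonneg_left hy hb]
    · intro V hV v hv
      simp only [mem_ofPred_eq]
      have h0 := hup v (mem_region' hV hv)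
      rcases eq_or_lt_of_le h0 with h1 | h1
      · rw [← h1, mul_zero]
        exact hcon V hV v hv h1.symm
      · have h2 := hC v ⟨V, hV, hv⟩
        rw [div_le_iff₀ h1] at h2
        have h3 : C * v.im ≤ D * v.im := mul_le_mul_of_nonneg_right (le_max_left _ _) h0
        linarith
  set t : ℝ := r / (2 * D) with ht
  have htpos : 0 < t := by positivity
  have htr : t ≤ r := by
    rw [ht, div_le_iff₀ (by positivity)]
    nlinarith
  have hss : s * s = 1 := by rcases hs with rfl | rfl <;> norm_num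
  have hz : (⟨s * t, t * t / r⟩ : ℂ) ∈ Metric.closedBall ((r : ℂ) * Complex.I) r := by
    rw [Metric.mem_closedBall, Complex.dist_eq]
    refine abs_le_of_sq_le_sq' ?_ hr.le |>.2
    rw [Complex.sq_norm, Complex.normSq_apply]
    simp only [Complex.sub_re, Complex.sub_im, Complex.mul_re, Complex.mul_im, Complex.ofReal_re,
      Complex.ofReal_im, Complex.I_re, Complex.I_im, mul_zero, mul_one, zero_mul, sub_zero,
      zero_add, add_zero]
    have h1 : t * t / r = t * (t / r) := by ring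
    have h2 : t / r ≤ 1 := by rw [div_le_one hr]; exact htr
    have h3 : 0 ≤ t / r := by positivity
    have h4 : r * (t / r) = t := by field_simp
    have h5 : (t * t / r) * (t * t / r) ≤ t * t := by
      rw [h1]
      have : (t / r) * (t / r) ≤ 1 := by nlinarith
      nlinarith [mul_pos htpos htpos]
    have h6 : (t * t / r) * r = t * t := by field_simp
    nlinarith
  have h7 := hsub (hball hz)
  simp only [mem_ofPred_eq] at h7
  have h8 : D * (t * t / r) = t / 2 := by
    rw [ht]; field_simp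
  rw [h8, ← mul_assoc, hss] at h7
  linarith

lemma im_lin : ∃ f : ℂ →ₗ[ℝ] ℝ, ∀ z, f z = z.im := ⟨Complex.imLm, fun _ => rfl⟩

/-- the tile on the left of a vertex on the axis -/
lemma left_tile (hB : Cx B) (hup : ∀ z ∈ region B, 0 ≤ z.im) {v a : ℂ}
    (hv : v ∈ ⋃₀ B) (hv0 : v.im = 0) (ha : a ∈ ⋃₀ B) (ha0 : a.im = 0) (hav : a.re < v.re) :
    ∃ V ∈ B, LTile (v - 1) 1 V := by
  -- the last vertex before `v`
  obtain ⟨c, ⟨hc, hc0, hcv⟩, hcmax⟩ : ∃ c ∈ {x ∈ ⋃₀ B | x.im = 0 ∧ x.re < v.re},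
      ∀ x ∈ {x ∈ ⋃₀ B | x.im = 0 ∧ x.re < v.re}, x.re ≤ c.re :=
    Set.exists_max_image _ Complex.re ((verts_finite hB).subset fun x hx => hx.1) ⟨a, ha, ha0, hav⟩
  set m : ℂ := (1 / 2 : ℝ) • c + (1 / 2 : ℝ) • v with hm
  have hmK : m ∈ region B := by
    obtain ⟨V, hV, h1⟩ := hc
    obtain ⟨W, hW, h2⟩ := hv
    exact hB.conv (mem_region' hV h1) (mem_region' hW h2) (by norm_num) (by norm_num) (by norm_num)
  have hm0 : m.im = 0 := by simp [hm, hc0, hv0]
  have hmre : m.re = (c.re + v.re) / 2 := by simp [hm]; ring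
  simp only [region, mem_iUnion] at hmK
  obtain ⟨V, hV, hmV⟩ := hmK
  obtain ⟨f, hf⟩ := im_lin
  have hface := face V f 0 (fun x hx => by rw [hf]; exact hup x (mem_region' hV hx)) hmV
    (by rw [hf, hm0])
  have hV0 : ∀ x ∈ {x ∈ V | f x = 0}, x ∈ ⋃₀ B ∧ x.im = 0 := fun x hx =>
    ⟨⟨V, hV, hx.1⟩, by rw [← hf]; exact hx.2⟩
  obtain ⟨d1, hd1, hd1m⟩ : ∃ d ∈ {x ∈ V | f x = 0}, d.re ≤ m.re := by
    by_contra hcon
    push Not at hcon
    have h1 : convexHull ℝ {x ∈ V | f x = 0} ⊆ {z | m.re < z.re} :=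
      convexHull_min hcon (convex_halfSpace_re_gt _)
    exact lt_irrefl m.re (h1 hface)
  obtain ⟨d2, hd2, hd2m⟩ : ∃ d ∈ {x ∈ V | f x = 0}, m.re ≤ d.re := by
    by_contra hcon
    push Not at hcon
    have h1 : convexHull ℝ {x ∈ V | f x = 0} ⊆ {z | z.re < m.re} :=
      convexHull_min hcon (convex_halfSpace_re_lt _)
    exact lt_irrefl m.re (h1 hface)
  have k1 : d1.re ≤ c.re := hcmax d1 ⟨(hV0 d1 hd1).1, (hV0 d1 hd1).2, by linarith⟩
  have k2 : v.re ≤ d2.re := by
    by_contra hcon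
    have := hcmax d2 ⟨(hV0 d2 hd2).1, (hV0 d2 hd2).2, by linarith⟩
    linarith
  have i1 := (hV0 d1 hd1).2
  have i2 := (hV0 d2 hd2).2
  have hd12 : d1.re < d2.re := by linarith
  -- the distance is one
  have hdist : ‖d1 - d2‖ = 1 := by
    rcases hB.tile V hV with ⟨p, u, hu, rfl⟩ | ⟨p, u, hu, rfl⟩
    · have hne : d1 ≠ d2 := by rintro rfl; exact lt_irrefl _ hd12
      obtain ⟨y, hy, h⟩ := tri_vertex hu hd1.1
      have h2 := hd2.1
      rw [h] at h2
      simp only [tri, mem_insert_iff, mem_singleton_iff] at h2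
      rcases h2 with h2 | h2 | h2
      · exact absurd h2.symm hne
      · have : d1 - d2 = -y := by rw [h2]; ring
        rw [this, norm_neg, hy]
      · have : d1 - d2 = -(w * y) := by rw [h2]; ring
        rw [this, norm_neg, norm_mul, norm_w, hy, one_mul]
    · obtain ⟨y, hy, h⟩ := sq_vertex hu hd1.1
      have h2 := hd2.1
      have g1 : d1 + y ∈ sq p u := by rw [h]; simp [sq]
      have g2 : d1 + Complex.I * y ∈ sq p u := by rw [h]; simp [sq]
      have g1' := hup _ (mem_region' hV g1)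
      have g2' := hup _ (mem_region' hV g2)
      rw [h] at h2
      simp only [sq, mem_insert_iff, mem_singleton_iff] at h2
      rcases h2 with h2 | h2 | h2 | h2
      · rw [h2] at hd12; exact absurd hd12 (lt_irrefl _)
      · have : d1 - d2 = -y := by rw [h2]; ring
        rw [this, norm_neg, hy]
      · exfalso
        have e1 : d2.im = d1.im + y.im + y.re := by rw [h2]; simp
        simp [i1] at g1' g2'
        have : y.im = 0 := by linarith
        have h3 : y.re = 0 := by linarith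
        have h4 : y = 0 := Complex.ext h3 this
        rw [h4] at hy
        simp at hy
      · have : d1 - d2 = -(Complex.I * y) := by rw [h2]; ring
        rw [this, norm_neg, norm_I_mul hy]
  have hd21 : d2 = d1 + 1 := by
    have e : d1 - d2 = ((d1.re - d2.re : ℝ) : ℂ) := by
      apply Complex.ext <;> simp [i1, i2]
    rw [e, Complex.norm_real, Real.norm_eq_abs, abs_of_neg (by linarith)] at hdist
    apply Complex.ext
    · simp; linarith
    · simp [i1, i2]
  have hLT : LTile d1 1 V := by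
    rcases class_tile (hB.tile V hV) hd1.1 hd2.1 hdist with h | h
    · have : d2 - d1 = 1 := by rw [hd21]; ring
      rwa [this] at h
    · exfalso
      have e : d1 - d2 = -1 := by rw [hd21]; ring
      rw [e] at h
      have h5 := hup _ (mem_region hV h.mem_center)
      have := s3pos
      simp [i2, w_im] at h5
      linarith
  -- `v` is a vertex of this tile
  have hvV : v ∈ V := by
    obtain ⟨W, hW, h2⟩ := hv
    refine vert (hB.tile W hW) (fun hne => hB.edge W hW V hV hne) h2 ?_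
    have hseg : segment ℝ d1 d2 ⊆ convexHull ℝ V :=
      (convex_convexHull ℝ V).segment_subset (subset_convexHull ℝ _ hd1.1)
        (subset_convexHull ℝ _ hd2.1)
    refine hseg ⟨d2.re - v.re, v.re - d1.re, by linarith, by linarith, ?_, ?_⟩
    · rw [hd21]; simp
    · apply Complex.ext
      · simp [hd21]; ring
      · simp [hd21, i1, hv0]
  have h3 := (hLT.pos (by simp) hvV).2 (by simp [ell, hv0, i1])
  rcases h3 with h3 | h3
  · rw [h3] at hcv
    linarith
  · refine ⟨V, hV, ?_⟩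
    have : v - 1 = d1 := by rw [h3]; ring
    rwa [this]

/-- The structure of the side on the axis. -/
lemma side (hB : Cx B) (hup : ∀ z ∈ region B, 0 ≤ z.im) {r : ℝ} (hr : 0 < r)
    (hball : Metric.closedBall (r * Complex.I) r ⊆ region B) :
    ∃ a : ℂ, ∃ n : ℕ, a.im = 0 ∧ a.re ≤ -((2 - Real.sqrt 3) * r) ∧
      (2 - Real.sqrt 3) * r ≤ a.re + n ∧ ∀ i : ℕ, i < n → ∃ V ∈ B, LTile (a + i) 1 V := by
  have hs := s3pos
  have hlt := s3lt
  obtain ⟨V₁, hV₁, v₁, hv₁, hv₁0, hv₁r⟩ := tangent hB hup hr hball 1 (Or.inl rfl)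
  obtain ⟨V₂, hV₂, v₂, hv₂, hv₂0, hv₂r⟩ := tangent hB hup hr hball (-1) (Or.inr rfl)
  have hfin : {x ∈ ⋃₀ B | x.im = 0}.Finite := (verts_finite hB).subset fun x hx => hx.1
  obtain ⟨b, ⟨hb, hb0⟩, hbmax⟩ : ∃ c ∈ {x ∈ ⋃₀ B | x.im = 0},
      ∀ x ∈ {x ∈ ⋃₀ B | x.im = 0}, x.re ≤ c.re :=
    Set.exists_max_image _ Complex.re hfin ⟨v₁, ⟨V₁, hV₁, hv₁⟩, hv₁0⟩
  obtain ⟨a, ⟨ha, ha0⟩, hamin⟩ : ∃ c ∈ {x ∈ ⋃₀ B | x.im = 0},
      ∀ x ∈ {x ∈ ⋃₀ B | x.im = 0}, c.re ≤ x.re :=
    Set.exists_min_image _ Complex.re hfin ⟨v₁, ⟨V₁, hV₁, hv₁⟩, hv₁0⟩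
  have hb1 : 0 < b.re := by
    have := hbmax v₁ ⟨⟨V₁, hV₁, hv₁⟩, hv₁0⟩
    linarith
  have ha1 : a.re < 0 := by
    have := hamin v₂ ⟨⟨V₂, hV₂, hv₂⟩, hv₂0⟩
    linarith
  -- walking from `b` to `a`
  have walk : ∀ k : ℕ, (k : ℝ) ≤ b.re - a.re → b - k ∈ ⋃₀ B := by
    intro k
    induction k with
    | zero => intro _; simpa using hb
    | succ k ih =>
      intro hk
      push_cast at hk
      have h1 := ih (by linarith)
      obtain ⟨V, hV, hl⟩ := left_tile hB hup (v := b - k) (a := a) h1 (by simp [hb0]) ha ha0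
        (by simp; linarith)
      refine ⟨V, hV, ?_⟩
      have : b - ((k + 1 : ℕ) : ℂ) = b - k - 1 := by push_cast; ring
      rw [this]
      exact hl.mem_p
  set n : ℕ := ⌊b.re - a.re⌋₊ with hn
  have hn1 : (n : ℝ) ≤ b.re - a.re := Nat.floor_le (by linarith)
  have hn2 : b.re - a.re < n + 1 := Nat.lt_floor_add_one _
  have han : a = b - n := by
    have h1 := walk n hn1
    rcases eq_or_lt_of_le (hamin (b - n) ⟨h1, by simp [hb0]⟩) with h2 | h2
    · apply Complex.ext
      · exact h2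
      · simp [ha0, hb0]
    · exfalso
      obtain ⟨V, hV, hl⟩ := left_tile hB hup (v := b - n) (a := a) h1 (by simp [hb0]) ha ha0 h2
      have h3 := hamin (b - n - 1) ⟨⟨V, hV, hl.mem_p⟩, by simp [hb0]⟩
      simp at h3
      linarith
  have hban : b = a + n := by rw [han]; ring
  have tiles : ∀ i : ℕ, i < n → ∃ V ∈ B, LTile (a + i) 1 V := by
    intro i hi
    have h1 := walk (n - (i + 1)) (by
      have : (((n - (i + 1) : ℕ)) : ℝ) = n - (i + 1) := by
        rw [Nat.cast_sub (by omega)]; push_cast; ring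
      rw [this]
      have : (0 : ℝ) ≤ i := Nat.cast_nonneg i
      linarith)
    have e : b - ((n - (i + 1) : ℕ) : ℂ) = a + i + 1 := by
      rw [Nat.cast_sub (by omega), hban]; push_cast; ring
    rw [e] at h1
    obtain ⟨V, hV, hl⟩ := left_tile hB hup (v := a + i + 1) (a := a) h1 (by simp [ha0]) ha ha0
      (by simp; have : (0 : ℝ) ≤ i := Nat.cast_nonneg i
          linarith)
    refine ⟨V, hV, ?_⟩
    have e2 : a + i + 1 - 1 = a + i := by ring
    rwa [e2] at hl
  -- the corners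
  have cornerb : ∀ z ∈ region B, (z - b).re ≤ Real.sqrt 3 * (z - b).im := by
    intro z hz
    by_contra hcon
    push Not at hcon
    obtain ⟨V, hV, hl⟩ := left_tile hB hup hb hb0 ha ha0 (by linarith)
    have : b + 1 ∈ ⋃₀ B := by
      rcases hl with hl | hl
      · have h1 := (fan_tri hB hup hb0 (hl ▸ hV) hz hcon).1
        exact ⟨_, h1, by simp [tri]⟩
      · have h1 := fan_sq hB hup hb0 (hl ▸ hV) hz hcon
        exact ⟨_, h1, by simp [sq]⟩
    have h2 := hbmax _ ⟨this, by simp [hb0]⟩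
    simp at h2
    linarith
  have cornera : ∀ z ∈ region B, -(z - a).re ≤ Real.sqrt 3 * (z - a).im := by
    intro z hz
    by_contra hcon
    push Not at hcon
    have hn0 : 0 < n := by
      rcases Nat.eq_zero_or_pos n with h0 | h0
      · rw [h0] at hban
        rw [hban] at hb1
        simp at hb1
        linarith
      · exact h0
    obtain ⟨V, hV, hl⟩ := tiles 0 hn0
    have e : a + ((0 : ℕ) : ℂ) = a := by simp
    rw [e] at hl
    have h1 := fan_left hB hup ha0 hV hl hz hcon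
    -- `a - 1` is in the region, hence between two vertices on the axis
    simp only [region, mem_iUnion] at h1
    obtain ⟨W, hW, h1⟩ := h1
    obtain ⟨f, hf⟩ := im_lin
    have hface := face W f 0 (fun x hx => by rw [hf]; exact hup x (mem_region' hW hx)) h1
      (by rw [hf]; simp [ha0])
    have h2 : convexHull ℝ {x ∈ W | f x = 0} ⊆ {z | a.re ≤ z.re} := by
      refine convexHull_min (fun x hx => ?_) (convex_halfSpace_re_ge _)
      exact hamin x ⟨⟨W, hW, hx.1⟩, by rw [← hf]; exact hx.2⟩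
    have h3 := h2 hface
    simp at h3
    linarith
  have pt : ∀ d : ℂ, ‖d‖ = 1 → (r : ℂ) * Complex.I + r * d ∈ region B := by
    intro d hd
    apply hball
    rw [Metric.mem_closedBall, Complex.dist_eq]
    have : (r : ℂ) * Complex.I + r * d - r * Complex.I = r * d := by ring
    rw [this, norm_mul, hd, mul_one, Complex.norm_real, Real.norm_eq_abs, abs_of_pos hr]
  refine ⟨a, n, ha0, ?_, ?_, tiles⟩
  · have h1 := cornera _ (pt (w - 1 - 1 + Complex.I * 0 + (1 - w) + (1 - w)) ?_)
    · simp [w_re, w_im, ha0] at h1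
      nlinarith [s3]
    · have e : (w - 1 - 1 + Complex.I * 0 + (1 - w) + (1 - w)) = -w := by ring
      rw [e, norm_neg, norm_w]
  · have h1 := cornerb _ (pt (1 - w) ?_)
    · have h2 : b.re = a.re + n := by rw [hban]; simp
      simp [w_re, w_im, hb0] at h1
      rw [← h2]
      nlinarith [s3]
    · rw [← norm_neg]
      have : -(1 - w) = w - 1 := by ring
      rw [this, norm_w1]

end Pool.Agent.Q281.TS
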