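import Pool.Agent.Q281.TS.Check

/-!
The snub square tiling.
-/

namespace Pool.Agent.Q281.TS

open Set MeasureTheory

/-- the tile of type `t` in the cell `(i, j)` -/
noncomputable def tile (t : ℕ) (i j : ℤ) : Set ℂ := evs (tileL t i j)

/-- the snub square tiling -/
def snub : Set (Set ℂ) := {V | ∃ t : ℕ, t < 6 ∧ ∃ i j : ℤ, V = tile t i j}

/-! ### Translations -/

def sh (i j : ℤ) (q : V4) : V4 := (q.1 + 2 * i, q.2.1, q.2.2.1 + 2 * j, q.2.2.2)

lemma ev_sh (i j : ℤ) (q : V4) : ev (sh i j q) = mo 1 (pt i j) (ev q) := by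
  rw [mo_apply, one_mul]
  unfold ev pt sh
  apply Complex.ext
  · simp; ring
  · simp; ring

lemma vtx_sh (c : ℕ) (i j i' j' : ℤ) : vtx c (i + i') (j + j') = sh i' j' (vtx c i j) := by
  match c with
  | 0 => simp only [vtx, sh, Prod.mk.injEq]; refine ⟨by ring, trivial, by ring, trivial⟩
  | 1 => simp only [vtx, sh, Prod.mk.injEq]; refine ⟨by ring, trivial, by ring, trivial⟩
  | 2 => simp only [vtx, sh, Prod.mk.injEq]; refine ⟨by ring, trivial, by ring, trivial⟩
  | (n + 3) => simp only [vtx, sh, Prod.mk.injEq]; refine ⟨by ring, trivial, by ring, trivial⟩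

lemma tileL_sh (t : ℕ) (i j i' j' : ℤ) :
    tileL t (i + i') (j + j') = (tileL t i j).map (sh i' j') := by
  have e1 : i + i' + 1 = i + 1 + i' := by ring
  have e2 : j + j' + 1 = j + 1 + j' := by ring
  match t with
  | 0 => simp only [tileL, List.map_cons, List.map_nil, vtx_sh]
  | 1 => simp only [tileL, List.map_cons, List.map_nil, e1, e2, vtx_sh]
  | 2 => simp only [tileL, List.map_cons, List.map_nil, e1, vtx_sh]
  | 3 => simp only [tileL, List.map_cons, List.map_nil, e1, vtx_sh]
  | 4 => simp only [tileL, List.map_cons, List.map_nil, e2, vtx_sh]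
  | (n + 5) => simp only [tileL, List.map_cons, List.map_nil, e2, vtx_sh]

lemma evs_map (i j : ℤ) (V : List V4) : evs (V.map (sh i j)) = mo 1 (pt i j) '' evs V := by
  ext z
  simp only [evs, mem_ofPred_eq, List.mem_map, mem_image]
  constructor
  · rintro ⟨q, ⟨p, hp, rfl⟩, rfl⟩
    exact ⟨ev p, ⟨p, hp, rfl⟩, (ev_sh i j p).symm⟩
  · rintro ⟨_, ⟨p, hp, rfl⟩, rfl⟩
    exact ⟨sh i j p, ⟨p, hp, rfl⟩, (ev_sh i j p).symm⟩

lemma tile_sh (t : ℕ) (i j i' j' : ℤ) :
    tile t (i + i') (j + j') = mo 1 (pt i' j') '' tile t i j := by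
  unfold tile
  rw [tileL_sh, evs_map]

lemma tile_eq (t : ℕ) (i j : ℤ) : tile t i j = mo 1 (pt i j) '' tile t 0 0 := by
  rw [← tile_sh, zero_add, zero_add]

/-! ### The shape of the tiles -/

lemma I_pt (a b : ℝ) : Complex.I * pt a b = pt (-b) a := by
  unfold pt
  apply Complex.ext <;> simp

lemma w_pt (a b : ℝ) : w * pt a b = pt ((a - (2 - tau) * b) / 2) (((2 - tau) * a + b) / 2) := by
  have : Real.sqrt 3 = 2 - tau := by unfold tau; ring
  unfold pt
  apply Complex.ext
  · simp [w_re, w_im, this]; ring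
  · simp [w_re, w_im, this]; ring

lemma pt_add (a b c d : ℝ) : pt a b + pt c d = pt (a + c) (b + d) := by
  unfold pt
  apply Complex.ext
  · simp; ring
  · simp; ring

lemma norm_pt {a b : ℝ} (h : a * a + b * b = tau) : ‖pt a b‖ = 1 := by
  have h4 : ‖pt a b‖ ^ 2 = 1 := by
    rw [Complex.sq_norm, Complex.normSq_apply]
    simp only [pt]
    linear_combination (sc * sc) * h + tau_sc
  nlinarith [norm_nonneg (pt a b)]

lemma evs_three (a b c : V4) : evs [a, b, c] = {ev a, ev b, ev c} := by ext z; simp [evs]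
lemma evs_four (a b c d : V4) : evs [a, b, c, d] = {ev a, ev b, ev c, ev d} := by
  ext z; simp [evs]

lemma pt_congr {a b c d : ℝ} (h1 : a = c) (h2 : b = d) : pt a b = pt c d := by rw [h1, h2]

lemma shape0 : tile 0 0 0 = sq (pt 0 0) (pt (1 / 2) (tau / 2)) := by
  simp only [tile, tileL, sq]
  rw [evs_four, I_pt, pt_add, pt_add, pt_add]
  simp only [ev, vtx]
  congr 1
  · apply pt_congr <;> push_cast <;> ring
  congr 1
  · apply pt_congr <;> push_cast <;> ring
  congr 1
  · apply pt_congr <;> push_cast <;> ring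
  congr 1
  apply pt_congr <;> push_cast <;> ring

lemma shape1 : tile 1 0 0 = sq (pt ((1 - tau) / 2) ((1 + tau) / 2)) (pt (1 / 2) (-(tau / 2))) := by
  simp only [tile, tileL, sq]
  rw [evs_four, I_pt, pt_add, pt_add, pt_add]
  simp only [ev, vtx]
  congr 1
  · apply pt_congr <;> push_cast <;> ring
  congr 1
  · apply pt_congr <;> push_cast <;> ring
  congr 1
  · apply pt_congr <;> push_cast <;> ring
  congr 1
  apply pt_congr <;> push_cast <;> ring

lemma shape2 : tile 2 0 0 = tri (pt 1 0) (pt (-(tau / 2)) (1 / 2)) := by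
  have ht := tau_sq
  simp only [tile, tileL, tri]
  rw [evs_three, w_pt, pt_add, pt_add]
  simp only [ev, vtx]
  congr 1
  · apply pt_congr <;> push_cast <;> ring
  congr 1
  · apply pt_congr <;> push_cast <;> ring
  congr 1
  apply pt_congr <;> push_cast
  · ring
  · linear_combination (-1 / 4) * ht

lemma shape3 : tile 3 0 0 = tri (pt (1 / 2) (tau / 2)) (pt ((1 - tau) / 2) ((1 - tau) / 2)) := by
  have ht := tau_sq
  simp only [tile, tileL, tri]
  rw [evs_three, w_pt, pt_add, pt_add]
  simp only [ev, vtx]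
  congr 1
  · apply pt_congr <;> push_cast <;> ring
  congr 1
  · apply pt_congr <;> push_cast <;> ring
  congr 1
  apply pt_congr <;> push_cast
  · linear_combination (1 / 4) * ht
  · linear_combination (-1 / 4) * ht

lemma shape4 : tile 4 0 0 = tri (pt 0 1) (pt (-(tau / 2)) (-(1 / 2))) := by
  have ht := tau_sq
  simp only [tile, tileL, tri]
  rw [evs_three, w_pt, pt_add, pt_add]
  simp only [ev, vtx]
  congr 1
  · apply pt_congr <;> push_cast <;> ring
  congr 1
  · apply pt_congr <;> push_cast <;> ring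
  congr 1
  apply pt_congr <;> push_cast
  · ring
  · linear_combination (-1 / 4) * ht

lemma shape5 : tile 5 0 0 = tri (pt 0 1) (pt ((1 - tau) / 2) (-((1 - tau) / 2))) := by
  have ht := tau_sq
  simp only [tile, tileL, tri]
  rw [evs_three, w_pt, pt_add, pt_add]
  simp only [ev, vtx]
  congr 1
  · apply pt_congr <;> push_cast <;> ring
  congr 1
  · apply pt_congr <;> push_cast <;> ring
  congr 1
  apply pt_congr <;> push_cast
  · linear_combination (-1 / 4) * ht
  · linear_combination (-1 / 4) * ht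

lemma norms : ‖pt (1 / 2) (tau / 2)‖ = 1 ∧ ‖pt (1 / 2) (-(tau / 2))‖ = 1 ∧
    ‖pt (-(tau / 2)) (1 / 2)‖ = 1 ∧ ‖pt ((1 - tau) / 2) ((1 - tau) / 2)‖ = 1 ∧
    ‖pt (-(tau / 2)) (-(1 / 2))‖ = 1 ∧ ‖pt ((1 - tau) / 2) (-((1 - tau) / 2))‖ = 1 := by
  have ht := tau_sq
  refine ⟨norm_pt ?_, norm_pt ?_, norm_pt ?_, norm_pt ?_, norm_pt ?_, norm_pt ?_⟩
  · linear_combination (1 / 4) * ht
  · linear_combination (1 / 4) * ht
  · linear_combination (1 / 4) * ht
  · linear_combination (1 / 2) * ht
  · linear_combination (1 / 4) * ht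
  · linear_combination (1 / 2) * ht

lemma isSq_tile {t : ℕ} (ht : t < 2) (i j : ℤ) : IsSq (tile t i j) := by
  rw [tile_eq]
  refine isSq_mo (by simp) ?_
  interval_cases t
  · exact ⟨_, _, norms.1, shape0⟩
  · exact ⟨_, _, norms.2.1, shape1⟩

lemma isTri_tile {t : ℕ} (ht : 2 ≤ t) (ht' : t < 6) (i j : ℤ) : IsTri (tile t i j) := by
  rw [tile_eq]
  refine isTri_mo (by simp) ?_
  interval_cases t
  · exact ⟨_, _, norms.2.2.1, shape2⟩
  · exact ⟨_, _, norms.2.2.2.1, shape3⟩
  · exact ⟨_, _, norms.2.2.2.2.1, shape4⟩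
  · exact ⟨_, _, norms.2.2.2.2.2, shape5⟩

lemma tri_dist {p u a b : ℂ} (hu : ‖u‖ = 1) (ha : a ∈ tri p u) (hb : b ∈ tri p u) : ‖a - b‖ ≤ 1 := by
  obtain ⟨v, hv, h⟩ := tri_vertex hu ha
  rw [h] at hb
  simp only [tri, mem_insert_iff, mem_singleton_iff] at hb
  rcases hb with rfl | rfl | rfl
  · simp
  · have : a - (a + v) = -v := by ring
    rw [this, norm_neg, hv]
  · have : a - (a + w * v) = -(w * v) := by ring
    rw [this, norm_neg, norm_mul, norm_w, hv, one_mul]

lemma not_tri_sq {V : Set ℂ} (h1 : IsTri V) (h2 : IsSq V) : False := by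
  obtain ⟨p, u, hu, rfl⟩ := h1
  obtain ⟨c, v, hv, h⟩ := h2
  have a1 : c ∈ tri p u := by rw [h]; simp [sq]
  have a2 : c + v + Complex.I * v ∈ tri p u := by rw [h]; simp [sq]
  have h3 := tri_dist hu a1 a2
  have e : c - (c + v + Complex.I * v) = -(v + Complex.I * v) := by ring
  rw [e, norm_neg] at h3
  have h4 : ‖v + Complex.I * v‖ ^ 2 ≤ 1 := by nlinarith [norm_nonneg (v + Complex.I * v)]
  rw [Complex.sq_norm, Complex.normSq_apply] at h4
  have := normSq_u hv
  simp at h4
  nlinarith

/-! ### The cells -/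

def le' (p q : ℤ × ℤ) : Bool := decide (p = q) || lt' p q

lemma le'_sound {p q : ℤ × ℤ} (h : le' p q = true) : rv p ≤ rv q := by
  unfold le' at h
  rw [Bool.or_eq_true, decide_eq_true_eq] at h
  rcases h with rfl | h
  · exact le_rfl
  · exact (lt'_sound h).le

def allLe (k : ℕ) (V : List V4) (c : ℤ × ℤ) : Bool := V.all fun q => le' (val k q) c
def allGe (k : ℕ) (V : List V4) (c : ℤ × ℤ) : Bool := V.all fun q => le' c (val k q)

lemma allLe_sound {k : ℕ} {V : List V4} {c : ℤ × ℤ} (h : allLe k V c = true) {z : ℂ}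
    (hz : z ∈ convexHull ℝ (evs V)) : fk k z ≤ rv c := by
  unfold allLe at h
  rw [List.all_eq_true] at h
  have hsub : convexHull ℝ (evs V) ⊆ {z | fk k z ≤ rv c} := by
    refine convexHull_min ?_ (convex_halfSpace_le (fk k).isLinear _)
    rintro _ ⟨q, hq, rfl⟩
    show fk k (ev q) ≤ rv c
    rw [fk_ev]
    exact le'_sound (h q hq)
  exact hsub hz

lemma allGe_sound {k : ℕ} {V : List V4} {c : ℤ × ℤ} (h : allGe k V c = true) {z : ℂ}
    (hz : z ∈ convexHull ℝ (evs V)) : rv c ≤ fk k z := by
  unfold allGe at h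
  rw [List.all_eq_true] at h
  have hsub : convexHull ℝ (evs V) ⊆ {z | rv c ≤ fk k z} := by
    refine convexHull_min ?_ (convex_halfSpace_ge (fk k).isLinear _)
    rintro _ ⟨q, hq, rfl⟩
    show rv c ≤ fk k (ev q)
    rw [fk_ev]
    exact le'_sound (h q hq)
  exact hsub hz

def cellOK (V : List V4) : Bool :=
  allLe 0 V (2, 0) && allLe 1 V (2, 2) && allGe 3 V (0, 0) && allGe 2 V (0, -2) &&
  ((allGe 0 V (0, 0) && allGe 1 V (0, 0)) || (allGe 0 V (0, -2) && allGe 1 V (0, 2))) &&
  ((allLe 3 V (2, 0) && allLe 2 V (2, 0)) || (allLe 3 V (2, 2) && allLe 2 V (2, -2)))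

lemma cellOK_all : ([0, 1, 2, 3, 4, 5].all fun t => cellOK (tileL t 0 0)) = true := by
  decide +kernel

/-- the constraints of the cell, without absolute values -/
def Cell (x y : ℝ) : Prop :=
  y - tau * x ≤ 1 ∧ y + tau * x ≤ 1 + tau ∧ 0 ≤ x + tau * y ∧ -tau ≤ x - tau * y ∧
  ((0 ≤ y - tau * x ∧ 0 ≤ y + tau * x) ∨ (-tau ≤ y - tau * x ∧ tau ≤ y + tau * x)) ∧
  ((x + tau * y ≤ 1 ∧ x - tau * y ≤ 1) ∨ (x + tau * y ≤ 1 + tau ∧ x - tau * y ≤ 1 - tau))

lemma cell_of_mem {t : ℕ} (ht : t < 6) {x y : ℝ} (h : pt x y ∈ convexHull ℝ (tile t 0 0)) :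
    Cell x y := by
  have h0 := cellOK_all
  rw [List.all_eq_true] at h0
  have h1 := h0 t (by interval_cases t <;> simp)
  unfold cellOK at h1
  simp only [Bool.and_eq_true, Bool.or_eq_true] at h1
  obtain ⟨⟨⟨⟨⟨a1, a2⟩, a3⟩, a4⟩, a5⟩, a6⟩ := h1
  unfold tile at h
  have b1 := allLe_sound a1 h
  have b2 := allLe_sound a2 h
  have b3 := allGe_sound a3 h
  have b4 := allGe_sound a4 h
  rw [fk_pt] at b1 b2 b3 b4
  simp only [coef, rv] at b1 b2 b3 b4
  push_cast at b1 b2 b3 b4
  refine ⟨by linarith, by linarith, by linarith, by linarith, ?_, ?_⟩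
  · rcases a5 with ⟨c1, c2⟩ | ⟨c1, c2⟩
    · left
      have d1 := allGe_sound c1 h
      have d2 := allGe_sound c2 h
      rw [fk_pt] at d1 d2
      simp only [coef, rv] at d1 d2
      push_cast at d1 d2
      constructor <;> linarith
    · right
      have d1 := allGe_sound c1 h
      have d2 := allGe_sound c2 h
      rw [fk_pt] at d1 d2
      simp only [coef, rv] at d1 d2
      push_cast at d1 d2
      constructor <;> linarith
  · rcases a6 with ⟨c1, c2⟩ | ⟨c1, c2⟩
    · left
      have d1 := allLe_sound c1 h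
      have d2 := allLe_sound c2 h
      rw [fk_pt] at d1 d2
      simp only [coef, rv] at d1 d2
      push_cast at d1 d2
      constructor <;> linarith
    · right
      have d1 := allLe_sound c1 h
      have d2 := allLe_sound c2 h
      rw [fk_pt] at d1 d2
      simp only [coef, rv] at d1 d2
      push_cast at d1 d2
      constructor <;> linarith

/-! ### Covering -/

lemma mem_hull_tri {p u : ℂ} {s t : ℝ} (hs : 0 ≤ s) (ht : 0 ≤ t) (hst : s + t ≤ 1) :
    p + s * u + t * (w * u) ∈ convexHull ℝ (tri p u) := by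
  have h1 : p ∈ convexHull ℝ (tri p u) := subset_convexHull ℝ _ (by simp [tri])
  have h2 : p + u ∈ convexHull ℝ (tri p u) := subset_convexHull ℝ _ (by simp [tri])
  have h3 : p + w * u ∈ convexHull ℝ (tri p u) := subset_convexHull ℝ _ (by simp [tri])
  have := (convex_convexHull ℝ (tri p u)).sum_mem (t := (Finset.univ : Finset (Fin 3)))
    (w := ![1 - s - t, s, t]) (z := ![p, p + u, p + w * u])
    (by intro i _; fin_cases i
        · simp; linarith
        · simpa using hs
        · simpa using ht)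
    (by simp [Fin.sum_univ_three]; ring)
    (by intro i _; fin_cases i
        · exact h1
        · exact h2
        · exact h3)
  convert this using 1
  simp [Fin.sum_univ_three]
  ring

lemma mem_hull_sq {p u : ℂ} {s t : ℝ} (hs : 0 ≤ s) (ht : 0 ≤ t) (hs1 : s ≤ 1) (ht1 : t ≤ 1) :
    p + s * u + t * (Complex.I * u) ∈ convexHull ℝ (sq p u) := by
  have h1 : p ∈ convexHull ℝ (sq p u) := subset_convexHull ℝ _ (by simp [sq])
  have h2 : p + u ∈ convexHull ℝ (sq p u) := subset_convexHull ℝ _ (by simp [sq])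
  have h3 : p + u + Complex.I * u ∈ convexHull ℝ (sq p u) := subset_convexHull ℝ _ (by simp [sq])
  have h4 : p + Complex.I * u ∈ convexHull ℝ (sq p u) := subset_convexHull ℝ _ (by simp [sq])
  have hc := convex_convexHull ℝ (sq p u)
  have m1 := hc h1 h2 (a := 1 - s) (b := s) (by linarith) hs (by ring)
  have m2 := hc h4 h3 (a := 1 - s) (b := s) (by linarith) hs (by ring)
  have m3 := hc m1 m2 (a := 1 - t) (b := t) (by linarith) ht (by ring)
  convert m3 using 1
  simp only [Complex.real_smul]
  push_cast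
  ring

lemma pt_smul (s a b : ℝ) : (s : ℂ) * pt a b = pt (s * a) (s * b) := by
  unfold pt
  apply Complex.ext
  · simp; ring
  · simp; ring

lemma t2 : tau ^ 2 = 4 * tau - 1 := by rw [pow_two, tau_sq]
lemma t3 : tau ^ 3 = 15 * tau - 4 := by
  have : tau ^ 3 = tau * tau ^ 2 := by ring
  rw [this, t2]; linear_combination 4 * tau_sq
lemma t4 : tau ^ 4 = 56 * tau - 15 := by
  have : tau ^ 4 = tau * tau ^ 3 := by ring
  rw [this, t3]; linear_combination 15 * tau_sq

/-- the six tiles cover the cell -/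
lemma cover_cell {x y : ℝ} (h : Cell x y) : ∃ t : ℕ, t < 6 ∧ pt x y ∈ convexHull ℝ (tile t 0 0) := by
  obtain ⟨hA, hB, hD, hC, hbot, hright⟩ := h
  have ht := tau_sq
  have h2 := t2
  have h3 := t3
  have h4 := t4
  have htp := tau_pos
  have htl := tau_lt
  have k1 : (0 : ℝ) ≤ (4 - tau) / 2 := by linarith
  have k2 : (0 : ℝ) ≤ (7 - 2 * tau) / 3 := by linarith
  have k3 : (0 : ℝ) ≤ (5 - tau) / 3 := by linarith
  have k0 : (0 : ℝ) < 1 - 2 * tau := by linarith
  by_cases c1 : x + tau * y ≤ 2 * tau ∧ y - tau * x ≤ 2 * tau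
  · refine ⟨0, by norm_num, ?_⟩
    have hA0 : 0 ≤ y - tau * x := by
      rcases hbot with hb | hb
      · exact hb.1
      · have e1 := mul_nonneg htp.le (sub_nonneg.2 c1.1)
        have e2 : 0 ≤ (1 - 2 * tau) * (y - tau / 2) := by
          have : 2 * ((1 - 2 * tau) * (y - tau / 2)) = (y + tau * x - tau) +
              tau * (2 * tau - (x + tau * y)) := by
            ring_nf; simp only [h2]; ring
          linarith [hb.2]
        have e3 : 0 ≤ y - tau / 2 := nonneg_of_mul_nonneg_right e2 k0
        have e4 : y - tau * x = tau * (2 * tau - (x + tau * y)) + 4 * tau * (y - tau / 2) := by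
          ring_nf; simp only [h2]; ring
        rw [e4]
        have := mul_nonneg htp.le e3
        linarith
    rw [shape0]
    have := mem_hull_sq (p := pt 0 0) (u := pt (1 / 2) (tau / 2)) (s := (4 - tau) / 2 * (x + tau * y))
      (t := (4 - tau) / 2 * (y - tau * x)) (mul_nonneg k1 hD) (mul_nonneg k1 hA0)
      (by
        have e := mul_nonneg k1 (sub_nonneg.2 c1.1)
        have e' : (4 - tau) / 2 * (2 * tau - (x + tau * y)) = 1 - (4 - tau) / 2 * (x + tau * y) := by
          ring_nf; simp only [h2]; ring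
        linarith)
      (by
        have e := mul_nonneg k1 (sub_nonneg.2 c1.2)
        have e' : (4 - tau) / 2 * (2 * tau - (y - tau * x)) = 1 - (4 - tau) / 2 * (y - tau * x) := by
          ring_nf; simp only [h2]; ring
        linarith)
    convert this using 1
    rw [I_pt, pt_smul, pt_smul, pt_add, pt_add]
    apply pt_congr
    · ring_nf; simp only [h2, h3]; ring
    · ring_nf; simp only [h2, h3]; ring
  by_cases c2 : 2 * tau ≤ y - tau * x ∧ x + y ≤ 1
  · refine ⟨4, by norm_num, ?_⟩
    rw [shape4]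
    have := mem_hull_tri (p := pt 0 1) (u := pt (-(tau / 2)) (-(1 / 2)))
      (s := (5 - tau) / 3 * (1 - (x + y))) (t := (7 - 2 * tau) / 3 * (x - tau * y + tau))
      (mul_nonneg k3 (by linarith [c2.2])) (mul_nonneg k2 (by linarith)) (by
        have e := mul_nonneg k2 (sub_nonneg.2 c2.1)
        have e' : (7 - 2 * tau) / 3 * (y - tau * x - 2 * tau) = 1 - ((5 - tau) / 3 * (1 - (x + y)) +
            (7 - 2 * tau) / 3 * (x - tau * y + tau)) := by
          ring_nf; simp only [h2]; ring
        linarith)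
    convert this using 1
    rw [w_pt, pt_smul, pt_smul, pt_add, pt_add]
    apply pt_congr
    · ring_nf; simp only [h2, h3, h4]; ring
    · ring_nf; simp only [h2, h3, h4]; ring
  by_cases c3 : 1 ≤ x + y ∧ x - tau * y ≤ 1 - 3 * tau
  · refine ⟨5, by norm_num, ?_⟩
    rw [shape5]
    have := mem_hull_tri (p := pt 0 1) (u := pt ((1 - tau) / 2) (-((1 - tau) / 2)))
      (s := (7 - 2 * tau) / 3 * (1 - (y - tau * x))) (t := (5 - tau) / 3 * (x + y - 1))
      (mul_nonneg k2 (by linarith)) (mul_nonneg k3 (by linarith [c3.1])) (by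
        have e := mul_nonneg k2 (sub_nonneg.2 c3.2)
        have e' : (7 - 2 * tau) / 3 * (1 - 3 * tau - (x - tau * y)) =
            1 - ((7 - 2 * tau) / 3 * (1 - (y - tau * x)) + (5 - tau) / 3 * (x + y - 1)) := by
          ring_nf; simp only [h2]; ring
        linarith)
    convert this using 1
    rw [w_pt, pt_smul, pt_smul, pt_add, pt_add]
    apply pt_congr
    · ring_nf; simp only [h2, h3, h4]; ring
    · ring_nf; simp only [h2, h3, h4]; ring
  by_cases c4 : 1 - tau ≤ y + tau * x ∧ 1 - 3 * tau ≤ x - tau * y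
  · refine ⟨1, by norm_num, ?_⟩
    have hC1 : x - tau * y ≤ 1 - tau := by
      rcases hright with hb | hb
      · have e1 := mul_nonneg htp.le (sub_nonneg.2 hb.1)
        have e2 : 0 ≤ (1 - 2 * tau) * (y - 1 / 2) := by
          have : 2 * ((1 - 2 * tau) * (y - 1 / 2)) = (y + tau * x - (1 - tau)) +
              tau * (1 - (x + tau * y)) := by
            ring_nf; simp only [h2]; ring
          linarith [c4.1]
        have e3 : 0 ≤ y - 1 / 2 := nonneg_of_mul_nonneg_right e2 k0
        have := mul_nonneg htp.le e3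
        linarith [hb.1]
      · exact hb.2
    rw [shape1]
    have := mem_hull_sq (p := pt ((1 - tau) / 2) ((1 + tau) / 2)) (u := pt (1 / 2) (-(tau / 2)))
      (s := (4 - tau) / 2 * (x - tau * y - (1 - 3 * tau)))
      (t := (4 - tau) / 2 * (y + tau * x - (1 - tau))) (mul_nonneg k1 (by linarith [c4.2]))
      (mul_nonneg k1 (by linarith [c4.1]))
      (by
        have e := mul_nonneg k1 (sub_nonneg.2 hC1)
        have e' : (4 - tau) / 2 * (1 - tau - (x - tau * y)) =
            1 - (4 - tau) / 2 * (x - tau * y - (1 - 3 * tau)) := by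
          ring_nf; simp only [h2]; ring
        linarith)
      (by
        have e := mul_nonneg k1 (sub_nonneg.2 hB)
        have e' : (4 - tau) / 2 * (1 + tau - (y + tau * x)) =
            1 - (4 - tau) / 2 * (y + tau * x - (1 - tau)) := by
          ring_nf; simp only [h2]; ring
        linarith)
    convert this using 1
    rw [I_pt, pt_smul, pt_smul, pt_add, pt_add]
    apply pt_congr
    · ring_nf; simp only [h2, h3]; ring
    · ring_nf; simp only [h2, h3]; ring
  by_cases c5 : (tau - 1) / 2 ≤ y - x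
  · refine ⟨3, by norm_num, ?_⟩
    have key : 2 * tau ≤ x + tau * y ∧ y + tau * x ≤ 1 - tau := by
      have k5 : (0 : ℝ) < 1 - tau := by linarith
      by_cases d1 : 2 * tau ≤ y - tau * x
      · exfalso
        have e1 : 1 < x + y := by
          by_contra hcon
          exact c2 ⟨d1, by linarith⟩
        have e2 : 1 - 3 * tau < x - tau * y := by
          by_contra hcon
          exact c3 ⟨e1.le, by linarith⟩
        have e3 : y + tau * x < 1 - tau := by
          by_contra hcon
          exact c4 ⟨by linarith, e2.le⟩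
        -- x > (1 - tau) / 2 and x < (1 - tau) / 2
        have e4 : 0 < (1 - tau) * (x - (1 - tau) / 2) := by
          have : (1 - tau) * (x - (1 - tau) / 2) = (x + y - 1) + (1 - tau - (y + tau * x)) := by
            ring_nf; simp only [h2]; ring
          rw [this]; linarith
        have e5 : 0 < x - (1 - tau) / 2 := (mul_pos_iff_of_pos_left k5).1 e4
        have e6 := mul_pos htp e5
        have e7 : 2 * (tau * (x - (1 - tau) / 2)) = (y + tau * x - (1 - tau)) -
            (y - tau * x - 2 * tau) := by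
          ring_nf; simp only [h2]; ring
        linarith
      · push Not at d1
        have e1 : 2 * tau < x + tau * y := by
          by_contra hcon
          exact c1 ⟨by linarith, d1.le⟩
        refine ⟨e1.le, ?_⟩
        by_contra hcon
        push Not at hcon
        have e2 : x - tau * y < 1 - 3 * tau := by
          by_contra hcon2
          exact c4 ⟨hcon.le, by linarith⟩
        have e3 : x + y < 1 := by
          by_contra hcon2
          exact c3 ⟨by linarith, e2.le⟩
        have e4 : 0 < (1 - tau) * ((1 - tau) / 2 - x) := by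
          have : (1 - tau) * ((1 - tau) / 2 - x) = (1 - (x + y)) + (y + tau * x - (1 - tau)) := by
            ring_nf; simp only [h2]; ring
          rw [this]; linarith
        have e5 : 0 < (1 - tau) / 2 - x := (mul_pos_iff_of_pos_left k5).1 e4
        have e6 := mul_pos htp e5
        have e7 : 2 * (tau * ((1 - tau) / 2 - x)) = (y - tau * x - 2 * tau) -
            (y + tau * x - (1 - tau)) := by
          ring_nf; simp only [h2]; ring
        linarith
    rw [shape3]
    have := mem_hull_tri (p := pt (1 / 2) (tau / 2)) (u := pt ((1 - tau) / 2) ((1 - tau) / 2))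
      (s := (7 - 2 * tau) / 3 * (x + tau * y - 2 * tau))
      (t := (5 - tau) / 3 * (y - x - (tau - 1) / 2))
      (mul_nonneg k2 (by linarith [key.1])) (mul_nonneg k3 (by linarith)) (by
        have e := mul_nonneg k2 (sub_nonneg.2 key.2)
        have e' : (7 - 2 * tau) / 3 * (1 - tau - (y + tau * x)) =
            1 - ((7 - 2 * tau) / 3 * (x + tau * y - 2 * tau) +
              (5 - tau) / 3 * (y - x - (tau - 1) / 2)) := by
          ring_nf; simp only [h2]; ring
        linarith)
    convert this using 1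
    rw [w_pt, pt_smul, pt_smul, pt_add, pt_add]
    apply pt_congr
    · ring_nf; simp only [h2, h3, h4]; ring
    · ring_nf; simp only [h2, h3, h4]; ring
  · push Not at c5
    refine ⟨2, by norm_num, ?_⟩
    have k5 : (0 : ℝ) < 1 - tau := by linarith
    have hB0 : tau ≤ y + tau * x := by
      rcases hbot with hb | hb
      · have e4 : 0 ≤ (1 - tau) * (x - 1 / 2) := by
          have : (1 - tau) * (x - 1 / 2) = (y - tau * x) + ((tau - 1) / 2 - (y - x)) := by ring
          rw [this]; linarith [hb.1]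
        have e5 : 0 ≤ x - 1 / 2 := nonneg_of_mul_nonneg_right e4 k5
        have := mul_nonneg htp.le e5
        linarith [hb.1]
      · exact hb.2
    have hD1 : x + tau * y ≤ 1 := by
      rcases hright with hb | hb
      · exact hb.1
      · have e4 : 0 ≤ (1 - tau) * (1 / 2 - y) := by
          have : (1 - tau) * (1 / 2 - y) = (1 - tau - (x - tau * y)) + ((tau - 1) / 2 - (y - x)) := by
            ring
          rw [this]; linarith [hb.2]
        have e5 : 0 ≤ 1 / 2 - y := nonneg_of_mul_nonneg_right e4 k5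
        have := mul_nonneg htp.le e5
        linarith [hb.2]
    rw [shape2]
    have := mem_hull_tri (p := pt 1 0) (u := pt (-(tau / 2)) (1 / 2))
      (s := (7 - 2 * tau) / 3 * (y + tau * x - tau)) (t := (7 - 2 * tau) / 3 * (1 - (x + tau * y)))
      (mul_nonneg k2 (by linarith)) (mul_nonneg k2 (by linarith)) (by
        have e := mul_nonneg k3 (sub_nonneg.2 c5.le)
        have e' : (5 - tau) / 3 * ((tau - 1) / 2 - (y - x)) =
            1 - ((7 - 2 * tau) / 3 * (y + tau * x - tau) +
              (7 - 2 * tau) / 3 * (1 - (x + tau * y))) := by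
          ring_nf; simp only [h2]; ring
        linarith)
    convert this using 1
    rw [w_pt, pt_smul, pt_smul, pt_add, pt_add]
    apply pt_congr
    · ring_nf; simp only [h2, h3, h4]; ring
    · ring_nf; simp only [h2, h3, h4]; ring

end Pool.Agent.Q281.TS
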