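import Pool.Agent.Q281.TS.Snub

/-!
The snub square tiling is a tiling.
-/

namespace Pool.Agent.Q281.TS

open Set MeasureTheory

/-- distance to the nearest integer -/
noncomputable def nd (x : ℝ) : ℝ := |x - round x|

lemma nd_le (x : ℝ) (n : ℤ) : nd x ≤ |x - n| := round_le x n
lemma nd_nonneg (x : ℝ) : 0 ≤ nd x := abs_nonneg _
lemma nd_le_half (x : ℝ) : nd x ≤ 1 / 2 := abs_sub_round x
lemma nd_sub_int (x : ℝ) (n : ℤ) : nd (x - n) = nd x := by
  unfold nd
  rw [round_sub_intCast]
  push_cast
  congr 1; ring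

lemma nd_lip (x y : ℝ) : nd x ≤ nd y + |x - y| := by
  have h := nd_le x (round y)
  have h2 : |x - round y| ≤ |x - y| + |y - round y| := by
    have : x - round y = (x - y) + (y - round y) := by ring
    rw [this]; exact abs_add_le _ _
  unfold nd at *
  linarith

lemma nd_lip' (x y : ℝ) : |nd x - nd y| ≤ |x - y| := by
  rw [abs_le]
  have h1 := nd_lip x y
  have h2 := nd_lip y x
  rw [abs_sub_comm] at h2
  constructor <;> linarith

noncomputable def g1 (x y : ℝ) : ℝ := x + tau * nd y
noncomputable def g2 (x y : ℝ) : ℝ := y - tau * nd x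

lemma cell_iff (x y : ℝ) : Cell x y ↔ (0 ≤ g1 x y ∧ g1 x y ≤ 1) ∧ (0 ≤ g2 x y ∧ g2 x y ≤ 1) := by
  have htp := tau_pos
  have htl := tau_lt
  have nx0 := nd_le x 0
  have nx1 := nd_le x 1
  have ny0 := nd_le y 0
  have ny1 := nd_le y 1
  push_cast at nx0 nx1 ny0 ny1
  rw [sub_zero] at nx0 ny0
  constructor
  · rintro ⟨hA, hB, hD, hC, hbot, hright⟩
    unfold g1 g2
    refine ⟨⟨?_, ?_⟩, ?_, ?_⟩
    · rcases le_or_gt (round y) 0 with h | h
      · have h' : (round y : ℝ) ≤ 0 := by exact_mod_cast h
        have h1 : y ≤ nd y := by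
          have := le_abs_self (y - round y)
          unfold nd; linarith
        have := mul_le_mul_of_nonneg_left h1 htp.le
        linarith
      · have h' : (1 : ℝ) ≤ round y := by exact_mod_cast h
        have h1 : 1 - y ≤ nd y := by
          have := neg_abs_le (y - round y)
          unfold nd; linarith
        have := mul_le_mul_of_nonneg_left h1 htp.le
        linarith
    · rcases hright with ⟨h1, h2⟩ | ⟨h1, h2⟩
      · have h3 : tau * |y| ≤ 1 - x := by
          rcases abs_cases y with ⟨h, -⟩ | ⟨h, -⟩ <;> rw [h] <;> linarith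
        have := mul_le_mul_of_nonneg_left ny0 htp.le
        linarith
      · have h3 : tau * |y - 1| ≤ 1 - x := by
          rcases abs_cases (y - 1) with ⟨h, -⟩ | ⟨h, -⟩ <;> rw [h] <;> linarith
        have := mul_le_mul_of_nonneg_left ny1 htp.le
        linarith
    · rcases hbot with ⟨h1, h2⟩ | ⟨h1, h2⟩
      · have h3 : tau * |x| ≤ y := by
          rcases abs_cases x with ⟨h, -⟩ | ⟨h, -⟩ <;> rw [h] <;> linarith
        have := mul_le_mul_of_nonneg_left nx0 htp.le
        linarith
      · have h3 : tau * |x - 1| ≤ y := by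
          rcases abs_cases (x - 1) with ⟨h, -⟩ | ⟨h, -⟩ <;> rw [h] <;> linarith
        have := mul_le_mul_of_nonneg_left nx1 htp.le
        linarith
    · rcases le_or_gt (round x) 0 with h | h
      · have h' : (round x : ℝ) ≤ 0 := by exact_mod_cast h
        have h1 : x ≤ nd x := by
          have := le_abs_self (x - round x)
          unfold nd; linarith
        have := mul_le_mul_of_nonneg_left h1 htp.le
        linarith
      · have h' : (1 : ℝ) ≤ round x := by exact_mod_cast h
        have h1 : 1 - x ≤ nd x := by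
          have := neg_abs_le (x - round x)
          unfold nd; linarith
        have := mul_le_mul_of_nonneg_left h1 htp.le
        linarith
  · rintro ⟨⟨h1, h2⟩, h3, h4⟩
    unfold g1 at h1 h2
    unfold g2 at h3 h4
    have hx1 : x ≤ 1 := by
      have := mul_nonneg htp.le (nd_nonneg y)
      linarith
    have hy0 : 0 ≤ y := by
      have := mul_nonneg htp.le (nd_nonneg x)
      linarith
    have hxlo : -(tau / 2) ≤ x := by
      have := mul_le_mul_of_nonneg_left (nd_le_half y) htp.le
      linarith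
    have hyhi : y ≤ 1 + tau / 2 := by
      have := mul_le_mul_of_nonneg_left (nd_le_half x) htp.le
      linarith
    have m1 := mul_le_mul_of_nonneg_left nx0 htp.le
    have m2 := mul_le_mul_of_nonneg_left nx1 htp.le
    have m3 := mul_le_mul_of_nonneg_left ny0 htp.le
    have m4 := mul_le_mul_of_nonneg_left ny1 htp.le
    rw [abs_of_nonneg hy0] at m3
    rw [abs_of_nonpos (by linarith : x - 1 ≤ 0)] at m2
    have hxpos : 1 < y → 0 ≤ x := by
      intro hy
      by_contra hcon
      push Not at hcon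
      rw [abs_of_neg hcon] at m1
      rw [abs_of_pos (by linarith : 0 < y - 1)] at m4
      -- -x ≤ tau (y-1) ≤ tau * tau * (-x)
      have a1 : -x ≤ tau * (y - 1) := by linarith
      have a2 : y - 1 ≤ tau * -x := by linarith
      have a3 := mul_le_mul_of_nonneg_left a2 htp.le
      nlinarith
    have hround : ∀ u : ℝ, -(tau / 2) ≤ u → u ≤ 1 + tau / 2 → nd u = |u| ∨ nd u = |u - 1| := by
      intro u hu1 hu2
      have h5 := abs_sub_round u
      rw [abs_le] at h5
      have h6 : (-1 : ℝ) < round u := by linarith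
      have h7 : (round u : ℝ) < 2 := by linarith
      have h6' : -1 < round u := by exact_mod_cast h6
      have h7' : round u < 2 := by exact_mod_cast h7
      have : round u = 0 ∨ round u = 1 := by omega
      rcases this with h | h
      · left; unfold nd; rw [h]; simp
      · right; unfold nd; rw [h]; simp
    refine ⟨?_, ?_, ?_, ?_, ?_, ?_⟩
    · rcases le_or_gt 0 x with hx | hx
      · rw [abs_of_nonneg hx] at m1; linarith
      · have hy1 : y ≤ 1 := by
          by_contra hcon
          have := hxpos (by linarith)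
          linarith
        rw [abs_of_nonpos (by linarith : y - 1 ≤ 0)] at m4
        -- x ≥ -tau (1 - y)
        have a1 : -x ≤ tau * (1 - y) := by linarith
        nlinarith
    · linarith
    · linarith
    · rcases le_or_gt y 1 with hy | hy
      · rw [abs_of_nonpos (by linarith : y - 1 ≤ 0)] at m4
        linarith
      · have hx := hxpos hy
        rw [abs_of_nonneg hx] at m1
        have a2 : y - 1 ≤ tau * x := by linarith
        nlinarith
    · rcases hround x (by linarith) (by linarith) with h | h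
      · left
        rw [h] at h3
        have b1 := mul_le_mul_of_nonneg_left (le_abs_self x) htp.le
        have b2 := mul_le_mul_of_nonneg_left (neg_abs_le x) htp.le
        constructor <;> linarith
      · right
        rw [h] at h3
        have b1 := mul_le_mul_of_nonneg_left (le_abs_self (x - 1)) htp.le
        have b2 := mul_le_mul_of_nonneg_left (neg_abs_le (x - 1)) htp.le
        constructor <;> linarith
    · rcases hround y (by linarith) (by linarith) with h | h
      · left
        rw [h] at h2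
        have b1 := mul_le_mul_of_nonneg_left (le_abs_self y) htp.le
        have b2 := mul_le_mul_of_nonneg_left (neg_abs_le y) htp.le
        constructor <;> linarith
      · right
        rw [h] at h2
        have b1 := mul_le_mul_of_nonneg_left (le_abs_self (y - 1)) htp.le
        have b2 := mul_le_mul_of_nonneg_left (neg_abs_le (y - 1)) htp.le
        constructor <;> linarith

lemma g1_sub (x y : ℝ) (i j : ℤ) : g1 (x - i) (y - j) = g1 x y - i := by
  unfold g1; rw [nd_sub_int]; ring

lemma g2_sub (x y : ℝ) (i j : ℤ) : g2 (x - i) (y - j) = g2 x y - j := by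
  unfold g2; rw [nd_sub_int]; ring

lemma pt_coords (z : ℂ) : pt (z.re / sc) (z.im / sc) = z := by
  have := sc_pos.ne'
  unfold pt
  apply Complex.ext
  · simp; field_simp
  · simp; field_simp

lemma hull_tile (t : ℕ) (i j : ℤ) (x y : ℝ) :
    pt x y ∈ convexHull ℝ (tile t i j) ↔ pt (x - i) (y - j) ∈ convexHull ℝ (tile t 0 0) := by
  rw [tile_eq t i j, ← AffineMap.image_convexHull]
  have e : mo 1 (pt i j) (pt (x - i) (y - j)) = pt x y := by
    rw [mo_apply, one_mul, pt_add]; congr 1 <;> ring
  constructor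
  · rintro ⟨z, hz, h⟩
    rw [← e] at h
    rwa [← mo_inj (c := 1) (by simp) h]
  · intro h
    exact ⟨_, h, e⟩

lemma cell_mem {t : ℕ} (ht : t < 6) {i j : ℤ} {x y : ℝ} (h : pt x y ∈ convexHull ℝ (tile t i j)) :
    (i ≤ g1 x y ∧ g1 x y ≤ i + 1) ∧ (j ≤ g2 x y ∧ g2 x y ≤ j + 1) := by
  rw [hull_tile] at h
  have h1 := (cell_iff _ _).1 (cell_of_mem ht h)
  rw [g1_sub, g2_sub] at h1
  exact ⟨⟨by linarith [h1.1.1], by linarith [h1.1.2]⟩, by linarith [h1.2.1], by linarith [h1.2.2]⟩

lemma cell_cover {x y : ℝ} {i j : ℤ} (h1 : i ≤ g1 x y) (h2 : g1 x y ≤ i + 1) (h3 : j ≤ g2 x y)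
    (h4 : g2 x y ≤ j + 1) : ∃ t : ℕ, t < 6 ∧ pt x y ∈ convexHull ℝ (tile t i j) := by
  have h5 : Cell (x - i) (y - j) := by
    rw [cell_iff, g1_sub, g2_sub]
    exact ⟨⟨by linarith, by linarith⟩, by linarith, by linarith⟩
  obtain ⟨t, ht, h6⟩ := cover_cell h5
  exact ⟨t, ht, by rw [hull_tile]; exact h6⟩

lemma snub_cover : region snub = univ := by
  rw [eq_univ_iff_forall]
  intro z
  rw [← pt_coords z]
  set x := z.re / sc
  set y := z.im / sc
  obtain ⟨t, ht, h⟩ := cell_cover (x := x) (y := y) (i := ⌊g1 x y⌋) (j := ⌊g2 x y⌋)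
    (Int.floor_le _) (Int.lt_floor_add_one _).le (Int.floor_le _) (Int.lt_floor_add_one _).le
  exact mem_region (V := tile t ⌊g1 x y⌋ ⌊g2 x y⌋) (show _ ∈ snub from ⟨t, ht, _, _, rfl⟩) h

lemma cell_box {x y : ℝ} (h : Cell x y) : -(tau / 2) ≤ x ∧ x ≤ 1 ∧ 0 ≤ y ∧ y ≤ 1 + tau / 2 := by
  obtain ⟨hA, hB, hD, hC, hbot, hright⟩ := h
  refine ⟨by linarith, ?_, ?_, by linarith⟩
  · rcases hright with h | h <;> linarith [h.1, h.2]
  · rcases hbot with h | h <;> linarith [h.1, h.2]

lemma tile_edge {t t' : ℕ} (ht : t < 6) (ht' : t' < 6) {i j i' j' : ℤ}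
    (hne : ¬ (t = t' ∧ i = i' ∧ j = j')) : EdgeToEdge (tile t i j) (tile t' i' j') := by
  have htl := tau_lt
  by_cases h : (i' - i = -1 ∨ i' - i = 0 ∨ i' - i = 1) ∧ (j' - j = -1 ∨ j' - j = 0 ∨ j' - j = 1)
  · have e1 : tile t i j = mo 1 (pt i j) '' tile t 0 0 := tile_eq t i j
    have e2 : tile t' i' j' = mo 1 (pt i j) '' tile t' (i' - i) (j' - j) := by
      have := tile_sh t' (i' - i) (j' - j) i j
      rw [← this]; congr 1 <;> ring
    rw [e1, e2]
    refine edge_mo (by simp) ?_
    have h0 := allPairs_true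
    unfold allPairs at h0
    rw [List.all_eq_true] at h0
    have h1 := h0 t (by interval_cases t <;> simp)
    rw [List.all_eq_true] at h1
    have h2 := h1 t' (by interval_cases t' <;> simp)
    rw [List.all_eq_true] at h2
    have h3 := h2 (i' - i) (by simp only [List.mem_cons, List.not_mem_nil, or_false]; exact h.1)
    rw [List.all_eq_true] at h3
    have h4 := h3 (j' - j) (by simp only [List.mem_cons, List.not_mem_nil, or_false]; exact h.2)
    rw [Bool.or_eq_true, Bool.and_eq_true, Bool.and_eq_true, decide_eq_true_eq, decide_eq_true_eq,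
      decide_eq_true_eq] at h4
    rcases h4 with h4 | h4
    · exact absurd ⟨h4.1.1, by omega, by omega⟩ hne
    · exact chk_sound h4
  · left
    rw [eq_empty_iff_forall_notMem]
    rintro z ⟨h1, h2⟩
    rw [← pt_coords z] at h1 h2
    rw [hull_tile] at h1 h2
    obtain ⟨a1, a2, a3, a4⟩ := cell_box (cell_of_mem ht h1)
    obtain ⟨b1, b2, b3, b4⟩ := cell_box (cell_of_mem ht' h2)
    have c1 : i' - i < 2 := by
      have : ((i' - i : ℤ) : ℝ) < 2 := by push_cast; linarith
      exact_mod_cast this
    have c2 : -2 < i' - i := by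
      have : (-2 : ℝ) < ((i' - i : ℤ) : ℝ) := by push_cast; linarith
      exact_mod_cast this
    have c3 : j' - j < 2 := by
      have : ((j' - j : ℤ) : ℝ) < 2 := by push_cast; linarith
      exact_mod_cast this
    have c4 : -2 < j' - j := by
      have : (-2 : ℝ) < ((j' - j : ℤ) : ℝ) := by push_cast; linarith
      exact_mod_cast this
    exact h ⟨by omega, by omega⟩

/-- the area condition follows from the edge condition -/
lemma area_of_edge {V W : Set ℂ} (h : EdgeToEdge V W) :
    volume (convexHull ℝ V ∩ convexHull ℝ W) = 0 := by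
  rcases h with h | ⟨p, -, h⟩ | ⟨p, -, q, -, -, h⟩
  · rw [h]; simp
  · rw [h]; simp
  · rw [h]
    have h1 : segment ℝ p q ⊆ (AffineSubspace.mk' p (Submodule.span ℝ {q - p}) : Set ℂ) := by
      rw [segment_eq_image']
      rintro z ⟨t, -, rfl⟩
      rw [SetLike.mem_coe, AffineSubspace.mem_mk']
      simp only [vsub_eq_sub, add_sub_cancel_left]
      exact Submodule.smul_mem _ _ (Submodule.mem_span_singleton_self _)
    refine measure_mono_null h1 ?_
    refine Measure.addHaar_affineSubspace _ _ ?_
    intro htop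
    have h2 : (AffineSubspace.mk' p (Submodule.span ℝ {q - p})).direction = ⊤ := by
      rw [htop]; exact AffineSubspace.direction_top _ _ _
    rw [AffineSubspace.direction_mk'] at h2
    have h3 : Module.finrank ℝ (Submodule.span ℝ {q - p}) ≤ 1 := by
      have := finrank_span_le_card (R := ℝ) ({q - p} : Set ℂ)
      simpa using this
    rw [h2, finrank_top, Complex.finrank_real_complex] at h3
    omega

lemma snub_edge : ∀ V ∈ snub, ∀ W ∈ snub, V ≠ W → EdgeToEdge V W := by
  rintro V ⟨t, ht, i, j, rfl⟩ W ⟨t', ht', i', j', rfl⟩ hne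
  refine tile_edge ht ht' ?_
  rintro ⟨rfl, rfl, rfl⟩
  exact hne rfl

lemma snub_isFamily : IsFamily snub where
  tile := by
    rintro V ⟨t, ht, i, j, rfl⟩
    rcases lt_or_ge t 2 with h | h
    · exact Or.inr (isSq_tile h i j)
    · exact Or.inl (isTri_tile h ht i j)
  area := fun V hV W hW hne => area_of_edge (snub_edge V hV W hW hne)
  edge := snub_edge

/-! ### Counting the tiles at a vertex -/

lemma rv_inj {p q : ℤ × ℤ} (h : rv p = rv q) : p = q := by
  unfold rv tau at h
  have h1 : ((p.1 - q.1 + 2 * (p.2 - q.2) : ℤ) : ℝ) = ((p.2 - q.2 : ℤ) : ℝ) * Real.sqrt 3 := by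
    push_cast; linarith
  by_cases h2 : p.2 - q.2 = 0
  · rw [h2] at h1
    simp only [mul_zero, add_zero, Int.cast_zero, zero_mul, Int.cast_eq_zero] at h1
    exact Prod.ext (by omega) (by omega)
  · exfalso
    have hirr : Irrational (Real.sqrt 3) := by
      have := Nat.Prime.irrational_sqrt Nat.prime_three
      simpa using this
    apply hirr
    refine ⟨((p.1 - q.1 + 2 * (p.2 - q.2) : ℤ) : ℚ) / ((p.2 - q.2 : ℤ) : ℚ), ?_⟩
    have h3 : ((p.2 - q.2 : ℤ) : ℝ) ≠ 0 := by exact_mod_cast h2
    rw [Rat.cast_div, Rat.cast_intCast, Rat.cast_intCast, div_eq_iff h3]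
    rw [h1]; ring

lemma ev_inj {p q : V4} (h : ev p = ev q) : p = q := by
  have hs := sc_pos.ne'
  have h1 := congrArg Complex.re h
  have h2 := congrArg Complex.im h
  simp only [ev, pt] at h1 h2
  have h1' := mul_left_cancel₀ hs h1
  have h2' := mul_left_cancel₀ hs h2
  have e1 : ((p.1, p.2.1) : ℤ × ℤ) = (q.1, q.2.1) := rv_inj (by unfold rv; linarith)
  have e2 : ((p.2.2.1, p.2.2.2) : ℤ × ℤ) = (q.2.2.1, q.2.2.2) := rv_inj (by unfold rv; linarith)
  rw [Prod.mk.injEq] at e1 e2
  exact Prod.ext e1.1 (Prod.ext e1.2 (Prod.ext e2.1 e2.2))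

lemma mem_tile {q : V4} {t : ℕ} {i j : ℤ} : ev q ∈ tile t i j ↔ q ∈ tileL t i j := by
  constructor
  · rintro ⟨p, hp, h⟩
    rwa [ev_inj h]
  · intro h; exact ⟨q, h, rfl⟩

lemma sub_of_eq {t t' : ℕ} {i j i' j' : ℤ} (h : tile t i j = tile t' i' j') :
    ∀ q ∈ tileL t i j, q ∈ tileL t' i' j' := by
  intro q hq
  rw [← mem_tile, ← h, mem_tile]; exact hq

end Pool.Agent.Q281.TS
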